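import Pool.Agent.H185C.Defs

/-! T1a: acyclic sets (helper509). -/

set_option autoImplicit false

namespace Pool.Agent.H185C
open Finset Pool.Agent.H160R2.HF Pool.Agent.H160R2.HF.OrGraph Pool.Agent.H884R2.HFP

universe u v

section graph
variable {V : Type u} {E : Type v} [Fintype V] [Fintype E] [DecidableEq V] [DecidableEq E]

/-- incidence vector modulo two -/
def ac_a (G : OrGraph V E) (v : V) (e : E) : ZMod 2 :=
  (if G.t e = v then 1 else 0) + (if G.h e = v then 1 else 0)

theorem ac_even (G : OrGraph V E) (C : Finset E) (v : V) :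
    Even (G.deg C v) ↔ ∑ e ∈ C, ac_a G v e = 0 := by
  rw [← ZMod.natCast_eq_zero_iff_even]
  unfold OrGraph.deg ac_a
  rw [Nat.cast_add, Finset.natCast_card_filter, Finset.natCast_card_filter,
    Finset.sum_add_distrib]

/-- an acyclic set spans at most `|X| - 1` edges -/
theorem ac_edges (G : OrGraph V E) (X : Finset V) (hX : X.Nonempty) (h : ¬ G.HasCycleIn X) :
    (univ.filter (fun e => G.t e ∈ X ∧ G.h e ∈ X)).card + 1 ≤ X.card := by
  obtain ⟨x0, hx0⟩ := hX
  by_contra hcon
  set EX : Finset E := univ.filter (fun e => G.t e ∈ X ∧ G.h e ∈ X) with hEX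
  have hcard : (X.erase x0).card < EX.card := by
    rw [Finset.card_erase_of_mem hx0]
    have : 0 < X.card := Finset.card_pos.2 ⟨x0, hx0⟩
    omega
  let A : Matrix {v // v ∈ X.erase x0} {e // e ∈ EX} (ZMod 2) := fun v e => ac_a G v.1 e.1
  have hker : LinearMap.ker A.mulVecLin ≠ ⊥ := by
    apply LinearMap.ker_ne_bot_of_finrank_lt
    rw [Module.finrank_fintype_fun_eq_card, Module.finrank_fintype_fun_eq_card,
      Fintype.card_coe, Fintype.card_coe]
    exact hcard
  obtain ⟨c, hc, hc0⟩ := Submodule.exists_mem_ne_zero_of_ne_bot hker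
  rw [LinearMap.mem_ker, Matrix.mulVecLin_apply] at hc
  obtain ⟨e1, he1⟩ := Function.ne_iff.1 hc0
  set C : Finset E := (univ.filter (fun e : {e // e ∈ EX} => c e ≠ 0)).map
    (Function.Embedding.subtype _) with hC
  have hCE : ∀ e ∈ C, e ∈ EX := by
    intro e he
    rw [hC, Finset.mem_map] at he
    obtain ⟨a, -, rfl⟩ := he
    exact a.2
  have hsum : ∀ v, ∑ e ∈ C, ac_a G v e = ∑ e : {e // e ∈ EX}, ac_a G v e.1 * c e := by
    intro v
    rw [hC, Finset.sum_map, Finset.sum_filter]
    refine Finset.sum_congr rfl (fun e _ => ?_)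
    have h2 : c e = 0 ∨ c e = 1 := by
      have : ∀ z : ZMod 2, z = 0 ∨ z = 1 := by decide
      exact this _
    rcases h2 with h2 | h2
    · rw [if_neg (by rw [h2]; simp), h2, mul_zero]
    · rw [if_pos (by rw [h2]; exact one_ne_zero), h2, mul_one]
      rfl
  have hev1 : ∀ v ∈ X.erase x0, Even (G.deg C v) := by
    intro v hv
    rw [ac_even, hsum]
    have := congrFun hc ⟨v, hv⟩
    rw [Matrix.mulVec, dotProduct] at this
    exact this
  have hev2 : ∀ v, v ∉ X → Even (G.deg C v) := by
    intro v hv
    have : G.deg C v = 0 := by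
      unfold OrGraph.deg
      rw [Nat.add_eq_zero_iff, Finset.card_eq_zero, Finset.card_eq_zero,
        Finset.filter_eq_empty_iff, Finset.filter_eq_empty_iff]
      constructor
      · intro e he h1
        have := (Finset.mem_filter.1 (hCE e he)).2.1
        rw [h1] at this
        exact hv this
      · intro e he h1
        have := (Finset.mem_filter.1 (hCE e he)).2.2
        rw [h1] at this
        exact hv this
    rw [this]
    exact Even.zero
  have hev3 : Even (G.deg C x0) := by
    have hs := G.handshake C X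
    have hcut : G.cut X ∩ C = ∅ := by
      rw [Finset.eq_empty_iff_forall_notMem]
      intro e he
      rw [Finset.mem_inter] at he
      have h1 := (Finset.mem_filter.1 he.1).2
      have h2 := (Finset.mem_filter.1 (hCE e he.2)).2
      exact h1 ⟨fun _ => h2.2, fun _ => h2.1⟩
    rw [hcut, Finset.card_empty, add_zero, ← Finset.add_sum_erase X _ hx0] at hs
    have h3 : Even (∑ v ∈ X.erase x0, G.deg C v) := Finset.even_sum _ hev1
    have h4 : Even (G.deg C x0 + ∑ v ∈ X.erase x0, G.deg C v) := by
      rw [hs]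
      exact even_two_mul _
    exact (Nat.even_add.1 h4).2 h3
  apply h
  refine ⟨C, ⟨e1.1, ?_⟩, ?_, ?_⟩
  · rw [hC, Finset.mem_map]
    exact ⟨e1, Finset.mem_filter.2 ⟨Finset.mem_univ _, he1⟩, rfl⟩
  · intro e he
    exact (Finset.mem_filter.1 (hCE e he)).2
  · intro v
    by_cases hv : v ∈ X
    · by_cases hv0 : v = x0
      · rw [hv0]
        exact hev3
      · exact hev1 v (Finset.mem_erase.2 ⟨hv0, hv⟩)
    · exact hev2 v hv

theorem acyclic_le (G : OrGraph V E) (hc : G.Cubic) (X : Finset V) (hX : X.Nonempty)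
    (h : ¬ G.HasCycleIn X) : X.card + 2 ≤ (G.cut X).card := by
  have h1 := ac_edges G X hX h
  have h2 := G.handshake univ X
  rw [Finset.sum_congr rfl (fun v _ => hc v), Finset.sum_const, smul_eq_mul,
    Finset.inter_univ] at h2
  omega

end graph

end Pool.Agent.H185C
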