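import Pool.Agent.H185C.Bridge
import Pool.Agent.H884R2.HFP.Cor

set_option autoImplicit false

namespace Pool.Agent.H185C
open Finset Pool.Agent.H160R2.HF Pool.Agent.H160R2.HF.OrGraph Pool.Agent.H884R2.HFP

universe u v

variable {V : Type u} {E : Type v} [Fintype V] [Fintype E] [DecidableEq V] [DecidableEq E]

theorem cut_compl (G : OrGraph V E) (X : Finset V) : G.cut Xᶜ = G.cut X := by
  ext e; simp [cut, not_iff_not]

theorem three_le_cut (G : OrGraph V E) (hc : G.Cubic) (k : ℕ) (hk : 3 ≤ k) (hG : CycConn G k)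
    (X : Finset V) (h1 : X.Nonempty) (h2 : Xᶜ.Nonempty) : 3 ≤ (G.cut X).card := by
  by_contra h
  have a : G.HasCycleIn X := by
    by_contra hh
    have h3 := acyclic_le G hc X h1 hh
    have h4 := h1.card_pos
    omega
  have b : G.HasCycleIn Xᶜ := by
    by_contra hh
    have h3 := acyclic_le G hc Xᶜ h2 hh
    have h4 := h2.card_pos
    rw [cut_compl] at h3
    omega
  have := hG X a b
  omega

theorem cut_two (G : OrGraph V E) (hc : G.Cubic) (F : Finset E) (hF : G.IsTwoFactor F)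
    (X : Finset V) : (G.cut X ∩ Fᶜ).card ≤ X.card := by
  have h := G.handshake Fᶜ X
  rw [Finset.sum_congr rfl (fun v _ => deg_compl G hc F hF v)] at h
  simp at h
  omega

theorem cut_F_even (G : OrGraph V E) (F : Finset E) (hF : G.IsTwoFactor F)
    (X : Finset V) : Even (G.cut X ∩ F).card := by
  have h := G.handshake F X
  rw [Finset.sum_congr rfl (fun v _ => hF v)] at h
  simp only [Finset.sum_const, smul_eq_mul] at h
  rw [Nat.even_iff]
  omega

theorem even_card (G : OrGraph V E) (hc : G.Cubic) : Even (Fintype.card V) := by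
  have h := G.handshake univ univ
  rw [Finset.sum_congr rfl (fun v _ => hc v)] at h
  have h0 : G.cut (univ : Finset V) = ∅ := by
    ext e; simp [cut]
  rw [h0] at h
  simp only [Finset.sum_const, smul_eq_mul, Finset.card_univ, Finset.empty_inter,
    Finset.card_empty, add_zero] at h
  rw [Nat.even_iff]
  omega

theorem sep_symm (U : Finset V) (τ : V → V)
    (hτ : ∀ u ∈ U, τ u ∈ U ∧ τ (τ u) = u ∧ τ u ≠ u) (X : Finset V) :
    sep U τ Xᶜ = sep U τ X := by
  rw [← sep_compl U τ hτ X]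
  unfold sep
  congr 1
  ext u
  simp

theorem sep_le_card (U : Finset V) (τ : V → V) (X : Finset V) :
    sep U τ X ≤ (U.filter (fun u => u ∈ X)).card := by
  unfold sep
  apply Finset.card_le_card
  intro u hu
  rw [Finset.mem_filter] at hu ⊢
  exact ⟨hu.1, hu.2.1⟩

/-- the criterion for acyclic connected sets -/
theorem acyclic_case (G : OrGraph V E) (hc : G.Cubic) (F : Finset E) (hF : G.IsTwoFactor F)
    (U : Finset V) (τ : V → V)
    (hfar : ∀ u ∈ U, ∀ v ∈ U, u ≠ v → ¬ Near G 8 u v) (X : Finset V) (hX : X.Nonempty)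
    (hconn : Conn G X) (hacyc : ¬ G.HasCycleIn X)
    (hf : (G.cut X ∩ F).card < 2 * sep U τ X) : 5 * sep U τ X ≤ (G.cut X).card + 1 := by
  have h1 := sep_le_card U τ X
  have h2 := acyclic_le G hc X hX hacyc
  by_cases h : 2 ≤ (U.filter (fun u => u ∈ X)).card
  · have h3 := far_card G X hconn (U.filter (fun u => u ∈ X)) (by
      intro u hu
      exact (Finset.mem_filter.1 hu).2) (by
      intro u hu v hv
      exact hfar u (Finset.mem_filter.1 hu).1 v (Finset.mem_filter.1 hv).1) h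
    omega
  · exfalso
    have h3 : sep U τ X ≤ 1 := by omega
    obtain ⟨m, hm⟩ := cut_F_even G F hF X
    have h4 : (G.cut X ∩ F).card = 0 := by omega
    exact hacyc (G.hasCycleIn_of_cut F hF X (Finset.card_eq_zero.1 h4) hX)

/-- a set and its complement, in terms of thick sets -/
theorem criterion (G : OrGraph V E) (hc : G.Cubic) (F : Finset E) (hF : G.IsTwoFactor F)
    (U : Finset V) (τ : V → V) (hτ : ∀ u ∈ U, τ u ∈ U ∧ τ (τ u) = u ∧ τ u ≠ u)
    (hfar : ∀ u ∈ U, ∀ v ∈ U, u ≠ v → ¬ Near G 8 u v)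
    (hthick : ∀ X : Finset V, Thick G X → 5 * sep U τ X ≤ (G.cut X).card + 1)
    (X : Finset V) (hX : X.Nonempty) (hX' : Xᶜ.Nonempty)
    (hconn : Conn G X) (hconn' : Conn G Xᶜ)
    (hf : (G.cut X ∩ F).card < 2 * sep U τ X) : 5 * sep U τ X ≤ (G.cut X).card + 1 := by
  by_cases h1 : G.HasCycleIn X
  · by_cases h2 : G.HasCycleIn Xᶜ
    · exact hthick X ⟨hconn, hconn', h1, h2⟩
    · have h3 := acyclic_case G hc F hF U τ hfar Xᶜ hX' hconn' h2 (by
        rw [cut_compl, sep_symm U τ hτ]; exact hf)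
      rw [cut_compl, sep_symm U τ hτ] at h3
      exact h3
  · exact acyclic_case G hc F hF U τ hfar X hX hconn h1 hf

/-- the trivial case: a perfect matching inside `F` -/
theorem trivial_case (G : OrGraph V E) (hc : G.Cubic) (F : Finset E) (hF : G.IsTwoFactor F)
    (hG : ∀ X : Finset V, X.Nonempty → Xᶜ.Nonempty → (G.cut X).Nonempty)
    (B : Finset E) (hBF : B ⊆ F) (hB : ∀ v, G.deg B v = 1) :
    ∃ φ₂ φ₄ : E → ℤ, G.IsHalfFlowPair φ₂ φ₄ ∧ ∀ e, φ₂ e ≠ 0 ↔ e ∈ F := by
  apply pair_of_conn G hc F hF hG ∅ B hBF (by simpa using hB) id (by simp)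
  intro X _ _ _ _ h
  simp [sep] at h

end Pool.Agent.H185C
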