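import Pool.Agent.H185C.Asm1

set_option autoImplicit false

namespace Pool.Agent.H185C
open Finset Pool.Agent.H160R2.HF Pool.Agent.H160R2.HF.OrGraph Pool.Agent.H884R2.HFP

universe u v

variable {V : Type u} {E : Type v} [Fintype V] [Fintype E] [DecidableEq V] [DecidableEq E]

/-- the cycles of a permutation -/
abbrev Cyc (π : Equiv.Perm V) : Type u := Quotient (Equiv.Perm.SameCycle.setoid π)

/-- the cycle of `v` -/
abbrev cls (π : Equiv.Perm V) (v : V) : Cyc π := Quotient.mk (Equiv.Perm.SameCycle.setoid π) v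

theorem cls_eq (π : Equiv.Perm V) (v w : V) : cls π v = cls π w ↔ π.SameCycle v w :=
  ⟨fun h => Quotient.exact h, fun h => Quotient.sound h⟩

theorem cls_apply (π : Equiv.Perm V) (v : V) : cls π (π v) = cls π v := by
  rw [cls_eq]
  exact ((Equiv.Perm.SameCycle.refl π v).apply_right).symm

theorem cls_pow (π : Equiv.Perm V) (j : ℕ) (v : V) : cls π ((π ^ j) v) = cls π v := by
  induction j with
  | zero => simp
  | succ j ih => rw [pow_succ', Equiv.Perm.mul_apply, cls_apply, ih]

theorem cls_edge (G : OrGraph V E) (F : Finset E) (π : Equiv.Perm V) (ε : V → E)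
    (hπ : IsPerm G F π ε) (e : E) (he : e ∈ F) : cls π (G.t e) = cls π (G.h e) := by
  obtain ⟨v, rfl⟩ := hπ.2.2.1 e he
  rcases hπ.2.2.2 v with ⟨h1, h2⟩ | ⟨h1, h2⟩
  · rw [h1, h2, cls_apply]
  · rw [h1, h2, cls_apply]

open Classical in
/-- a union of cycles, as a set of vertices -/
noncomputable def vert (π : Equiv.Perm V) (Y : Finset (Cyc π)) : Finset V :=
  univ.filter (fun v => cls π v ∈ Y)

theorem vert_cut (G : OrGraph V E) (π : Equiv.Perm V) [DecidableEq (Cyc π)] (Y : Finset (Cyc π)) :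
    G.cut (vert π Y) =
      univ.filter (fun e => ¬ (cls π (G.t e) ∈ Y ↔ cls π (G.h e) ∈ Y)) := by
  ext e; simp [cut, vert]

theorem vert_compl_nonempty (π : Equiv.Perm V) (Y : Finset (Cyc π)) (hY : ∃ y, y ∉ Y) :
    (vert π Y)ᶜ.Nonempty := by
  obtain ⟨y, hy⟩ := hY
  obtain ⟨v, rfl⟩ := Quotient.exists_rep y
  exact ⟨v, by simp [vert]; exact hy⟩

theorem vert_cutF (G : OrGraph V E) (F : Finset E) (π : Equiv.Perm V) (ε : V → E)
    (hπ : IsPerm G F π ε) (Y : Finset (Cyc π)) : G.cut (vert π Y) ∩ F = ∅ := by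
  classical
  rw [vert_cut, Finset.eq_empty_iff_forall_notMem]
  intro e he
  rw [Finset.mem_inter, Finset.mem_filter] at he
  apply he.1.2
  rw [cls_edge G F π ε hπ e he.2]

theorem vert_nonempty (π : Equiv.Perm V) (Y : Finset (Cyc π)) (hY : Y.Nonempty) :
    (vert π Y).Nonempty := by
  obtain ⟨y, hy⟩ := hY
  obtain ⟨v, rfl⟩ := Quotient.exists_rep y
  exact ⟨v, by simp [vert]; exact hy⟩

theorem le_cut_vert (G : OrGraph V E) (F : Finset E) (hF : G.IsTwoFactor F)
    (π : Equiv.Perm V) (ε : V → E) (hπ : IsPerm G F π ε) (k : ℕ) (hG : CycConn G k)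
    (Y : Finset (Cyc π)) (hY : Y.Nonempty) (hY' : ∃ y, y ∉ Y) :
    k ≤ (G.cut (vert π Y)).card := by
  apply hG
  · exact G.hasCycleIn_of_cut F hF _ (vert_cutF G F π ε hπ Y) (vert_nonempty π Y hY)
  · apply G.hasCycleIn_of_cut F hF _ _ _
    · rw [cut_compl]; exact vert_cutF G F π ε hπ Y
    · exact vert_compl_nonempty π Y hY'

/-- every cycle has at least `k` vertices, if there are at least two cycles -/
theorem le_card_vert (G : OrGraph V E) (hc : G.Cubic) (F : Finset E) (hF : G.IsTwoFactor F)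
    (π : Equiv.Perm V) (ε : V → E) (hπ : IsPerm G F π ε) (k : ℕ) (hG : CycConn G k)
    (Y : Finset (Cyc π)) (hY : Y.Nonempty) (hY' : ∃ y, y ∉ Y) :
    k ≤ (vert π Y).card := by
  have h1 := le_cut_vert G F hF π ε hπ k hG Y hY hY'
  have h2 := cut_two G hc F hF (vert π Y)
  have h3 := cut_card G F (vert π Y)
  rw [vert_cutF G F π ε hπ Y] at h3
  simp at h3
  omega

/-- the cycles are long -/
theorem cyc_long (G : OrGraph V E) (hc : G.Cubic) (F : Finset E) (hF : G.IsTwoFactor F)
    (π : Equiv.Perm V) (ε : V → E) (hπ : IsPerm G F π ε) (k : ℕ) (hG : CycConn G k)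
    (h2 : ∃ v w, cls π v ≠ cls π w) (v : V) (j : ℕ) (hj : 1 ≤ j) (hjk : j < k) :
    (π ^ j) v ≠ v := by
  classical
  intro hv
  have h1 : k ≤ (vert π {cls π v}).card := by
    apply le_card_vert G hc F hF π ε hπ k hG
    · simp
    · obtain ⟨a, b, hab⟩ := h2
      by_cases ha : cls π a = cls π v
      · refine ⟨cls π b, ?_⟩
        simp only [Finset.mem_singleton]
        intro hb
        exact hab (ha.trans hb.symm)
      · exact ⟨cls π a, by simpa using ha⟩
  have h3 : vert π {cls π v} ⊆ (Finset.range j).image (fun i => (π ^ i) v) := by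
    intro w hw
    simp only [vert, Finset.mem_filter, Finset.mem_univ, true_and, Finset.mem_singleton] at hw
    rw [cls_eq] at hw
    obtain ⟨i, _, hi⟩ := hw.symm.exists_pow_eq'
    rw [Finset.mem_image]
    refine ⟨i % j, Finset.mem_range.2 (Nat.mod_lt _ hj), ?_⟩
    have h4 : ∀ m : ℕ, ((π ^ j) ^ m) v = v := by
      intro m
      induction m with
      | zero => simp
      | succ m ih => rw [pow_succ', Equiv.Perm.mul_apply, ih, hv]
    have h5 : (π ^ i) v = (π ^ (i % j)) v := by
      conv_lhs => rw [← Nat.mod_add_div i j, pow_add, Equiv.Perm.mul_apply, pow_mul, h4]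
    rw [← h5, hi]
  have h4 := Finset.card_le_card h3
  have h5 : ((Finset.range j).image (fun i => (π ^ i) v)).card ≤ j :=
    Finset.card_image_le.trans (by simp)
  omega

/-- at least `2 k` vertices, if there are at least two cycles -/
theorem two_k_le (G : OrGraph V E) (hc : G.Cubic) (F : Finset E) (hF : G.IsTwoFactor F)
    (π : Equiv.Perm V) (ε : V → E) (hπ : IsPerm G F π ε) (k : ℕ) (hG : CycConn G k)
    (h2 : ∃ v w, cls π v ≠ cls π w) : 2 * k ≤ Fintype.card V := by
  classical
  obtain ⟨a, b, hab⟩ := h2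
  have h1 := le_card_vert G hc F hF π ε hπ k hG {cls π a} (by simp)
    ⟨cls π b, by simpa using fun h => hab h.symm⟩
  have h3 := le_card_vert G hc F hF π ε hπ k hG {cls π b} (by simp)
    ⟨cls π a, by simpa using hab⟩
  have h4 : Disjoint (vert π {cls π a}) (vert π {cls π b}) := by
    rw [Finset.disjoint_left]
    intro v hv hv'
    simp only [vert, Finset.mem_filter, Finset.mem_univ, true_and, Finset.mem_singleton] at hv hv'
    exact hab (hv.symm.trans hv')
  have h5 := Finset.card_union_of_disjoint h4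
  have h6 := Finset.card_le_univ (vert π {cls π a} ∪ vert π {cls π b})
  omega

end Pool.Agent.H185C
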