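import Pool.Agent.H185C.Asm2

set_option autoImplicit false

namespace Pool.Agent.H185C
open Finset Pool.Agent.H160R2.HF Pool.Agent.H160R2.HF.OrGraph Pool.Agent.H884R2.HFP

universe u v

variable {V : Type u} {E : Type v} [Fintype V] [Fintype E] [DecidableEq V] [DecidableEq E]

theorem sum_biUnion_le' {α β : Type*} [DecidableEq β] (s : Finset α) (g : α → Finset β)
    (f : β → ℝ) (hf : ∀ b, 0 ≤ f b) : ∑ b ∈ s.biUnion g, f b ≤ ∑ a ∈ s, ∑ b ∈ g a, f b := by
  classical
  induction s using Finset.induction_on with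
  | empty => simp
  | insert a s ha ih =>
    rw [Finset.biUnion_insert, Finset.sum_insert ha]
    have h1 : ∑ b ∈ g a ∪ s.biUnion g, f b ≤ ∑ b ∈ g a, f b + ∑ b ∈ s.biUnion g, f b := by
      have h2 := Finset.sum_union_inter (s₁ := g a) (s₂ := s.biUnion g) (f := f)
      have h3 : 0 ≤ ∑ b ∈ g a ∩ s.biUnion g, f b := Finset.sum_nonneg fun b _ => hf b
      linarith
    linarith

/-- the spanning tree with few edges in every `Zset` -/
theorem exists_tree (G : OrGraph V E) (hc : G.Cubic) (F : Finset E) (hF : G.IsTwoFactor F)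
    (π : Equiv.Perm V) [Fintype (Cyc π)] [DecidableEq (Cyc π)] (ε : V → E) (hπ : IsPerm G F π ε) (k : ℕ) (hk : 3 ≤ k) (hG : CycConn G k)
    (h2 : ∃ v w, cls π v ≠ cls π w) (blk : V → V) (hb : IsBlocks π LL blk)
    (hnum : ∑ d ∈ Finset.Icc k (Fintype.card E),
      ((1000000 : ℝ) ^ d * (2 * (Fintype.card V)) ^ (2 * d / k + 1) *
      ((2 * LL * d).choose (d / 5 + 1) : ℝ) * (2 / k) ^ (d / 5 + 1)) < 1) :
    ∃ B : Finset E, (∀ e ∈ B, e ∉ F) ∧ (∀ X, Thick G X → (B ∩ Zset G F blk X).card ≤ (G.cut X).card / 5)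
      ∧ ∀ T : Cyc π → ZMod 2, ∑ i, T i = 0 →
        ∃ R ⊆ B, ∀ i, (((R.filter (fun e => cls π (G.t e) = i)).card +
          (R.filter (fun e => cls π (G.h e) = i)).card : ℕ) : ZMod 2) = T i := by
  classical
  have hn := two_k_le G hc F hF π ε hπ k hG h2
  obtain ⟨v0, w0, hvw⟩ := h2
  have : Nonempty (Cyc π) := ⟨cls π v0⟩
  have hcut : ∀ Y : Finset (Cyc π), Y.Nonempty → Yᶜ.Nonempty →
      k ≤ (univ.filter (fun e => ¬ (cls π (G.t e) ∈ Y ↔ cls π (G.h e) ∈ Y))).card := by
    intro Y h3 h4
    obtain ⟨y, hy⟩ := h4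
    have h5 := le_cut_vert G F hF π ε hπ k hG Y h3 ⟨y, by simpa using hy⟩
    rw [vert_cut] at h5
    exact h5
  set J : Finset (Finset E) := (univ.filter (fun X => Thick G X)).biUnion
    (fun X => (Zset G F blk X).powersetCard ((G.cut X).card / 5 + 1)) with hJ
  have hsum : ∑ S ∈ J, (2 / k : ℝ) ^ S.card < 1 := by
    refine lt_of_le_of_lt ?_ hnum
    refine (sum_biUnion_le' _ _ _ (fun b => by positivity)).trans ?_
    have h5 : ∀ X : Finset V, ∑ S ∈ (Zset G F blk X).powersetCard ((G.cut X).card / 5 + 1),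
        (2 / k : ℝ) ^ S.card ≤
        ((2 * LL * (G.cut X).card).choose ((G.cut X).card / 5 + 1) : ℝ) *
          (2 / k) ^ ((G.cut X).card / 5 + 1) := by
      intro X
      rw [Finset.sum_congr rfl (fun S hS => by rw [(Finset.mem_powersetCard.1 hS).2])]
      rw [Finset.sum_const, Finset.card_powersetCard, nsmul_eq_mul]
      apply mul_le_mul_of_nonneg_right _ (by positivity)
      have h6 := card_Zset G hc F hF π ε hπ LL (by unfold LL; norm_num) blk hb X
      exact_mod_cast Nat.choose_le_choose _ h6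
    refine (Finset.sum_le_sum fun X _ => h5 X).trans ?_
    have hmaps : ∀ X ∈ univ.filter (fun X => Thick G X),
        (G.cut X).card ∈ Finset.Icc k (Fintype.card E) := by
      intro X hX
      rw [Finset.mem_filter] at hX
      rw [Finset.mem_Icc]
      exact ⟨hG X hX.2.2.2.1 hX.2.2.2.2, Finset.card_le_univ _⟩
    rw [← Finset.sum_fiberwise_of_maps_to hmaps]
    apply Finset.sum_le_sum
    intro d _
    rw [Finset.sum_congr rfl (fun X hX => by rw [(Finset.mem_filter.1 hX).2])]
    rw [Finset.sum_const, nsmul_eq_mul]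
    have h7 := cut_count G hc k hk hG hn d
      ((univ.filter (fun X => Thick G X)).filter (fun X => (G.cut X).card = d)) (by
        intro X hX
        rw [Finset.mem_filter, Finset.mem_filter] at hX
        exact ⟨hX.1.2, hX.2⟩)
    have h8 : ((((univ.filter (fun X => Thick G X)).filter (fun X => (G.cut X).card = d)).card : ℕ) : ℝ)
        ≤ (1000000 : ℝ) ^ d * (2 * (Fintype.card V)) ^ (2 * d / k + 1) := by
      exact_mod_cast h7
    rw [← mul_assoc]
    apply mul_le_mul_of_nonneg_right _ (by positivity)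
    exact mul_le_mul_of_nonneg_right h8 (by positivity)
  obtain ⟨B, hB1, hB2⟩ := rand_tree (fun e => cls π (G.t e)) (fun e => cls π (G.h e)) k
    (by omega) hcut J hsum
  refine ⟨B, ?_, ?_, ?_⟩
  · intro e he heF
    have h5 := cls_edge G F π ε hπ e heF
    have h6 : vec (fun e => cls π (G.t e)) (fun e => cls π (G.h e)) e = 0 := by
      unfold vec
      simp only
      rw [h5]
      funext i
      by_cases hi : i = cls π (G.h e)
      · subst hi
        simp only [Pi.add_apply, Pi.single_eq_same, Pi.zero_apply]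
        decide
      · simp [hi]
    exact hB1.1.ne_zero (by exact_mod_cast he) h6
  · intro X hX
    by_contra hcon
    push Not at hcon
    obtain ⟨S, hS1, hS2⟩ := Finset.exists_subset_card_eq (s := B ∩ Zset G F blk X)
      (n := (G.cut X).card / 5 + 1) (by omega)
    apply hB2 S
    · rw [hJ, Finset.mem_biUnion]
      refine ⟨X, by simpa using hX, ?_⟩
      rw [Finset.mem_powersetCard]
      exact ⟨hS1.trans Finset.inter_subset_right, hS2⟩
    · exact hS1.trans Finset.inter_subset_left
  · intro T hT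
    exact exists_join (fun e => cls π (G.t e)) (fun e => cls π (G.h e)) (by
      intro Y h3 h4
      have := hcut Y h3 h4
      rw [← Finset.card_pos]
      omega) B hB1 T hT

end Pool.Agent.H185C
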