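import Pool.Agent.H185C.Defs

/-!
# T4: blocks (helper793)
-/

set_option autoImplicit false

namespace Pool.Agent.H185C
open Finset Pool.Agent.H160R2.HF Pool.Agent.H160R2.HF.OrGraph Pool.Agent.H884R2.HFP

universe u v w

section graph
variable {V : Type u} [Fintype V] [DecidableEq V]

/-- separated sets of block starts -/
def t4_sep (π : Equiv.Perm V) (L : ℕ) (S : Finset V) : Prop :=
  ∀ s ∈ S, ∀ s' ∈ S, ∀ j, 1 ≤ j → j < L → (π ^ j) s ≠ s'

omit [Fintype V] [DecidableEq V] in
theorem t4_pow (π : Equiv.Perm V) (a b : ℕ) (x : V) : (π ^ a) ((π ^ b) x) = (π ^ (a + b)) x := by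
  rw [pow_add, Equiv.Perm.mul_apply]

omit [Fintype V] [DecidableEq V] in
theorem t4_symm (π : Equiv.Perm V) {m i : ℕ} (h : m ≤ i) (x : V) :
    (π ^ m).symm ((π ^ i) x) = (π ^ (i - m)) x := by
  rw [Equiv.symm_apply_eq, t4_pow]
  congr 2
  omega

theorem t4_exists (π : Equiv.Perm V) (L : ℕ) (hL : 1 ≤ L)
    (hcyc : ∀ v, ∀ j, 1 ≤ j → j < L → (π ^ j) v ≠ v) :
    ∃ S : Finset V, t4_sep π L S ∧ ∀ v, ∃ j < 2 * L - 1, (π ^ j).symm v ∈ S := by
  classical
  obtain ⟨S, hS, hmax⟩ := Finset.exists_max_image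
    ((univ : Finset (Finset V)).filter (fun S => t4_sep π L S)) Finset.card
    ⟨∅, by
      rw [Finset.mem_filter]
      refine ⟨Finset.mem_univ _, ?_⟩
      intro s hs
      exact absurd hs (Finset.notMem_empty s)⟩
  rw [Finset.mem_filter] at hS
  refine ⟨S, hS.2, ?_⟩
  intro v
  by_contra hcon
  push Not at hcon
  have key : ∀ j, j < 2 * L - 1 → ∀ s ∈ S, (π ^ j) s ≠ v := by
    intro j hj s hs h
    apply hcon j hj
    rw [← h, Equiv.symm_apply_apply]
    exact hs
  set w : V := (π ^ (L - 1)).symm v with hw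
  have hwv : (π ^ (L - 1)) w = v := by rw [hw, Equiv.apply_symm_apply]
  have hwS : w ∉ S := fun h => key (L - 1) (by omega) w h hwv
  have hsep : t4_sep π L (insert w S) := by
    intro s hs s' hs' j hj1 hjL h
    rcases Finset.mem_insert.1 hs with h1 | h1
    · rcases Finset.mem_insert.1 hs' with h2 | h2
      · rw [h1, h2] at h
        exact hcyc w j hj1 hjL h
      · apply key (L - 1 - j) (by omega) s' h2
        rw [← h, h1, t4_pow, ← hwv]
        congr 2
        omega
    · rcases Finset.mem_insert.1 hs' with h2 | h2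
      · apply key (L - 1 + j) (by omega) s h1
        rw [← t4_pow, h, h2, hwv]
      · exact hS.2 s h1 s' h2 j hj1 hjL h
  have := hmax (insert w S) (Finset.mem_filter.2 ⟨Finset.mem_univ _, hsep⟩)
  rw [Finset.card_insert_of_notMem hwS] at this
  omega

theorem exists_blocks (π : Equiv.Perm V) (L : ℕ) (hL : 1 ≤ L)
    (hcyc : ∀ v, ∀ j, 1 ≤ j → j < L → (π ^ j) v ≠ v) : ∃ blk : V → V, IsBlocks π L blk := by
  classical
  obtain ⟨S, hsep, hcov⟩ := t4_exists π L hL hcyc
  have hex : ∀ v, ∃ j, (π ^ j).symm v ∈ S := fun v => by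
    obtain ⟨j, _, h⟩ := hcov v
    exact ⟨j, h⟩
  let jj : V → ℕ := fun v => Nat.find (hex v)
  have hjj : ∀ v, (π ^ (jj v)).symm v ∈ S := fun v => Nat.find_spec (hex v)
  have hmin : ∀ v m, m < jj v → (π ^ m).symm v ∉ S := fun v m hm => Nat.find_min (hex v) hm
  have hlt : ∀ v, jj v < 2 * L := by
    intro v
    obtain ⟨j, hj, h⟩ := hcov v
    have : jj v ≤ j := Nat.find_min' (hex v) h
    omega
  have heq : ∀ v i, (π ^ i).symm v ∈ S → (∀ m, m < i → (π ^ m).symm v ∉ S) → jj v = i := by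
    intro v i h1 h2
    rcases lt_trichotomy (jj v) i with h | h | h
    · exact absurd (hjj v) (h2 _ h)
    · exact h
    · exact absurd h1 (hmin v i h)
  let blk : V → V := fun v => (π ^ (jj v)).symm v
  have hblk : ∀ v i, jj v = i → blk v = (π ^ i).symm v := by
    intro v i h
    show (π ^ (jj v)).symm v = _
    rw [h]
  have hz : ∀ v : V, (π ^ 0).symm v = v := by
    intro v
    rw [Equiv.symm_apply_eq]
    rfl
  have hS : ∀ v ∈ S, blk v = v := by
    intro v hv
    have h0 : jj v = 0 := heq v 0 (by rw [hz]; exact hv)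
      (fun m hm => absurd hm (Nat.not_lt_zero m))
    rw [hblk v 0 h0, hz]
  have hpow : ∀ b ∈ S, ∀ i, (∀ m, 1 ≤ m → m ≤ i → (π ^ m) b ∉ S) → blk ((π ^ i) b) = b := by
    intro b hb i hi
    have h1 : jj ((π ^ i) b) = i := by
      apply heq
      · rw [Equiv.symm_apply_apply]
        exact hb
      · intro m hm
        rw [t4_symm π hm.le]
        exact hi (i - m) (by omega) (by omega)
    rw [hblk _ i h1, Equiv.symm_apply_apply]
  refine ⟨blk, ?_, ?_, ?_⟩
  · intro v
    exact hS _ (hjj v)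
  · intro v
    refine ⟨jj v, hlt v, ?_, ?_⟩
    · show (π ^ (jj v)) ((π ^ (jj v)).symm v) = v
      rw [Equiv.apply_symm_apply]
    · intro i hi
      apply hpow _ (hjj v)
      intro m hm1 hmi hmem
      have h2 : (π ^ (jj v - m)).symm v = (π ^ m) (blk v) := by
        rw [Equiv.symm_apply_eq, t4_pow]
        have h3 : jj v - m + m = jj v := by omega
        rw [h3]
        show v = (π ^ (jj v)) ((π ^ (jj v)).symm v)
        rw [Equiv.apply_symm_apply]
      have h4 : (π ^ m) (blk v) ∈ S := hmem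
      rw [← h2] at h4
      exact hmin v (jj v - m) (by omega) h4
  · intro b hb j hj
    have hbS : b ∈ S := by
      rw [← hb]
      exact hjj b
    apply hpow b hbS
    intro m hm1 hmj hmem
    exact hsep b hbS _ hmem m hm1 (by omega) rfl

end graph

end Pool.Agent.H185C
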