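import Pool.Agent.H185C.Defs

/-! Task T1b: connected sets have few boundary edges. -/

set_option autoImplicit false
set_option linter.unusedSectionVars false

namespace Pool.Agent.H185C
open Finset Pool.Agent.H160R2.HF Pool.Agent.H160R2.HF.OrGraph Pool.Agent.H884R2.HFP

universe u v

variable {V : Type u} {E : Type v} [Fintype V] [Fintype E] [DecidableEq V] [DecidableEq E]

/-- a connected set contains connected parts of every size with many edges -/
theorem conn_le_grow (G : OrGraph V E) (X : Finset V) (hX : X.Nonempty) (h : Conn G X) :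
    ∀ n, 1 ≤ n → n ≤ X.card → ∃ Y ⊆ X, Y.card = n ∧
      n ≤ (univ.filter (fun e => G.t e ∈ Y ∧ G.h e ∈ Y)).card + 1 := by
  intro n
  induction n with
  | zero => intro h0; omega
  | succ n ih =>
    intro _ hn
    rcases Nat.eq_zero_or_pos n with h0 | h0
    · subst h0
      obtain ⟨v, hv⟩ := hX
      exact ⟨{v}, by simpa using hv, by simp, by omega⟩
    · obtain ⟨Y, hYX, hYc, hYe⟩ := ih h0 (by omega)
      have hYne : Y.Nonempty := by rw [← card_pos]; omega
      have hXY : (X \ Y).Nonempty := by
        rw [← card_pos, card_sdiff_of_subset hYX]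
        omega
      obtain ⟨e, he, hte, hhe⟩ := h Y hYX hYne hXY
      have hcut : ¬ (G.t e ∈ Y ↔ G.h e ∈ Y) := by
        have := he
        unfold OrGraph.cut at this
        exact (mem_filter.mp this).2
      -- the outer end
      obtain ⟨w, hwX, hwY, hin⟩ : ∃ w, w ∈ X ∧ w ∉ Y ∧ (G.t e ∈ insert w Y ∧ G.h e ∈ insert w Y) := by
        by_cases ht : G.t e ∈ Y
        · have hh : G.h e ∉ Y := fun hh => hcut ⟨fun _ => hh, fun _ => ht⟩
          exact ⟨G.h e, hhe, hh, mem_insert_of_mem ht, mem_insert_self _ _⟩
        · have hh : G.h e ∈ Y := by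
            by_contra hh
            exact hcut ⟨fun h => absurd h ht, fun h => absurd h hh⟩
          exact ⟨G.t e, hte, ht, mem_insert_self _ _, mem_insert_of_mem hh⟩
      refine ⟨insert w Y, insert_subset hwX hYX, by rw [card_insert_of_notMem hwY, hYc], ?_⟩
      have hsub : insert e (univ.filter (fun e => G.t e ∈ Y ∧ G.h e ∈ Y)) ⊆
          univ.filter (fun e => G.t e ∈ insert w Y ∧ G.h e ∈ insert w Y) := by
        intro e' he'
        rw [mem_insert] at he'
        rcases he' with rfl | he'
        · exact mem_filter.mpr ⟨mem_univ _, hin⟩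
        · have := (mem_filter.mp he').2
          exact mem_filter.mpr ⟨mem_univ _, mem_insert_of_mem this.1, mem_insert_of_mem this.2⟩
      have hnot : e ∉ univ.filter (fun e => G.t e ∈ Y ∧ G.h e ∈ Y) := by
        intro h'
        have := (mem_filter.mp h').2
        exact hcut ⟨fun _ => this.2, fun _ => this.1⟩
      have hc := card_le_card hsub
      rw [card_insert_of_notMem hnot] at hc
      omega

theorem conn_le (G : OrGraph V E) (hc : G.Cubic) (X : Finset V) (hX : X.Nonempty)
    (h : Conn G X) : (G.cut X).card ≤ X.card + 2 := by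
  obtain ⟨Y, hYX, hYc, hYe⟩ := conn_le_grow G X hX h X.card (card_pos.mpr hX) le_rfl
  have hYX' : Y = X := eq_of_subset_of_card_le hYX hYc.ge
  subst hYX'
  have hs := G.handshake univ Y
  rw [inter_univ, sum_congr rfl (fun v _ => hc v), sum_const, smul_eq_mul] at hs
  omega

end Pool.Agent.H185C
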