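import Pool.Agent.H185C.Defs

/-! T5: the number of cut blocks, and the size of `Zset`. -/

set_option autoImplicit false

namespace Pool.Agent.H185C
open Finset Pool.Agent.H160R2.HF Pool.Agent.H160R2.HF.OrGraph Pool.Agent.H884R2.HFP

universe u v

section graph
variable {V : Type u} {E : Type v} [Fintype V] [Fintype E] [DecidableEq V] [DecidableEq E]

namespace CutBlocksAux

theorem walk {π : Equiv.Perm V} {X : Finset V} {b : V} (k : ℕ)
    (h : ∀ i < k, ((π ^ i) b ∈ X ↔ (π ^ (i + 1)) b ∈ X)) :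
    ∀ i ≤ k, ((π ^ i) b ∈ X ↔ b ∈ X) := by
  intro i
  induction i with
  | zero => intro _; simp
  | succ i ih => intro hi; rw [← h i (by omega)]; exact ih (by omega)

theorem exists_switch {π : Equiv.Perm V} {L : ℕ} {blk : V → V} (hb : IsBlocks π L blk)
    (X : Finset V) (b : V) (hC : CutBlock blk X b) :
    ∃ w, blk w = b ∧ ¬ (w ∈ X ↔ π w ∈ X) := by
  obtain ⟨⟨v, hv, hvX⟩, v', hv', hvX'⟩ := hC
  obtain ⟨j, _, hj1, hj2⟩ := hb.2.1 v
  obtain ⟨j', _, hj1', hj2'⟩ := hb.2.1 v'
  rw [hv] at hj1 hj2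
  rw [hv'] at hj1' hj2'
  have hk : ∀ i ≤ max j j', blk ((π ^ i) b) = b := by
    intro i hi
    rcases le_max_iff.1 hi with h | h
    · exact hj2 i h
    · exact hj2' i h
  by_contra hcon
  push Not at hcon
  have hstep : ∀ i < max j j', ((π ^ i) b ∈ X ↔ (π ^ (i + 1)) b ∈ X) := by
    intro i hi
    have := hcon ((π ^ i) b) (hk i hi.le)
    rwa [pow_succ', Equiv.Perm.mul_apply]
  have h1 := walk (π := π) (X := X) (b := b) (max j j') hstep j (le_max_left _ _)
  have h2 := walk (π := π) (X := X) (b := b) (max j j') hstep j' (le_max_right _ _)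
  rw [hj1] at h1
  rw [hj1'] at h2
  exact hvX' (h2.2 (h1.1 hvX))

end CutBlocksAux

theorem cutblocks_le (G : OrGraph V E) (F : Finset E) (π : Equiv.Perm V) (ε : V → E)
    (hπ : IsPerm G F π ε) (L : ℕ) (blk : V → V) (hb : IsBlocks π L blk) (X : Finset V)
    (C : Finset V) (hC : ∀ b ∈ C, CutBlock blk X b) : C.card ≤ (G.cut X ∩ F).card := by
  have hex : ∀ b, ∃ w, b ∈ C → blk w = b ∧ ¬ (w ∈ X ↔ π w ∈ X) := by
    intro b
    by_cases hbC : b ∈ C
    · obtain ⟨w, hw⟩ := CutBlocksAux.exists_switch hb X b (hC b hbC)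
      exact ⟨w, fun _ => hw⟩
    · exact ⟨b, fun h => absurd h hbC⟩
  choose w hw using hex
  refine Finset.card_le_card_of_injOn (fun b => ε (w b)) ?_ ?_
  · intro b hbC
    have hbC' : b ∈ C := by simpa using hbC
    have h1 := (hw b hbC').2
    simp only [Finset.coe_inter, Set.mem_inter_iff, Finset.mem_coe]
    refine ⟨?_, hπ.2.1 _⟩
    rw [OrGraph.cut, Finset.mem_filter]
    refine ⟨Finset.mem_univ _, ?_⟩
    rcases hπ.2.2.2 (w b) with ⟨h2, h3⟩ | ⟨h2, h3⟩
    · rw [h2, h3]; exact h1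
    · rw [h2, h3]; exact fun h => h1 h.symm
  · intro b hbC b' hbC' h
    have h1 : w b = w b' := hπ.1 h
    rw [← (hw b (by simpa using hbC)).1, ← (hw b' (by simpa using hbC')).1, h1]

theorem card_Zset (G : OrGraph V E) (hc : G.Cubic) (F : Finset E) (hF : G.IsTwoFactor F)
    (π : Equiv.Perm V) (ε : V → E) (hπ : IsPerm G F π ε) (L : ℕ) (hL : 1 ≤ L) (blk : V → V)
    (hb : IsBlocks π L blk) (X : Finset V) :
    (Zset G F blk X).card ≤ 2 * L * (G.cut X).card := by
  classical
  set W : Finset V := univ.filter (fun v => CutBlock blk X (blk v)) with hW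
  set C : Finset V := W.image blk with hCdef
  have hCc : C.card ≤ (G.cut X ∩ F).card := by
    refine cutblocks_le G F π ε hπ L blk hb X C fun b hbC => ?_
    obtain ⟨v, hv, rfl⟩ := Finset.mem_image.1 hbC
    exact (Finset.mem_filter.1 hv).2
  have hWc : W.card ≤ C.card * (2 * L) := by
    have hsub : W ⊆ (C ×ˢ Finset.range (2 * L)).image (fun q => (π ^ q.2) q.1) := by
      intro v hv
      obtain ⟨j, hj, hj1, _⟩ := hb.2.1 v
      exact Finset.mem_image.2 ⟨(blk v, j), Finset.mem_product.2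
        ⟨Finset.mem_image_of_mem _ hv, Finset.mem_range.2 hj⟩, hj1⟩
    refine (Finset.card_le_card hsub).trans (Finset.card_image_le.trans ?_)
    rw [Finset.card_product, Finset.card_range]
  have hdeg : (Fᶜ.filter (fun e => G.t e ∈ W)).card + (Fᶜ.filter (fun e => G.h e ∈ W)).card =
      W.card := by
    have h1 : ∀ f : E → V, (Fᶜ.filter (fun e => f e ∈ W)).card =
        ∑ v ∈ W, (Fᶜ.filter (fun e => f e = v)).card := by
      intro f
      rw [Finset.card_eq_sum_card_fiberwise (f := f) (t := W)]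
      · refine Finset.sum_congr rfl fun v hv => ?_
        congr 1
        ext e
        simp only [Finset.mem_filter]
        constructor
        · rintro ⟨⟨h2, h3⟩, h4⟩; exact ⟨h2, h4⟩
        · rintro ⟨h2, h4⟩; exact ⟨⟨h2, h4 ▸ hv⟩, h4⟩
      · intro e he
        simpa using (Finset.mem_filter.1 (by simpa using he : e ∈ Fᶜ.filter (fun e => f e ∈ W))).2
    rw [h1, h1, ← Finset.sum_add_distrib]
    have h2 : ∀ v ∈ W, (Fᶜ.filter (fun e => G.t e = v)).card +
        (Fᶜ.filter (fun e => G.h e = v)).card = 1 := fun v _ => deg_compl G hc F hF v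
    rw [Finset.sum_congr rfl h2]
    simp
  have hZ : Zset G F blk X ⊆ (G.cut X \ F) ∪ (Fᶜ.filter (fun e => G.t e ∈ W) ∪
      Fᶜ.filter (fun e => G.h e ∈ W)) := by
    intro e he
    rw [Zset, Finset.mem_filter] at he
    simp only [Finset.mem_union, Finset.mem_sdiff, Finset.mem_filter, hW, Finset.mem_univ,
      true_and]
    obtain ⟨h1, h2 | h2 | h2⟩ := he
    · exact Or.inl ⟨h2, Finset.mem_compl.1 h1⟩
    · exact Or.inr (Or.inl ⟨h1, h2⟩)
    · exact Or.inr (Or.inr ⟨h1, h2⟩)
  have h5 := (Finset.card_le_card hZ).trans ((Finset.card_union_le _ _).trans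
    (Nat.add_le_add_left (Finset.card_union_le _ _) _))
  rw [hdeg] at h5
  have h6 : (G.cut X \ F).card + (G.cut X ∩ F).card = (G.cut X).card :=
    Finset.card_sdiff_add_card_inter _ _
  have h7 : (G.cut X \ F).card ≤ 2 * L * (G.cut X \ F).card :=
    Nat.le_mul_of_pos_left _ (by omega)
  calc (Zset G F blk X).card ≤ (G.cut X \ F).card + W.card := h5
    _ ≤ 2 * L * (G.cut X \ F).card + (G.cut X ∩ F).card * (2 * L) :=
        Nat.add_le_add h7 (hWc.trans (Nat.mul_le_mul_right _ hCc))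
    _ = 2 * L * (G.cut X).card := by rw [← h6]; ring

end graph

end Pool.Agent.H185C
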