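import Pool.Agent.H185C.Defs

/-!
A connected set containing at least two pairwise far vertices is large.
-/

set_option autoImplicit false

namespace Pool.Agent.H185C
open Finset Pool.Agent.H160R2.HF Pool.Agent.H160R2.HF.OrGraph Pool.Agent.H884R2.HFP

universe u v

set_option linter.unusedSectionVars false

section graph
variable {V : Type u} {E : Type v} [Fintype V] [Fintype E] [DecidableEq V] [DecidableEq E]

/-- balls inside `X` -/
def fcBall (G : OrGraph V E) (X : Finset V) (u : V) : ℕ → Finset V
  | 0 => {u}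
  | i + 1 => fcBall G X u i ∪ X.filter (fun v => ∃ e, (G.t e ∈ fcBall G X u i ∧ G.h e = v) ∨
      (G.h e ∈ fcBall G X u i ∧ G.t e = v))

theorem fcBall_sub (G : OrGraph V E) (X : Finset V) (u : V) (hu : u ∈ X) :
    ∀ i, fcBall G X u i ⊆ X
  | 0 => by simpa [fcBall] using hu
  | i + 1 => by
    unfold fcBall
    exact union_subset (fcBall_sub G X u hu i) (filter_subset _ _)

theorem fcBall_mem (G : OrGraph V E) (X : Finset V) (u : V) : ∀ i, u ∈ fcBall G X u i
  | 0 => by simp [fcBall]
  | i + 1 => by
    unfold fcBall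
    exact mem_union_left _ (fcBall_mem G X u i)

theorem fcBall_near (G : OrGraph V E) (X : Finset V) (u : V) :
    ∀ i v, v ∈ fcBall G X u i → Near G i u v
  | 0, v, h => by
    simp only [fcBall, mem_singleton] at h
    exact h.symm
  | i + 1, v, h => by
    unfold fcBall at h
    rcases mem_union.1 h with h | h
    · exact Or.inl (fcBall_near G X u i v h)
    · obtain ⟨_, e, he⟩ := mem_filter.1 h
      refine Or.inr ⟨e, ?_⟩
      rcases he with he | he
      · exact Or.inl ⟨fcBall_near G X u i _ he.1, he.2⟩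
      · exact Or.inr ⟨fcBall_near G X u i _ he.1, he.2⟩

theorem fcBall_card (G : OrGraph V E) (X : Finset V) (hX : Conn G X) (u : V) (hu : u ∈ X)
    (m : ℕ) (hm : ∀ i < m, fcBall G X u i ≠ X) : m + 1 ≤ (fcBall G X u m).card := by
  induction m with
  | zero => simp [fcBall]
  | succ m ih =>
    have ih' := ih (fun i hi => hm i (by omega))
    have hne := hm m (by omega)
    have hsub := fcBall_sub G X u hu m
    have hd : (X \ fcBall G X u m).Nonempty := by
      rw [sdiff_nonempty]
      intro h
      exact hne (Subset.antisymm hsub h)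
    obtain ⟨e, he, h1, h2⟩ := hX _ hsub ⟨u, fcBall_mem G X u m⟩ hd
    have he' : ¬ (G.t e ∈ fcBall G X u m ↔ G.h e ∈ fcBall G X u m) := by
      unfold OrGraph.cut at he
      exact (mem_filter.1 he).2
    have hss : fcBall G X u m ⊂ fcBall G X u (m + 1) := by
      rw [ssubset_iff_of_subset (by rw [fcBall]; exact subset_union_left)]
      by_cases ht : G.t e ∈ fcBall G X u m
      · have hh : G.h e ∉ fcBall G X u m := fun h => he' ⟨fun _ => h, fun _ => ht⟩
        refine ⟨G.h e, ?_, hh⟩
        rw [fcBall]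
        exact mem_union_right _ (mem_filter.2 ⟨h2, e, Or.inl ⟨ht, rfl⟩⟩)
      · have hh : G.h e ∈ fcBall G X u m := by
          by_contra h
          exact he' ⟨fun h' => absurd h' ht, fun h' => absurd h' h⟩
        refine ⟨G.t e, ?_, ht⟩
        rw [fcBall]
        exact mem_union_right _ (mem_filter.2 ⟨h1, e, Or.inr ⟨hh, rfl⟩⟩)
    have := card_lt_card hss
    omega

theorem fc_near_mono (G : OrGraph V E) (r s : ℕ) (hrs : r ≤ s) (u v : V) (h : Near G r u v) :
    Near G s u v := by
  induction s, hrs using Nat.le_induction with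
  | base => exact h
  | succ s _ ih => exact Or.inl ih

theorem fc_near_trans (G : OrGraph V E) (r s : ℕ) (u v w : V) (h : Near G r u v)
    (h' : Near G s v w) : Near G (r + s) u w := by
  induction s generalizing w with
  | zero =>
    have e : v = w := h'
    rw [← e]
    exact h
  | succ s ih =>
    rcases h' with h' | ⟨e, he | he⟩
    · exact Or.inl (ih w h')
    · exact Or.inr ⟨e, Or.inl ⟨ih _ he.1, he.2⟩⟩
    · exact Or.inr ⟨e, Or.inr ⟨ih _ he.1, he.2⟩⟩

theorem fc_near_symm (G : OrGraph V E) (r : ℕ) (u v : V) (h : Near G r u v) : Near G r v u := by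
  induction r generalizing v with
  | zero => exact Eq.symm h
  | succ r ih =>
    rcases h with h | ⟨e, he | he⟩
    · exact Or.inl (ih v h)
    · have h1 : Near G 1 v (G.t e) := Or.inr ⟨e, Or.inr ⟨he.2.symm, rfl⟩⟩
      have h2 := fc_near_trans G 1 r v (G.t e) u h1 (ih _ he.1)
      rwa [add_comm] at h2
    · have h1 : Near G 1 v (G.h e) := Or.inr ⟨e, Or.inl ⟨he.2.symm, rfl⟩⟩
      have h2 := fc_near_trans G 1 r v (G.h e) u h1 (ih _ he.1)
      rwa [add_comm] at h2

theorem far_card
    (G : OrGraph V E) (X : Finset V) (hX : Conn G X) (U : Finset V) (hU : U ⊆ X)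
    (hfar : ∀ u ∈ U, ∀ v ∈ U, u ≠ v → ¬ Near G 8 u v) (h2 : 2 ≤ U.card) :
    5 * U.card ≤ X.card := by
  have hcard : ∀ u ∈ U, 5 ≤ (fcBall G X u 4).card := by
    intro u hu
    refine fcBall_card G X hX u (hU hu) 4 ?_
    intro i hi heq
    obtain ⟨w, hw, hwu⟩ := exists_mem_ne (show 1 < U.card by omega) u
    have h3 : w ∈ fcBall G X u i := by rw [heq]; exact hU hw
    exact hfar u hu w hw hwu.symm (fc_near_mono G i 8 (by omega) u w (fcBall_near G X u i w h3))
  have hdisj : (U : Set V).PairwiseDisjoint (fun u => fcBall G X u 4) := by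
    intro u hu w hw huw
    change Disjoint (fcBall G X u 4) (fcBall G X w 4)
    rw [disjoint_left]
    intro x hx hx'
    exact hfar u hu w hw huw (fc_near_trans G 4 4 u x w (fcBall_near G X u 4 x hx)
      (fc_near_symm G 4 w x (fcBall_near G X w 4 x hx')))
  calc 5 * U.card = ∑ u ∈ U, 5 := by rw [sum_const, smul_eq_mul, mul_comm]
    _ ≤ ∑ u ∈ U, (fcBall G X u 4).card := sum_le_sum hcard
    _ = (U.biUnion (fun u => fcBall G X u 4)).card := (card_biUnion hdisj).symm
    _ ≤ X.card := card_le_card (biUnion_subset.2 fun u hu => fcBall_sub G X u (hU hu) 4)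

end graph

end Pool.Agent.H185C
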