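import Pool.Agent.H185C.Defs

set_option autoImplicit false

namespace Pool.Agent.H185C
open Finset

universe u v

theorem vec_apply {ι : Type u} {α : Type v} [DecidableEq ι] (a b : α → ι) (e : α) (i : ι) :
    vec a b e i = (if a e = i then 1 else 0) + (if b e = i then 1 else 0) := by
  unfold vec
  rw [Pi.add_apply, Pi.single_apply, Pi.single_apply]
  simp only [eq_comm]

/-- every vector with sum zero is in the span -/
theorem mem_span_vec {ι : Type u} {α : Type v} [Fintype ι] [Fintype α] [DecidableEq ι]
    [DecidableEq α] (a b : α → ι)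
    (hcut : ∀ Y : Finset ι, Y.Nonempty → Yᶜ.Nonempty →
      (univ.filter (fun e => ¬ (a e ∈ Y ↔ b e ∈ Y))).Nonempty)
    (T : ι → ZMod 2) (hT : ∑ i, T i = 0) :
    T ∈ Submodule.span (ZMod 2) (Set.range (vec a b)) := by
  rw [← Subspace.forall_mem_dualAnnihilator_apply_eq_zero_iff]
  intro φ hφ
  rw [Submodule.mem_dualAnnihilator] at hφ
  have hsum : ∀ x : ι → ZMod 2, φ x = ∑ i, x i * φ (Pi.single i 1) := by
    intro x
    conv_lhs => rw [← Finset.univ_sum_single x]
    rw [map_sum]
    refine sum_congr rfl fun i _ => ?_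
    have : (Pi.single i (x i) : ι → ZMod 2) = x i • Pi.single i 1 := by
      rw [← Pi.single_smul, smul_eq_mul, mul_one]
    rw [this, map_smul, smul_eq_mul]
  set c : ι → ZMod 2 := fun i => φ (Pi.single i 1) with hc
  have hce : ∀ e, c (a e) = c (b e) := by
    intro e
    have h1 := hφ _ (Submodule.subset_span ⟨e, rfl⟩)
    unfold vec at h1
    rw [map_add] at h1
    have h2 : c (a e) + c (b e) = 0 := h1
    revert h2
    generalize c (a e) = x
    generalize c (b e) = y
    revert x y
    decide
  set Y : Finset ι := univ.filter (fun i => c i = 1) with hY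
  have hemp : ¬ (univ.filter (fun e => ¬ (a e ∈ Y ↔ b e ∈ Y))).Nonempty := by
    rintro ⟨e, he⟩
    rw [mem_filter] at he
    apply he.2
    simp only [hY, mem_filter, mem_univ, true_and, hce e]
  have hcase : Y = ∅ ∨ Yᶜ = ∅ := by
    by_contra hcon
    push Not at hcon
    exact hemp (hcut Y hcon.1 hcon.2)
  rw [hsum T]
  rcases hcase with h | h
  · have h0 : ∀ i, c i = 0 := by
      intro i
      have h1 : i ∉ Y := by rw [h]; exact notMem_empty i
      simp only [hY, mem_filter, mem_univ, true_and] at h1
      revert h1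
      generalize c i = x
      revert x
      decide
    apply sum_eq_zero
    intro i _
    have : φ (Pi.single i 1) = 0 := h0 i
    rw [this, mul_zero]
  · have h1 : ∀ i, c i = 1 := by
      intro i
      have h2 : i ∈ Y := by
        by_contra hi
        have : i ∈ Yᶜ := mem_compl.2 hi
        rw [h] at this
        exact notMem_empty i this
      simpa [hY] using h2
    calc ∑ i, T i * φ (Pi.single i 1) = ∑ i, T i := by
          refine sum_congr rfl fun i _ => ?_
          have : φ (Pi.single i 1) = 1 := h1 i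
          rw [this, mul_one]
      _ = 0 := hT

/-! ### T23: joins inside a base -/

theorem exists_join {ι : Type u} {α : Type v} [Fintype ι] [Fintype α] [DecidableEq ι]
    [DecidableEq α] (a b : α → ι)
    (hcut : ∀ Y : Finset ι, Y.Nonempty → Yᶜ.Nonempty →
      (univ.filter (fun e => ¬ (a e ∈ Y ↔ b e ∈ Y))).Nonempty)
    (B : Finset α) (hB : IsBase (vec a b) B) (T : ι → ZMod 2) (hT : ∑ i, T i = 0) :
    ∃ R ⊆ B, ∀ i, (((R.filter (fun e => a e = i)).card + (R.filter (fun e => b e = i)).card : ℕ) :
      ZMod 2) = T i := by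
  have h1 : T ∈ Submodule.span (ZMod 2) ((vec a b) '' (B : Set α)) := by
    have h2 := mem_span_vec a b hcut T hT
    have h3 : Submodule.span (ZMod 2) (Set.range (vec a b)) ≤
        Submodule.span (ZMod 2) ((vec a b) '' (B : Set α)) := by
      rw [Submodule.span_le]
      rintro _ ⟨e, rfl⟩
      exact hB.2 e
    exact h3 h2
  rw [Submodule.mem_span_image_finset_iff_exists_fun] at h1
  obtain ⟨c₀, hc₀⟩ := h1
  obtain ⟨c, hc⟩ : ∃ c : α → ZMod 2, ∑ e ∈ B, c e • vec a b e = T := by
    refine ⟨fun e => if h : e ∈ B then c₀ ⟨e, h⟩ else 0, ?_⟩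
    rw [← hc₀, ← sum_coe_sort]
    refine sum_congr rfl fun e _ => ?_
    show (if h : (e : α) ∈ B then c₀ ⟨e, h⟩ else 0) • vec a b e = _
    rw [dif_pos e.2]
  refine ⟨B.filter (fun e => c e = 1), filter_subset _ _, fun i => ?_⟩
  rw [← hc]
  push_cast
  rw [Finset.sum_apply, Finset.card_filter, Finset.card_filter]
  push_cast
  rw [← Finset.sum_add_distrib, sum_filter]
  refine sum_congr rfl fun e _ => ?_
  rw [Pi.smul_apply, vec_apply]
  generalize c e = x
  revert x
  split_ifs <;> decide

end Pool.Agent.H185C
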