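import Pool.Agent.H185C.Defs

/-!
T16: Karger's contraction bound.
-/

set_option autoImplicit false

namespace Pool.Agent.H185C
open Finset Pool.Agent.H160R2.HF Pool.Agent.H160R2.HF.OrGraph Pool.Agent.H884R2.HFP

universe u v

section graph
variable {V : Type u} {E : Type v} [Fintype V] [Fintype E] [DecidableEq V] [DecidableEq E]

/-- the edges joining different classes -/
def EP (G : OrGraph V E) (p : V → V) : Finset E := univ.filter (fun e => p (G.t e) ≠ p (G.h e))

theorem cut_sub_EP (G : OrGraph V E) (p : V → V) {X : Finset V} (hX : Closed p X) :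
    G.cut X ⊆ EP G p := by
  intro e he
  simp only [cut, EP, Finset.mem_filter, Finset.mem_univ, true_and] at he ⊢
  intro h
  exact he (hX _ _ h)

theorem closed_merge (G : OrGraph V E) (p : V → V) (e : E) {X : Finset V}
    (hX : Closed (merge G p e) X) : Closed p X := by
  intro u v h
  apply hX
  simp only [merge, h]

theorem merge_closed (G : OrGraph V E) (p : V → V) (e : E) {X : Finset V} (hX : Closed p X)
    (he : e ∉ G.cut X) : Closed (merge G p e) X := by
  have h0 : G.t e ∈ X ↔ G.h e ∈ X := by
    by_contra h
    exact he (by simp [cut, h])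
  intro u v h
  simp only [merge] at h
  by_cases h1 : p u = p (G.t e)
  · by_cases h2 : p v = p (G.t e)
    · exact hX _ _ (h1.trans h2.symm)
    · rw [if_pos h1, if_neg h2] at h
      rw [hX _ _ h1, h0, hX _ _ h]
  · by_cases h2 : p v = p (G.t e)
    · rw [if_neg h1, if_pos h2] at h
      rw [hX _ _ h2, h0, hX _ _ h]
    · rw [if_neg h1, if_neg h2] at h
      exact hX _ _ h

theorem card_merge (G : OrGraph V E) (p : V → V) {e : E} (he : e ∈ EP G p) :
    (univ.image (merge G p e)).card + 1 ≤ (univ.image p).card := by
  simp only [EP, Finset.mem_filter, Finset.mem_univ, true_and] at he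
  have h1 : univ.image (merge G p e) ⊆ (univ.image p).erase (p (G.t e)) := by
    intro c hc
    obtain ⟨x, -, rfl⟩ := Finset.mem_image.1 hc
    rw [Finset.mem_erase]
    simp only [merge]
    by_cases h : p x = p (G.t e)
    · rw [if_pos h]
      exact ⟨fun h' => he h'.symm, Finset.mem_image_of_mem _ (Finset.mem_univ _)⟩
    · rw [if_neg h]
      exact ⟨h, Finset.mem_image_of_mem _ (Finset.mem_univ _)⟩
  have h2 := Finset.card_le_card h1
  rw [Finset.card_erase_of_mem (Finset.mem_image_of_mem _ (Finset.mem_univ _))] at h2
  have h3 : 0 < (univ.image p).card :=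
    Finset.card_pos.2 ⟨_, Finset.mem_image_of_mem p (Finset.mem_univ (G.t e))⟩
  omega

theorem card_merge' (G : OrGraph V E) (p : V → V) (e : E) :
    (univ.image p).card ≤ (univ.image (merge G p e)).card + 1 := by
  have h1 : univ.image p ⊆ insert (p (G.t e)) (univ.image (merge G p e)) := by
    intro c hc
    obtain ⟨x, -, rfl⟩ := Finset.mem_image.1 hc
    rw [Finset.mem_insert]
    by_cases h : p x = p (G.t e)
    · exact Or.inl h
    · right
      refine Finset.mem_image.2 ⟨x, Finset.mem_univ _, ?_⟩
      simp only [merge]
      rw [if_neg h]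
  exact (Finset.card_le_card h1).trans (Finset.card_insert_le _ _)

theorem degree_sum (G : OrGraph V E) (p : V → V) :
    ∑ c ∈ univ.image p, (G.cut (univ.filter (fun v => p v = c))).card = 2 * (EP G p).card := by
  have h1 : ∀ c ∈ univ.image p, (G.cut (univ.filter (fun v => p v = c))).card
      = ((EP G p).filter (fun e => p (G.t e) = c)).card
        + ((EP G p).filter (fun e => p (G.h e) = c)).card := by
    intro c _
    rw [← Finset.card_union_of_disjoint]
    · congr 1
      ext e
      simp only [cut, EP, Finset.mem_filter, Finset.mem_univ, true_and, Finset.mem_union]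
      by_cases h1 : p (G.t e) = c
      · by_cases h2 : p (G.h e) = c
        · simp [h1, h2]
        · have h3 : ¬ c = p (G.h e) := fun h => h2 h.symm
          simp [h1, h2, h3]
      · by_cases h2 : p (G.h e) = c
        · simp [h1, h2]
        · simp [h1, h2]
    · rw [Finset.disjoint_left]
      intro e h2 h3
      simp only [EP, Finset.mem_filter, Finset.mem_univ, true_and] at h2 h3
      exact h2.1 (h2.2.trans h3.2.symm)
  rw [Finset.sum_congr rfl h1, Finset.sum_add_distrib]
  have h2 : ∑ c ∈ univ.image p, ((EP G p).filter (fun e => p (G.t e) = c)).card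
      = (EP G p).card :=
    (Finset.card_eq_sum_card_fiberwise (f := fun e => p (G.t e)) (t := univ.image p)
      (fun e _ => Finset.mem_coe.2 (Finset.mem_image_of_mem p (Finset.mem_univ _)))).symm
  have h3 : ∑ c ∈ univ.image p, ((EP G p).filter (fun e => p (G.h e) = c)).card
      = (EP G p).card :=
    (Finset.card_eq_sum_card_fiberwise (f := fun e => p (G.h e)) (t := univ.image p)
      (fun e _ => Finset.mem_coe.2 (Finset.mem_image_of_mem p (Finset.mem_univ _)))).symm
  rw [h2, h3]
  ring

theorem class_closed (p : V → V) (c : V) : Closed p (univ.filter (fun v => p v = c)) := by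
  intro u v h
  simp [h]

theorem small_case (p : V → V) (A : Finset (Finset V)) (hA : ∀ X ∈ A, Closed p X) :
    A.card ≤ 2 ^ (univ.image p).card := by
  rw [← Finset.card_powerset]
  refine Finset.card_le_card_of_injOn (fun X => X.image p) ?_ ?_
  · intro X _
    simp only [Finset.coe_powerset, Set.mem_preimage, Set.mem_powerset_iff, Finset.coe_subset]
    exact Finset.image_subset_image (Finset.subset_univ _)
  · intro X hX Y hY h
    simp only at h
    have key : ∀ X Y : Finset V, Closed p X → Closed p Y → X.image p = Y.image p → X ⊆ Y := by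
      intro X Y _ hY h x hx
      have h1 : p x ∈ Y.image p := h ▸ Finset.mem_image_of_mem p hx
      obtain ⟨y, hy, hxy⟩ := Finset.mem_image.1 h1
      exact (hY _ _ hxy).1 hy
    exact Finset.Subset.antisymm (key X Y (hA X hX) (hA Y hY) h)
      (key Y X (hA Y hY) (hA X hX) h.symm)

theorem karger_aux (G : OrGraph V E) (lam a d : ℕ) (hl : 1 ≤ lam) (hd : 2 * d ≤ a * lam)
    (ha : 1 ≤ a) : ∀ (n : ℕ) (p : V → V), (univ.image p).card = n →
    (∀ X : Finset V, Closed p X → X.Nonempty → Xᶜ.Nonempty → lam ≤ (G.cut X).card) →
    ∀ (A : Finset (Finset V)), (∀ X ∈ A, Closed p X ∧ (G.cut X).card = d) →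
      A.card ≤ 2 ^ a * (max n a).choose a := by
  intro n
  induction n with
  | zero =>
    intro p hp _ A hA
    have h1 := small_case p A (fun X hX => (hA X hX).1)
    rw [hp] at h1
    rw [max_eq_right (Nat.zero_le a), Nat.choose_self]
    calc A.card ≤ 2 ^ 0 := h1
      _ ≤ 2 ^ a := Nat.pow_le_pow_right (by norm_num) (Nat.zero_le _)
      _ = _ := by ring
  | succ n ih =>
    intro p hp h A hA
    rcases Nat.lt_or_ge a (n + 1) with hna | hna
    · -- large case
      rw [max_eq_left hna.le]
      set M := (EP G p).card with hM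
      have hN2 : 2 ≤ (univ.image p).card := by omega
      have hcl : ∀ c ∈ univ.image p, lam ≤ (G.cut (univ.filter (fun v => p v = c))).card := by
        intro c hc
        refine h _ (class_closed p c) ?_ ?_
        · obtain ⟨x, -, hx⟩ := Finset.mem_image.1 hc
          exact ⟨x, by simp [hx]⟩
        · obtain ⟨c', hc', hne⟩ := Finset.exists_mem_ne (s := univ.image p) (by omega) c
          obtain ⟨x, -, hx⟩ := Finset.mem_image.1 hc'
          refine ⟨x, ?_⟩
          simp only [Finset.mem_compl, Finset.mem_filter, Finset.mem_univ, true_and]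
          rw [hx]; exact hne
      have hNM : (n + 1) * lam ≤ 2 * M := by
        rw [hM, ← degree_sum, ← hp, ← smul_eq_mul]
        exact Finset.card_nsmul_le_sum _ _ _ hcl
      have hMpos : 0 < M := by
        have : 0 < (n + 1) * lam := Nat.mul_pos (Nat.succ_pos _) hl
        omega
      have hdN : d * (n + 1) ≤ a * M := by
        have h1 : 2 * d * (n + 1) ≤ a * lam * (n + 1) := Nat.mul_le_mul_right _ hd
        have h2 : a * ((n + 1) * lam) ≤ a * (2 * M) := Nat.mul_le_mul_left _ hNM
        nlinarith
      have hdM : d ≤ M := by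
        by_contra hcon
        push Not at hcon
        have h1 : M * (n + 1) < d * (n + 1) := Nat.mul_lt_mul_of_pos_right hcon (Nat.succ_pos _)
        have h2 : a * M ≤ (n + 1) * M := Nat.mul_le_mul_right _ hna.le
        nlinarith
      -- induction hypothesis for every edge
      have hIH : ∀ e ∈ EP G p, (A.filter (fun X => e ∉ G.cut X)).card ≤ 2 ^ a * n.choose a := by
        intro e he
        have hc1 := card_merge G p he
        have hc2 := card_merge' G p e
        have h1 := ih (merge G p e) (by omega)
          (fun X hX h1 h2 => h X (closed_merge G p e hX) h1 h2)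
          (A.filter (fun X => e ∉ G.cut X)) (by
            intro X hX
            rw [Finset.mem_filter] at hX
            exact ⟨merge_closed G p e (hA X hX.1).1 hX.2, (hA X hX.1).2⟩)
        rwa [max_eq_left (by omega)] at h1
      -- double counting
      have hdc : A.card * (M - d) = ∑ e ∈ EP G p, (A.filter (fun X => e ∉ G.cut X)).card := by
        have h1 : ∑ e ∈ EP G p, (A.filter (fun X => e ∉ G.cut X)).card
            = ∑ X ∈ A, ((EP G p).filter (fun e => e ∉ G.cut X)).card := by
          simp only [Finset.card_filter]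
          exact Finset.sum_comm
        rw [h1]
        have h2 : ∀ X ∈ A, ((EP G p).filter (fun e => e ∉ G.cut X)).card = M - d := by
          intro X hX
          have h3 : (EP G p).filter (fun e => e ∉ G.cut X) = EP G p \ G.cut X := by
            ext e; simp
          rw [h3, Finset.card_sdiff_of_subset (cut_sub_EP G p (hA X hX).1), (hA X hX).2]
        rw [Finset.sum_congr rfl h2, Finset.sum_const, smul_eq_mul]
      have hle : A.card * (M - d) ≤ M * (2 ^ a * n.choose a) := by
        rw [hdc]
        calc ∑ e ∈ EP G p, (A.filter (fun X => e ∉ G.cut X)).card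
            ≤ ∑ _e ∈ EP G p, 2 ^ a * n.choose a := Finset.sum_le_sum hIH
          _ = M * (2 ^ a * n.choose a) := by rw [Finset.sum_const, smul_eq_mul]
      have hMN : M * (n + 1 - a) ≤ (M - d) * (n + 1) := by
        rw [Nat.mul_sub, Nat.sub_mul]
        have : M * a = a * M := Nat.mul_comm _ _
        omega
      have hch : n.choose a * (n + 1) = (n + 1).choose a * (n + 1 - a) :=
        Nat.choose_mul_succ_eq n a
      have hfin : M * (n + 1 - a) * A.card ≤ M * (n + 1 - a) * (2 ^ a * (n + 1).choose a) := by
        calc M * (n + 1 - a) * A.card ≤ (M - d) * (n + 1) * A.card := Nat.mul_le_mul_right _ hMN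
          _ = (A.card * (M - d)) * (n + 1) := by ring
          _ ≤ (M * (2 ^ a * n.choose a)) * (n + 1) := Nat.mul_le_mul_right _ hle
          _ = M * (2 ^ a * (n.choose a * (n + 1))) := by ring
          _ = M * (2 ^ a * ((n + 1).choose a * (n + 1 - a))) := by rw [hch]
          _ = _ := by ring
      exact Nat.le_of_mul_le_mul_left hfin (Nat.mul_pos hMpos (by omega))
    · have h1 := small_case p A (fun X hX => (hA X hX).1)
      rw [hp] at h1
      rw [max_eq_right hna, Nat.choose_self]
      calc A.card ≤ 2 ^ (n + 1) := h1
        _ ≤ 2 ^ a := Nat.pow_le_pow_right (by norm_num) hna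
        _ = _ := by ring

theorem karger (G : OrGraph V E) (lam a d : ℕ) (hl : 1 ≤ lam) (hd : 2 * d ≤ a * lam) (ha : 1 ≤ a)
    (p : V → V)
    (h : ∀ X : Finset V, Closed p X → X.Nonempty → Xᶜ.Nonempty → lam ≤ (G.cut X).card)
    (A : Finset (Finset V)) (hA : ∀ X ∈ A, Closed p X ∧ (G.cut X).card = d)
    (hV : 0 < Fintype.card V) : A.card ≤ 2 ^ a * Fintype.card V ^ a := by
  refine (karger_aux G lam a d hl hd ha _ p rfl h A hA).trans (Nat.mul_le_mul_left _ ?_)
  have hcard : (univ.image p).card ≤ Fintype.card V := Finset.card_le_univ _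
  rcases le_total (univ.image p).card a with h1 | h1
  · rw [max_eq_right h1, Nat.choose_self]
    exact Nat.one_le_pow _ _ hV
  · rw [max_eq_left h1]
    exact (Nat.choose_le_pow _ _).trans (Nat.pow_le_pow_left hcard _)

end graph

end Pool.Agent.H185C
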