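import Pool.Agent.H185C.Defs

/-!
T14b: merging two adjacent connected classes gives connected classes.
-/

set_option autoImplicit false

namespace Pool.Agent.H185C
open Finset Pool.Agent.H160R2.HF Pool.Agent.H160R2.HF.OrGraph Pool.Agent.H884R2.HFP

universe u v

variable {V : Type u} {E : Type v} [Fintype V] [Fintype E] [DecidableEq V] [DecidableEq E]

private theorem mc_union (G : OrGraph V E) (A B : Finset V) (hA : Conn G A) (hB : Conn G B)
    (e : E) (hta : G.t e ∈ A) (hhb : G.h e ∈ B) : Conn G (A ∪ B) := by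
  intro Y hY hne hne'
  by_cases h1 : (Y ∩ A).Nonempty ∧ (A \ (Y ∩ A)).Nonempty
  · obtain ⟨f, hf, ht, hh⟩ := hA (Y ∩ A) inter_subset_right h1.1 h1.2
    refine ⟨f, ?_, mem_union_left _ ht, mem_union_left _ hh⟩
    simp only [OrGraph.cut, mem_filter, mem_univ, true_and, mem_inter] at hf ⊢
    tauto
  by_cases h2 : (Y ∩ B).Nonempty ∧ (B \ (Y ∩ B)).Nonempty
  · obtain ⟨f, hf, ht, hh⟩ := hB (Y ∩ B) inter_subset_right h2.1 h2.2
    refine ⟨f, ?_, mem_union_right _ ht, mem_union_right _ hh⟩
    simp only [OrGraph.cut, mem_filter, mem_univ, true_and, mem_inter] at hf ⊢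
    tauto
  refine ⟨e, ?_, mem_union_left _ hta, mem_union_right _ hhb⟩
  simp only [OrGraph.cut, mem_filter, mem_univ, true_and]
  intro h3
  have hAY : ∀ a ∈ A, ∀ a' ∈ A, a ∈ Y → a' ∈ Y := by
    intro a ha a' ha' hy
    by_contra hn
    exact h1 ⟨⟨a, mem_inter.mpr ⟨hy, ha⟩⟩, ⟨a', mem_sdiff.mpr ⟨ha', fun h => hn (mem_inter.mp h).1⟩⟩⟩
  have hBY : ∀ a ∈ B, ∀ a' ∈ B, a ∈ Y → a' ∈ Y := by
    intro a ha a' ha' hy
    by_contra hn
    exact h2 ⟨⟨a, mem_inter.mpr ⟨hy, ha⟩⟩, ⟨a', mem_sdiff.mpr ⟨ha', fun h => hn (mem_inter.mp h).1⟩⟩⟩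
  obtain ⟨y, hy⟩ := hne
  obtain ⟨z, hz⟩ := hne'
  rw [mem_sdiff] at hz
  by_cases hty : G.t e ∈ Y
  · have hhy : G.h e ∈ Y := h3.mp hty
    apply hz.2
    rcases mem_union.mp hz.1 with h | h
    · exact hAY _ hta _ h hty
    · exact hBY _ hhb _ h hhy
  · have hhy : G.h e ∉ Y := fun h => hty (h3.mpr h)
    rcases mem_union.mp (hY hy) with h | h
    · exact hty (hAY _ h _ hta hy)
    · exact hhy (hBY _ h _ hhb hy)

theorem merge_conn (G : OrGraph V E) (p : V → V) (hp : ∀ v, Conn G (blob p v)) (e : E)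
    (he : p (G.t e) ≠ p (G.h e)) (v : V) : Conn G (blob (merge G p e) v) := by
  by_cases h : p v = p (G.t e) ∨ p v = p (G.h e)
  · have h1 : blob (merge G p e) v = blob p (G.t e) ∪ blob p (G.h e) := by
      have hv : merge G p e v = p (G.h e) := by
        unfold merge
        rcases h with h | h
        · rw [if_pos h]
        · rw [if_neg (by rw [h]; exact he.symm), h]
      ext x
      simp only [blob, mem_filter, mem_univ, true_and, mem_union]
      rw [hv]
      unfold merge
      by_cases hx : p x = p (G.t e)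
      · simp [hx]
      · simp [hx]
    rw [h1]
    apply mc_union G _ _ (hp _) (hp _) e
    · simp [blob]
    · simp [blob]
  · have h1 : blob (merge G p e) v = blob p v := by
      push Not at h
      have hv : merge G p e v = p v := by
        unfold merge
        rw [if_neg h.1]
      ext x
      simp only [blob, mem_filter, mem_univ, true_and]
      rw [hv]
      unfold merge
      by_cases hx : p x = p (G.t e)
      · rw [if_pos hx, hx]
        constructor
        · intro h2; exact absurd h2.symm h.2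
        · intro h2; exact absurd h2.symm h.1
      · rw [if_neg hx]
    rw [h1]
    exact hp v

end Pool.Agent.H185C
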