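import Pool.Agent.H185C.Defs

/-! Task T6: the relation `Near`. -/

set_option autoImplicit false

namespace Pool.Agent.H185C
open Finset Pool.Agent.H160R2.HF Pool.Agent.H160R2.HF.OrGraph Pool.Agent.H884R2.HFP

universe u v w

section graph
variable {V : Type u} {E : Type v} [Fintype V] [Fintype E] [DecidableEq V] [DecidableEq E]

theorem near_trans (G : OrGraph V E) (r s : ℕ) (u v w : V) (h : Near G r u v)
    (h' : Near G s v w) : Near G (r + s) u w := by
  induction s generalizing w with
  | zero =>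
    have h1 : v = w := h'
    rw [← h1]
    exact h
  | succ s ih =>
    rcases h' with h' | ⟨e, ⟨h1, h2⟩ | ⟨h1, h2⟩⟩
    · exact Or.inl (ih w h')
    · exact Or.inr ⟨e, Or.inl ⟨ih _ h1, h2⟩⟩
    · exact Or.inr ⟨e, Or.inr ⟨ih _ h1, h2⟩⟩

theorem near_symm (G : OrGraph V E) (r : ℕ) (u v : V) (h : Near G r u v) : Near G r v u := by
  induction r generalizing v with
  | zero =>
    have h1 : u = v := h
    exact h1.symm
  | succ r ih =>
    rcases h with h | ⟨e, ⟨h1, h2⟩ | ⟨h1, h2⟩⟩
    · exact Or.inl (ih v h)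
    · have h3 : Near G 1 v (G.t e) := Or.inr ⟨e, Or.inr ⟨h2.symm, rfl⟩⟩
      have h4 := near_trans G 1 r v (G.t e) u h3 (ih _ h1)
      rwa [Nat.add_comm] at h4
    · have h3 : Near G 1 v (G.h e) := Or.inr ⟨e, Or.inl ⟨h2.symm, rfl⟩⟩
      have h4 := near_trans G 1 r v (G.h e) u h3 (ih _ h1)
      rwa [Nat.add_comm] at h4

theorem near_mono (G : OrGraph V E) (r s : ℕ) (hrs : r ≤ s) (u v : V) (h : Near G r u v) :
    Near G s u v := by
  obtain ⟨k, rfl⟩ := Nat.exists_eq_add_of_le hrs
  clear hrs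
  induction k with
  | zero => exact h
  | succ k ih => exact Or.inl ih

theorem near_card (G : OrGraph V E) (hc : G.Cubic) (r : ℕ) (u : V) (A : Finset V)
    (hA : ∀ v ∈ A, Near G r u v) : A.card ≤ 4 ^ r := by
  classical
  induction r generalizing A with
  | zero =>
    rw [pow_zero, card_le_one]
    intro a ha b hb
    have h1 : u = a := hA a ha
    have h2 : u = b := hA b hb
    rw [← h1, ← h2]
  | succ r ih =>
    set N : Finset V := univ.filter (fun v => Near G r u v) with hN
    have hNcard : N.card ≤ 4 ^ r := ih N (fun v hv => (mem_filter.1 hv).2)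
    set nb : V → Finset V := fun w => (univ.filter (fun e => G.t e = w)).image G.h ∪
      (univ.filter (fun e => G.h e = w)).image G.t with hnb
    have hnb3 : ∀ w ∈ N, (nb w).card ≤ 3 := by
      intro w _
      refine (card_union_le _ _).trans ?_
      have h1 := hc w
      unfold deg at h1
      rw [← h1]
      exact Nat.add_le_add card_image_le card_image_le
    have hsub : A ⊆ N ∪ N.biUnion nb := by
      intro v hv
      rw [mem_union, mem_biUnion]
      rcases hA v hv with h | ⟨e, ⟨h1, h2⟩ | ⟨h1, h2⟩⟩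
      · exact Or.inl (mem_filter.2 ⟨mem_univ _, h⟩)
      · refine Or.inr ⟨G.t e, mem_filter.2 ⟨mem_univ _, h1⟩, ?_⟩
        rw [hnb, mem_union, mem_image]
        exact Or.inl ⟨e, mem_filter.2 ⟨mem_univ _, rfl⟩, h2⟩
      · refine Or.inr ⟨G.h e, mem_filter.2 ⟨mem_univ _, h1⟩, ?_⟩
        rw [hnb, mem_union, mem_image, mem_image]
        exact Or.inr ⟨e, mem_filter.2 ⟨mem_univ _, rfl⟩, h2⟩
    have h1 := card_biUnion_le_card_mul N nb 3 hnb3
    calc A.card ≤ (N ∪ N.biUnion nb).card := card_le_card hsub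
      _ ≤ N.card + (N.biUnion nb).card := card_union_le _ _
      _ ≤ N.card + N.card * 3 := Nat.add_le_add_left h1 _
      _ = N.card * 4 := by ring
      _ ≤ 4 ^ r * 4 := Nat.mul_le_mul_right 4 hNcard
      _ = 4 ^ (r + 1) := (pow_succ _ _).symm

end graph

end Pool.Agent.H185C
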