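import Pool.Agent.H185C.Defs

/-!
The odd vertices of a multigraph can be paired such that every cut separates at most as many
pairs as it has edges.  Task T12.
-/

set_option autoImplicit false

namespace Pool.Agent.H185C
open Finset

universe u v

namespace Pairing

variable {ι : Type u} [DecidableEq ι]

/-- `N` is a fixed point free involution on `O` -/
def Inv (O : Finset ι) (N : ι → ι) : Prop := ∀ i ∈ O, N i ∈ O ∧ N (N i) = i ∧ N i ≠ i

/-- number of separated pairs -/
def sp (O : Finset ι) (N : ι → ι) (Y : Finset ι) : ℕ :=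
  (O.filter (fun i => i ∈ Y ∧ N i ∉ Y)).card

/-- indicator -/
def one (p : Prop) [Decidable p] : ℕ := if p then 1 else 0

theorem sp_insert_insert (O : Finset ι) (N : ι → ι) (x y : ι) (hxy : x ≠ y) (hx : x ∉ O)
    (hy : y ∉ O) (Nx : N x = y) (Ny : N y = x) (Y : Finset ι) :
    sp (insert x (insert y O)) N Y = sp O N Y + (if (x ∈ Y ↔ y ∈ Y) then 0 else 1) := by
  unfold sp
  rw [Finset.card_filter, Finset.card_filter, Finset.sum_insert (by simp [hxy, hx]),
    Finset.sum_insert hy, Nx, Ny]
  by_cases h1 : x ∈ Y <;> by_cases h2 : y ∈ Y <;> simp [h1, h2, add_comm]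

/-- add a pair -/
theorem add_pair (O : Finset ι) (N : ι → ι) (hN : Inv O N) (x y : ι) (hxy : x ≠ y) (hx : x ∉ O)
    (hy : y ∉ O) : ∃ N' : ι → ι, Inv (insert x (insert y O)) N' ∧
      ∀ Y, sp (insert x (insert y O)) N' Y = sp O N Y + (if (x ∈ Y ↔ y ∈ Y) then 0 else 1) := by
  have hNne : ∀ i ∈ O, N i ≠ x ∧ N i ≠ y ∧ i ≠ x ∧ i ≠ y := by
    intro i hi
    refine ⟨?_, ?_, ?_, ?_⟩
    · intro h; exact hx (h ▸ (hN i hi).1)
    · intro h; exact hy (h ▸ (hN i hi).1)
    · intro h; exact hx (h ▸ hi)
    · intro h; exact hy (h ▸ hi)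
  refine ⟨fun i => if i = x then y else if i = y then x else N i, ?_, ?_⟩
  · intro i hi
    simp only [Finset.mem_insert] at hi
    rcases hi with rfl | rfl | hi
    · simp [hxy.symm]
    · simp [hxy, hxy.symm]
    · obtain ⟨h1, h2, h3, h4⟩ := hNne i hi
      obtain ⟨g1, g2, g3⟩ := hN i hi
      simp [h1, h2, h3, h4, g1, g2, g3]
  · intro Y
    rw [sp_insert_insert O _ x y hxy hx hy (by simp) (by simp [hxy.symm]) Y]
    congr 1
    unfold sp
    congr 1
    apply Finset.filter_congr
    intro i hi
    obtain ⟨h1, h2, h3, h4⟩ := hNne i hi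
    simp [h3, h4]

/-- delete a pair -/
theorem del_pair (O : Finset ι) (N : ι → ι) (hN : Inv O N) (x : ι) (hx : x ∈ O) :
    Inv (O \ {x, N x}) N ∧ x ∉ O \ {x, N x} ∧ N x ∉ O \ {x, N x} ∧
      O = insert x (insert (N x) (O \ {x, N x})) ∧
      ∀ Y, sp O N Y = sp (O \ {x, N x}) N Y + (if (x ∈ Y ↔ N x ∈ Y) then 0 else 1) := by
  obtain ⟨g1, g2, g3⟩ := hN x hx
  have hx' : x ∉ O \ {x, N x} := by simp
  have hy' : N x ∉ O \ {x, N x} := by simp
  have hO : O = insert x (insert (N x) (O \ {x, N x})) := by
    ext i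
    simp only [Finset.mem_insert, Finset.mem_sdiff, Finset.mem_singleton]
    constructor
    · intro hi; by_cases h1 : i = x
      · exact Or.inl h1
      · by_cases h2 : i = N x
        · exact Or.inr (Or.inl h2)
        · exact Or.inr (Or.inr ⟨hi, by tauto⟩)
    · rintro (rfl | rfl | ⟨h, -⟩)
      · exact hx
      · exact g1
      · exact h
  refine ⟨?_, hx', hy', hO, ?_⟩
  · intro i hi
    simp only [Finset.mem_sdiff, Finset.mem_insert, Finset.mem_singleton, not_or] at hi ⊢
    obtain ⟨hi, h1, h2⟩ := hi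
    obtain ⟨k1, k2, k3⟩ := hN i hi
    refine ⟨⟨k1, ?_, ?_⟩, k2, k3⟩
    · intro h; apply h2; rw [← k2, h]
    · intro h; apply h1; rw [← k2, h, g2]
  · intro Y
    conv_lhs => rw [hO]
    exact sp_insert_insert _ N x (N x) g3.symm hx' hy' rfl g2 Y

theorem tri (a b c : Prop) [Decidable a] [Decidable b] [Decidable c] :
    (if (a ↔ c) then 0 else 1 : ℕ) ≤ (if (a ↔ b) then 0 else 1) + (if (b ↔ c) then 0 else 1) := by
  by_cases ha : a <;> by_cases hb : b <;> by_cases hc : c <;> simp [ha, hb, hc]

theorem ite_comm (a b : Prop) [Decidable a] [Decidable b] :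
    (if (a ↔ b) then 0 else 1 : ℕ) = (if (b ↔ a) then 0 else 1) := by
  by_cases ha : a <;> by_cases hb : b <;> simp [ha, hb]

/-- one of the two ends is odd -/
theorem step_one (O : Finset ι) (N : ι → ι) (hN : Inv O N) (x y : ι) (hx : x ∈ O) (hy : y ∉ O) :
    ∃ (O' : Finset ι) (N' : ι → ι), (∀ i, i ∈ O' ↔ (i ∈ O ↔ ¬ (i = x ∨ i = y))) ∧ Inv O' N' ∧
      ∀ Y, sp O' N' Y ≤ sp O N Y + (if (x ∈ Y ↔ y ∈ Y) then 0 else 1) := by
  obtain ⟨hI, hx', hy', hO, hs⟩ := del_pair O N hN x hx
  have hy2 : y ∉ O \ {x, N x} := by simp [hy]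
  have hyx : y ≠ N x := by rintro rfl; exact hy (hN x hx).1
  have hxy : x ≠ y := by rintro rfl; exact hy hx
  obtain ⟨N', hI', hs'⟩ := add_pair _ N hI y (N x) hyx hy2 hy'
  refine ⟨_, N', ?_, hI', ?_⟩
  · intro i
    have g1 := (hN x hx).1
    simp only [Finset.mem_insert, Finset.mem_sdiff, Finset.mem_singleton]
    by_cases h1 : i = y
    · subst h1; simp [hy]
    · by_cases h2 : i = x
      · subst h2; have := (hN i hx).2.2.symm; simp [h1, this, hx]
      · by_cases h3 : i = N x
        · subst h3; simp [h1, h2, g1]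
        · simp [h1, h2, h3]
  · intro Y
    rw [hs' Y, hs Y]
    have := tri (y ∈ Y) (x ∈ Y) (N x ∈ Y)
    have h2 := ite_comm (y ∈ Y) (x ∈ Y)
    omega

/-- adding an edge between distinct vertices -/
theorem step (O : Finset ι) (N : ι → ι) (hN : Inv O N) (x y : ι) (hxy : x ≠ y) :
    ∃ (O' : Finset ι) (N' : ι → ι), (∀ i, i ∈ O' ↔ (i ∈ O ↔ ¬ (i = x ∨ i = y))) ∧ Inv O' N' ∧
      ∀ Y, sp O' N' Y ≤ sp O N Y + (if (x ∈ Y ↔ y ∈ Y) then 0 else 1) := by
  by_cases hx : x ∈ O
  · by_cases hy : y ∈ O
    · obtain ⟨hI, hx', hy', hO, hs⟩ := del_pair O N hN x hx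
      by_cases hxy' : N x = y
      · subst hxy'
        refine ⟨_, N, ?_, hI, ?_⟩
        · intro i
          simp only [Finset.mem_sdiff, Finset.mem_insert, Finset.mem_singleton]
          by_cases h1 : i = x
          · subst h1; simp [hx]
          · by_cases h2 : i = N x
            · subst h2; simp [hy]
            · simp [h1, h2]
        · intro Y
          rw [hs Y]; omega
      · have hy1 : y ∈ O \ {x, N x} := by
          simp only [Finset.mem_sdiff, Finset.mem_insert, Finset.mem_singleton, not_or]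
          exact ⟨hy, hxy.symm, fun h => hxy' h.symm⟩
        obtain ⟨hI2, hx2, hy2, hO2, hs2⟩ := del_pair _ N hI y hy1
        obtain ⟨g1, g2, g3⟩ := hN x hx
        obtain ⟨k1, k2, k3⟩ := hN y hy
        have hne : N x ≠ N y := by
          intro h; apply hxy; rw [← g2, h, k2]
        have hnx : N x ∉ (O \ {x, N x}) \ {y, N y} := by simp
        obtain ⟨N', hI', hs'⟩ := add_pair _ N hI2 (N x) (N y) hne hnx hy2
        refine ⟨_, N', ?_, hI', ?_⟩
        · intro i
          simp only [Finset.mem_insert, Finset.mem_sdiff, Finset.mem_singleton]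
          by_cases h1 : i = N x
          · subst h1; simp [g1, g3, hxy']
          · by_cases h2 : i = N y
            · subst h2
              have : N y ≠ x := by
                intro h; apply hxy'; rw [← h, k2]
              simp [k1, k3, this]
            · by_cases h3 : i = x
              · subst h3; simp [h1, h2, hx]
              · by_cases h4 : i = y
                · subst h4; simp [h1, h2, hy]
                · simp [h1, h2, h3, h4]
        · intro Y
          rw [hs' Y, hs Y, hs2 Y]
          have t1 := tri (N x ∈ Y) (x ∈ Y) (N y ∈ Y)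
          have t2 := tri (x ∈ Y) (y ∈ Y) (N y ∈ Y)
          have t3 := ite_comm (N x ∈ Y) (x ∈ Y)
          omega
    · exact step_one O N hN x y hx hy
  · by_cases hy : y ∈ O
    · obtain ⟨O', N', h1, h2, h3⟩ := step_one O N hN y x hy hx
      refine ⟨O', N', ?_, h2, ?_⟩
      · intro i; rw [h1 i, or_comm]
      · intro Y; have := h3 Y; rw [ite_comm (y ∈ Y) (x ∈ Y)] at this; exact this
    · obtain ⟨N', hI', hs'⟩ := add_pair O N hN x y hxy hx hy
      refine ⟨_, N', ?_, hI', fun Y => (hs' Y).le⟩
      intro i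
      simp only [Finset.mem_insert]
      by_cases h1 : i = x
      · subst h1; simp [hx]
      · by_cases h2 : i = y
        · subst h2; simp [hy]
        · simp [h1, h2]

theorem main {α : Type v} [DecidableEq α] (a b : α → ι) (R : Finset α) :
    ∃ (O : Finset ι) (N : ι → ι), (∀ i, i ∈ O ↔ Odd ((R.filter (fun e => a e = i)).card +
        (R.filter (fun e => b e = i)).card)) ∧ Inv O N ∧
      ∀ Y, sp O N Y ≤ (R.filter (fun e => ¬ (a e ∈ Y ↔ b e ∈ Y))).card := by
  induction R using Finset.induction_on with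
  | empty => exact ⟨∅, id, by simp, by intro i hi; simp at hi, by intro Y; simp [sp]⟩
  | insert e R he ih =>
    obtain ⟨O, N, hO, hN, hs⟩ := ih
    have ca : ∀ i, ((insert e R).filter (fun e => a e = i)).card =
        (R.filter (fun e => a e = i)).card + (if a e = i then 1 else 0) := by
      intro i
      rw [Finset.filter_insert]
      split_ifs with h
      · rw [Finset.card_insert_of_notMem (by simp [he])]
      · rfl
    have cb : ∀ i, ((insert e R).filter (fun e => b e = i)).card =
        (R.filter (fun e => b e = i)).card + (if b e = i then 1 else 0) := by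
      intro i
      rw [Finset.filter_insert]
      split_ifs with h
      · rw [Finset.card_insert_of_notMem (by simp [he])]
      · rfl
    have cc : ∀ Y : Finset ι, ((insert e R).filter (fun e => ¬ (a e ∈ Y ↔ b e ∈ Y))).card =
        (R.filter (fun e => ¬ (a e ∈ Y ↔ b e ∈ Y))).card +
          (if (a e ∈ Y ↔ b e ∈ Y) then 0 else 1) := by
      intro Y
      rw [Finset.filter_insert]
      by_cases h : (a e ∈ Y ↔ b e ∈ Y)
      · rw [if_neg (by simpa using h), if_pos h]; rfl
      · rw [if_pos h, if_neg h, Finset.card_insert_of_notMem (by simp [he])]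
    by_cases hab : a e = b e
    · refine ⟨O, N, ?_, hN, ?_⟩
      · intro i
        rw [hO i, ca i, cb i, hab]
        by_cases h : b e = i
        · simp only [h, if_true]
          rw [Nat.odd_iff, Nat.odd_iff]; omega
        · simp [h]
      · intro Y
        rw [cc Y]
        exact (hs Y).trans (Nat.le_add_right _ _)
    · obtain ⟨O', N', h1, h2, h3⟩ := step O N hN (a e) (b e) hab
      refine ⟨O', N', ?_, h2, ?_⟩
      · intro i
        rw [h1 i, hO i, ca i, cb i]
        by_cases hA : a e = i
        · have hB : b e ≠ i := fun h => hab (hA.trans h.symm)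
          simp only [hA, hB, if_true, if_false]
          rw [Nat.odd_iff, Nat.odd_iff]
          simp only [true_or, not_true, iff_false]
          omega
        · by_cases hB : b e = i
          · simp only [hA, hB, if_true, if_false]
            rw [Nat.odd_iff, Nat.odd_iff]
            simp only [or_true, not_true, iff_false]
            omega
          · have hA' : i ≠ a e := fun h => hA h.symm
            have hB' : i ≠ b e := fun h => hB h.symm
            simp [hA, hB, hA', hB']
      · intro Y
        rw [cc Y]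
        exact (h3 Y).trans (Nat.add_le_add_right (hs Y) _)

end Pairing

theorem exists_pairing_of_edges {ι : Type u} {α : Type v} [Fintype ι] [DecidableEq ι]
    [DecidableEq α] (R : Finset α) (a b : α → ι) :
    ∃ N : ι → ι, (∀ i, Odd ((R.filter (fun e => a e = i)).card +
        (R.filter (fun e => b e = i)).card) →
        Odd ((R.filter (fun e => a e = N i)).card + (R.filter (fun e => b e = N i)).card) ∧
          N (N i) = i ∧ N i ≠ i) ∧
      ∀ Y : Finset ι, ((univ.filter (fun i => Odd ((R.filter (fun e => a e = i)).card +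
        (R.filter (fun e => b e = i)).card))).filter (fun i => i ∈ Y ∧ N i ∉ Y)).card ≤
        (R.filter (fun e => ¬ (a e ∈ Y ↔ b e ∈ Y))).card := by
  obtain ⟨O, N, hO, hN, hs⟩ := Pairing.main a b R
  refine ⟨N, ?_, ?_⟩
  · intro i hi
    obtain ⟨h1, h2, h3⟩ := hN i ((hO i).2 hi)
    exact ⟨(hO _).1 h1, h2, h3⟩
  · intro Y
    refine le_trans (le_of_eq ?_) (hs Y)
    unfold Pairing.sp
    congr 1
    congr 1
    ext i
    rw [Finset.mem_filter, hO i]
    simp

end Pool.Agent.H185C
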