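import Pool.Agent.H185C.Defs

/-!
T3 (helper231): the permutation of a 2-factor. The construction is that of
`exists_matching_of_reps` (helper884).
-/

set_option autoImplicit false

namespace Pool.Agent.H185C
open Finset Pool.Agent.H160R2.HF Pool.Agent.H160R2.HF.OrGraph Pool.Agent.H884R2.HFP

variable {V E : Type*} [Fintype V] [Fintype E] [DecidableEq V] [DecidableEq E]

theorem exists_perm (G : OrGraph V E) (F : Finset E) (hF : G.IsTwoFactor F) :
    ∃ (π : Equiv.Perm V) (ε : V → E), IsPerm G F π ε := by
  classical
  obtain ⟨ψ, hψ1, hψ2⟩ := eulerian G.t G.h F (fun v => by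
    have := hF v
    unfold deg at this
    rw [this]; decide)
  -- source and target of the oriented edges
  let src : E → V := fun e => if ψ e = 1 then G.t e else G.h e
  let tgt : E → V := fun e => if ψ e = 1 then G.h e else G.t e
  have hcount : ∀ v, (F.filter (fun e => src e = v)).card = 1 ∧
      (F.filter (fun e => tgt e = v)).card = 1 := by
    intro v
    have hsum : (F.filter (fun e => src e = v)).card + (F.filter (fun e => tgt e = v)).card = 2 := by
      rw [← hF v]
      unfold deg
      simp_rw [Finset.card_filter]
      rw [← Finset.sum_add_distrib, ← Finset.sum_add_distrib]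
      refine Finset.sum_congr rfl fun e _ => ?_
      simp only [src, tgt]
      by_cases h : ψ e = 1
      · simp [h]
      · simp [h, add_comm]
    have hdiff : ((F.filter (fun e => src e = v)).card : ℤ) =
        (F.filter (fun e => tgt e = v)).card := by
      have h0 := hψ2 v
      unfold net at h0
      have h1 : ∀ k : E → V, ∑ e with k e = v, ψ e = ∑ e ∈ F, if k e = v then ψ e else 0 := by
        intro k
        rw [Finset.sum_filter]
        symm
        apply Finset.sum_subset (Finset.subset_univ F)
        intro e _ he
        rw [(hψ1 e).2 he]; simp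
      rw [h1, h1, ← Finset.sum_sub_distrib] at h0
      have h2 : ((F.filter (fun e => src e = v)).card : ℤ) -
          (F.filter (fun e => tgt e = v)).card = 0 := by
        rw [← h0]
        simp_rw [Finset.card_filter]
        push_cast
        rw [← Finset.sum_sub_distrib]
        refine Finset.sum_congr rfl fun e he => ?_
        simp only [src, tgt]
        rcases (hψ1 e).1 he with h | h
        · simp [h]
        · have h' : ψ e ≠ 1 := by rw [h]; decide
          simp only [h]
          by_cases a : G.t e = v <;> by_cases b : G.h e = v <;> simp [a, b]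
      linarith
    have hdiff' : (F.filter (fun e => src e = v)).card = (F.filter (fun e => tgt e = v)).card := by
      exact_mod_cast hdiff
    omega
  have hout : ∀ v, ∃ e ∈ F, src e = v ∧ ∀ e' ∈ F, src e' = v → e' = e := by
    intro v
    obtain ⟨e, he⟩ := Finset.card_eq_one.1 (hcount v).1
    have h1 : e ∈ F.filter (fun e => src e = v) := by rw [he]; simp
    rw [Finset.mem_filter] at h1
    refine ⟨e, h1.1, h1.2, fun e' h2 h3 => ?_⟩
    have : e' ∈ F.filter (fun e => src e = v) := Finset.mem_filter.2 ⟨h2, h3⟩
    rw [he] at this
    simpa using this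
  choose out hout1 hout2 hout3 using hout
  have hinj : Function.Injective (fun v => tgt (out v)) := by
    intro v w hvw
    simp only at hvw
    obtain ⟨e, he⟩ := Finset.card_eq_one.1 (hcount (tgt (out w))).2
    have h1 : out v ∈ F.filter (fun e => tgt e = tgt (out w)) :=
      Finset.mem_filter.2 ⟨hout1 v, hvw⟩
    have h2 : out w ∈ F.filter (fun e => tgt e = tgt (out w)) :=
      Finset.mem_filter.2 ⟨hout1 w, rfl⟩
    rw [he, Finset.mem_singleton] at h1 h2
    rw [← hout2 v, ← hout2 w, h1, h2]
  refine ⟨Equiv.ofBijective (fun v => tgt (out v)) (Finite.injective_iff_bijective.1 hinj), out,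
    ?_, hout1, ?_, ?_⟩
  · intro v w h
    rw [← hout2 v, ← hout2 w, h]
  · intro e he
    exact ⟨src e, (hout3 (src e) e he rfl).symm⟩
  · intro v
    have h1 := hout2 v
    have h2 : Equiv.ofBijective (fun v => tgt (out v)) (Finite.injective_iff_bijective.1 hinj) v =
        tgt (out v) := rfl
    rw [h2]
    simp only [src] at h1
    simp only [tgt]
    by_cases h3 : ψ (out v) = 1
    · rw [if_pos h3] at h1 ⊢
      exact Or.inl ⟨h1, rfl⟩
    · rw [if_neg h3] at h1 ⊢
      exact Or.inr ⟨rfl, h1⟩

end Pool.Agent.H185C
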