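import Pool.Agent.H185C.Defs

/-!
# Petersen's theorem for `OrGraph` (task T2, helper89)
-/

set_option autoImplicit false
set_option linter.unusedSectionVars false
set_option linter.style.haveILetI false

namespace Pool.Agent.H185C
open Finset Pool.Agent.H160R2.HF Pool.Agent.H160R2.HF.OrGraph Pool.Agent.H884R2.HFP

universe u v

variable {V : Type u} {E : Type v} [Fintype V] [Fintype E] [DecidableEq V] [DecidableEq E]

private lemma sum_deg_univ (G : OrGraph V E) (X : Finset V) :
    ∑ v ∈ X, G.deg univ v =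
      (univ.filter (fun e => G.t e ∈ X)).card + (univ.filter (fun e => G.h e ∈ X)).card := by
  unfold OrGraph.deg
  rw [Finset.sum_add_distrib]
  congr 1
  · rw [Finset.card_eq_sum_card_fiberwise (f := G.t) (t := X) (by intro e he; simpa using he)]
    refine Finset.sum_congr rfl fun v hv => ?_
    congr 1
    ext e
    simp only [mem_filter, mem_univ, true_and]
    constructor
    · intro h
      exact ⟨h ▸ hv, h⟩
    · intro h
      exact h.2
  · rw [Finset.card_eq_sum_card_fiberwise (f := G.h) (t := X) (by intro e he; simpa using he)]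
    refine Finset.sum_congr rfl fun v hv => ?_
    congr 1
    ext e
    simp only [mem_filter, mem_univ, true_and]
    constructor
    · intro h
      exact ⟨h ▸ hv, h⟩
    · intro h
      exact h.2

private lemma cut_count (G : OrGraph V E) (X : Finset V) :
    (univ.filter (fun e => G.t e ∈ X)).card + (univ.filter (fun e => G.h e ∈ X)).card =
      2 * (univ.filter (fun e => G.t e ∈ X ∧ G.h e ∈ X)).card + (G.cut X).card := by
  unfold OrGraph.cut
  simp only [Finset.card_filter, Finset.mul_sum, ← Finset.sum_add_distrib]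
  refine Finset.sum_congr rfl fun e _ => ?_
  by_cases h1 : G.t e ∈ X <;> by_cases h2 : G.h e ∈ X <;> simp [h1, h2]

private lemma cut_odd (G : OrGraph V E) (hc : G.Cubic) (X : Finset V) (hX : Odd X.card) :
    Odd (G.cut X).card := by
  have h1 := sum_deg_univ G X
  rw [cut_count, Finset.sum_congr rfl (fun v _ => hc v), Finset.sum_const, smul_eq_mul] at h1
  obtain ⟨a, ha⟩ := hX
  rw [Nat.odd_iff]
  omega

private lemma three_le_cut (G : OrGraph V E) (hc : G.Cubic)
    (h2 : ∀ X : Finset V, X.Nonempty → Xᶜ.Nonempty → 2 ≤ (G.cut X).card) (X : Finset V)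
    (hX : Odd X.card) : 3 ≤ (G.cut X).card := by
  have hodd := cut_odd G hc X hX
  have hne : X.Nonempty := by
    rw [← Finset.card_pos]
    exact hX.pos
  rcases Finset.eq_empty_or_nonempty Xᶜ with h | h
  · exfalso
    have h3 : X = univ := by rwa [Finset.compl_eq_empty_iff] at h
    have h4 : (G.cut X).card = 0 := by
      rw [Finset.card_eq_zero]
      unfold OrGraph.cut
      rw [Finset.filter_eq_empty_iff]
      intro e _
      simp [h3]
    rw [h4] at hodd
    exact absurd hodd (by decide)
  · have h5 := h2 X hne h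
    obtain ⟨a, ha⟩ := hodd
    omega

private lemma no_violator (G : OrGraph V E) (hc : G.Cubic)
    (h2 : ∀ X : Finset V, X.Nonempty → Xᶜ.Nonempty → 2 ≤ (G.cut X).card) (S : Set V) :
    ¬ (G.sub univ).IsTutteViolator S := by
  classical
  intro hS
  unfold SimpleGraph.IsTutteViolator at hS
  have hverts : ∀ v, v ∈ ((⊤ : (G.sub univ).Subgraph).deleteVerts S).verts ↔ v ∉ S := by
    intro v
    simp
  have hadj : ∀ u v (hu : u ∈ ((⊤ : (G.sub univ).Subgraph).deleteVerts S).verts)
      (hv : v ∈ ((⊤ : (G.sub univ).Subgraph).deleteVerts S).verts), (G.sub univ).Adj u v →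
      ((⊤ : (G.sub univ).Subgraph).deleteVerts S).coe.Adj ⟨u, hu⟩ ⟨v, hv⟩ := by
    intro u v hu hv huv
    rw [SimpleGraph.Subgraph.coe_adj, SimpleGraph.Subgraph.deleteVerts_adj]
    exact ⟨trivial, (hverts u).1 hu, trivial, (hverts v).1 hv, huv⟩
  generalize hH : ((⊤ : (G.sub univ).Subgraph).deleteVerts S) = H at hS hverts hadj
  set K : H.coe.ConnectedComponent → Finset V := fun c =>
    univ.filter (fun v => ∃ hv : v ∈ H.verts, H.coe.connectedComponentMk ⟨v, hv⟩ = c) with hK
  have hmemK : ∀ c v, v ∈ K c ↔ ∃ hv : v ∈ H.verts, H.coe.connectedComponentMk ⟨v, hv⟩ = c := by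
    intro c v
    simp [hK]
  have hKcard : ∀ c, (K c).card = c.supp.ncard := by
    intro c
    have h1 : ((K c : Finset V) : Set V) = Subtype.val '' c.supp := by
      ext v
      rw [Finset.mem_coe, hmemK]
      constructor
      · rintro ⟨hv, h⟩
        exact ⟨⟨v, hv⟩, h, rfl⟩
      · rintro ⟨⟨w, hw⟩, h, rfl⟩
        exact ⟨hw, h⟩
    rw [← Set.ncard_coe_finset, h1, Set.ncard_image_of_injective _ Subtype.val_injective]
  have hKS : ∀ c v, v ∈ K c → v ∉ S := by
    intro c v hv
    obtain ⟨h, _⟩ := (hmemK c v).1 hv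
    exact (hverts v).1 h
  have hKdisj : ∀ c c' v, v ∈ K c → v ∈ K c' → c = c' := by
    intro c c' v h h'
    obtain ⟨a, ha⟩ := (hmemK c v).1 h
    obtain ⟨b, hb⟩ := (hmemK c' v).1 h'
    rw [← ha, ← hb]
  have hstep : ∀ c u v, u ∈ K c → v ∉ K c → (∃ e, (G.t e = u ∧ G.h e = v) ∨
      (G.t e = v ∧ G.h e = u)) → v ∈ S := by
    intro c u v hu hv he
    by_contra hvS
    obtain ⟨hu', hu2⟩ := (hmemK c u).1 hu
    have hv' := (hverts v).2 hvS
    have huv : u ≠ v := by
      rintro rfl
      exact hv hu
    have h1 : (G.sub univ).Adj u v := by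
      unfold OrGraph.sub
      rw [SimpleGraph.fromRel_adj]
      refine ⟨huv, ?_⟩
      obtain ⟨e, he | he⟩ := he
      · exact Or.inl ⟨e, mem_univ _, he⟩
      · exact Or.inr ⟨e, mem_univ _, he⟩
    apply hv
    rw [hmemK]
    refine ⟨hv', ?_⟩
    rw [← hu2]
    exact (SimpleGraph.ConnectedComponent.connectedComponentMk_eq_of_adj (hadj u v hu' hv' h1)).symm
  have hcut : ∀ c e, e ∈ G.cut (K c) → (G.t e ∈ K c ∧ G.h e ∈ S) ∨ (G.h e ∈ K c ∧ G.t e ∈ S) := by
    intro c e he
    unfold OrGraph.cut at he
    rw [mem_filter] at he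
    by_cases h1 : G.t e ∈ K c
    · have h3 : G.h e ∉ K c := fun h => he.2 ⟨fun _ => h, fun _ => h1⟩
      exact Or.inl ⟨h1, hstep c _ _ h1 h3 ⟨e, Or.inl ⟨rfl, rfl⟩⟩⟩
    · have h3 : G.h e ∈ K c := by
        by_contra h
        exact he.2 ⟨fun h' => absurd h' h1, fun h' => absurd h' h⟩
      exact Or.inr ⟨h3, hstep c _ _ h3 h1 ⟨e, Or.inr ⟨rfl, rfl⟩⟩⟩
  letI : Fintype H.coe.ConnectedComponent := Fintype.ofFinite _
  set OF : Finset H.coe.ConnectedComponent := univ.filter (fun c => Odd c.supp.ncard) with hOF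
  have hOFcard : H.coe.oddComponents.ncard = OF.card := by
    rw [← Set.ncard_coe_finset]
    congr 1
    ext c
    simp [hOF]
  have hSF : S.ncard = S.toFinset.card := Set.ncard_eq_toFinset_card' S
  have hle : 3 * OF.card ≤ 3 * S.toFinset.card := by
    calc 3 * OF.card = ∑ _c ∈ OF, 3 := by rw [Finset.sum_const, smul_eq_mul, mul_comm]
      _ ≤ ∑ c ∈ OF, (G.cut (K c)).card := by
          refine Finset.sum_le_sum fun c hc' => three_le_cut G hc h2 _ ?_
          rw [hKcard]
          simpa [hOF] using hc'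
      _ = (OF.biUnion (fun c => G.cut (K c))).card := by
          rw [Finset.card_biUnion]
          intro c _ c' _ hne
          rw [Function.onFun, Finset.disjoint_left]
          intro e he he'
          apply hne
          rcases hcut c e he with ⟨h1, h3⟩ | ⟨h1, h3⟩
          · rcases hcut c' e he' with ⟨h4, _⟩ | ⟨h4, _⟩
            · exact hKdisj c c' _ h1 h4
            · exact absurd h3 (hKS c' _ h4)
          · rcases hcut c' e he' with ⟨h4, _⟩ | ⟨h4, _⟩
            · exact absurd h3 (hKS c' _ h4)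
            · exact hKdisj c c' _ h1 h4
      _ ≤ ((univ.filter (fun e => G.t e ∈ S.toFinset)) ∪
            (univ.filter (fun e => G.h e ∈ S.toFinset))).card := by
          refine Finset.card_le_card fun e he => ?_
          rw [Finset.mem_biUnion] at he
          obtain ⟨c, _, he⟩ := he
          rw [Finset.mem_union, Finset.mem_filter, Finset.mem_filter]
          rcases hcut c e he with ⟨_, h3⟩ | ⟨_, h3⟩
          · exact Or.inr ⟨mem_univ _, by simpa using h3⟩
          · exact Or.inl ⟨mem_univ _, by simpa using h3⟩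
      _ ≤ (univ.filter (fun e => G.t e ∈ S.toFinset)).card +
            (univ.filter (fun e => G.h e ∈ S.toFinset)).card := Finset.card_union_le _ _
      _ = 3 * S.toFinset.card := by
          rw [← sum_deg_univ, Finset.sum_congr rfl (fun v _ => hc v), Finset.sum_const,
            smul_eq_mul, mul_comm]
  omega

theorem petersen (G : OrGraph V E) (hc : G.Cubic)
    (h2 : ∀ X : Finset V, X.Nonempty → Xᶜ.Nonempty → 2 ≤ (G.cut X).card) :
    ∃ F : Finset E, G.IsTwoFactor F := by
  classical
  obtain ⟨M, hM⟩ := SimpleGraph.tutte.2 (no_violator G hc h2)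
  have hedge : ∀ s : M.edgeSet, ∃ e : E, s(G.t e, G.h e) = s.1 := by
    rintro ⟨s, hs⟩
    induction s with
    | _ a b =>
      have h1 : (G.sub univ).Adj a b := M.adj_sub hs
      unfold OrGraph.sub at h1
      rw [SimpleGraph.fromRel_adj] at h1
      rcases h1.2 with ⟨e, _, h3, h4⟩ | ⟨e, _, h3, h4⟩
      · exact ⟨e, by rw [h3, h4]⟩
      · exact ⟨e, by rw [h3, h4, Sym2.eq_swap]⟩
  choose f hf using hedge
  obtain ⟨N, hN⟩ : ∃ N : Finset E, ∀ e, e ∈ N ↔ ∃ s, f s = e :=
    ⟨univ.filter (fun e => ∃ s, f s = e), fun e => by simp⟩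
  have hdeg : ∀ v, G.deg N v = 1 := by
    intro v
    obtain ⟨w, hw, huniq⟩ := hM.1 (hM.2 v)
    have hvw : v ≠ w := (M.adj_sub hw).ne
    have hdisj : Disjoint (N.filter (fun e => G.t e = v)) (N.filter (fun e => G.h e = v)) := by
      rw [Finset.disjoint_left]
      intro e he he'
      rw [mem_filter] at he he'
      obtain ⟨s, hs⟩ := (hN e).1 he.1
      have h1 := hf s
      rw [hs, he.2, he'.2] at h1
      have h3 : s(v, v) ∈ M.edgeSet := h1 ▸ s.2
      exact (M.adj_sub h3).ne rfl
    unfold OrGraph.deg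
    rw [← Finset.card_union_of_disjoint hdisj, Finset.card_eq_one]
    refine ⟨f ⟨s(v, w), hw⟩, ?_⟩
    ext e
    rw [mem_union, mem_filter, mem_filter, mem_singleton]
    constructor
    · intro h
      have heN : e ∈ N := by
        rcases h with h | h <;> exact h.1
      obtain ⟨s, hs⟩ := (hN e).1 heN
      have h1 := hf s
      rw [hs] at h1
      rw [← hs]
      congr 1
      apply Subtype.ext
      rw [← h1]
      have h3 : s(G.t e, G.h e) ∈ M.edgeSet := h1 ▸ s.2
      rcases h with h | h
      · rw [h.2] at h3 ⊢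
        have h4 : G.h e = w := huniq _ h3
        rw [h4]
      · rw [h.2, Sym2.eq_swap] at h3
        have h4 : G.t e = w := huniq _ h3
        rw [h.2, h4, Sym2.eq_swap]
    · intro h
      have h1 := hf ⟨s(v, w), hw⟩
      rw [← h] at h1
      have heN : e ∈ N := (hN e).2 ⟨_, h.symm⟩
      rcases Sym2.eq_iff.1 h1 with h3 | h3
      · exact Or.inl ⟨heN, h3.1⟩
      · exact Or.inr ⟨heN, h3.2⟩
  refine ⟨Nᶜ, fun v => ?_⟩
  have h3 : G.deg N v + G.deg Nᶜ v = G.deg univ v := by
    unfold OrGraph.deg
    have h4 : ∀ p : E → Prop, ∀ _ : DecidablePred p,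
        (N.filter p).card + (Nᶜ.filter p).card = (univ.filter p).card := by
      intro p _
      rw [← Finset.card_union_of_disjoint, ← Finset.filter_union, Finset.union_compl]
      exact Finset.disjoint_filter_filter disjoint_compl_right
    have h5 := h4 (fun e => G.t e = v) inferInstance
    have h6 := h4 (fun e => G.h e = v) inferInstance
    omega
  have h4 := hdeg v
  have h5 := hc v
  omega

end Pool.Agent.H185C
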