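import Pool.Agent.H185C.Defs

set_option autoImplicit false

namespace Pool.Agent.H185C
open Finset

universe v

section

private lemma ind_injective {α : Type v} [DecidableEq α] :
    Function.Injective (fun B : Finset α => (fun e => ind B e)) := by
  intro B C h
  ext e
  have := congrFun h e
  simp only [ind] at this
  by_cases h1 : e ∈ B <;> by_cases h2 : e ∈ C <;> simp_all

theorem fractional {α : Type v} [Fintype α] [DecidableEq α] (S : Finset (Finset α)) (c : ℝ)
    (hc : 0 ≤ c) (h : ∀ w : α → ℝ, (∀ e, 0 ≤ w e) → ∃ B ∈ S, ∑ e ∈ B, w e ≤ c * ∑ e, w e) :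
    ∃ l : Finset α → ℝ, (∀ B, 0 ≤ l B) ∧ ∑ B ∈ S, l B = 1 ∧
      ∀ e, ∑ B ∈ S, l B * ind B e ≤ c := by
  classical
  set I : Finset α → (α → ℝ) := fun B => (fun e => ind B e) with hI
  have hIinj : Function.Injective I := ind_injective
  set K : Set (α → ℝ) := convexHull ℝ ((S.image I : Finset (α → ℝ)) : Set (α → ℝ)) with hK
  set T : Set (α → ℝ) := {x | ∀ e, x e ≤ c} with hT
  have hKc : IsCompact K := (S.image I).finite_toSet.isCompact_convexHull (𝕜 := ℝ)
  have hKconv : Convex ℝ K := convex_convexHull ℝ _
  have hTclosed : IsClosed T := by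
    have : T = ⋂ e, {x : α → ℝ | x e ≤ c} := by ext x; simp [hT]
    rw [this]
    exact isClosed_iInter (fun e => isClosed_le (continuous_apply e) continuous_const)
  have hTconv : Convex ℝ T := by
    intro x hx y hy a b ha hb hab e
    have h1 := hx e
    have h2 := hy e
    have : a * x e + b * y e ≤ a * c + b * c :=
      add_le_add (mul_le_mul_of_nonneg_left h1 ha) (mul_le_mul_of_nonneg_left h2 hb)
    have h3 : a * c + b * c = c := by rw [← add_mul, hab, one_mul]
    simpa [h3] using this
  by_cases hne : (K ∩ T).Nonempty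
  · obtain ⟨x, hxK, hxT⟩ := hne
    rw [hK, Finset.mem_convexHull] at hxK
    obtain ⟨l, hl0, hl1, hlx⟩ := hxK
    refine ⟨fun B => if B ∈ S then l (I B) else 0, ?_, ?_, ?_⟩
    · intro B
      dsimp only
      split_ifs with hB
      · exact hl0 _ (Finset.mem_image_of_mem I hB)
      · exact le_refl _
    · rw [Finset.sum_image (fun a _ b _ hab => hIinj hab)] at hl1
      rw [← hl1]
      exact Finset.sum_congr rfl (fun B hB => by simp [hB])
    · intro e
      have h1 : x e = ∑ B ∈ S, l (I B) * ind B e := by
        rw [← hlx, Finset.centerMass_eq_of_sum_1 _ _ hl1,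
          Finset.sum_image (fun a _ b _ hab => hIinj hab)]
        simp [hI, Finset.sum_apply]
      have h2 : ∑ B ∈ S, (if B ∈ S then l (I B) else 0) * ind B e = x e := by
        rw [h1]
        exact Finset.sum_congr rfl (fun B hB => by simp [hB])
      rw [h2]
      exact hxT e
  · exfalso
    have hdisj : Disjoint K T := by
      rw [Set.disjoint_iff_inter_eq_empty]
      exact Set.not_nonempty_iff_eq_empty.mp hne
    obtain ⟨f, u, v, hfu, huv, hfv⟩ :=
      geometric_hahn_banach_compact_closed hKconv hKc hTconv hTclosed hdisj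
    have hfx : ∀ x : α → ℝ, f x = ∑ e, x e * f (Pi.single e 1) := by
      intro x
      conv_lhs => rw [← Finset.univ_sum_single x]
      rw [map_sum]
      refine Finset.sum_congr rfl (fun e _ => ?_)
      have : (Pi.single e (x e) : α → ℝ) = x e • (Pi.single e 1 : α → ℝ) := by
        ext j; by_cases hj : j = e <;> simp [hj]
      rw [this, map_smul, smul_eq_mul]
    have hneg : ∀ e, f (Pi.single e 1) ≤ 0 := by
      intro e
      by_contra hpos
      push Not at hpos
      have hmem : ∀ M : ℝ, 0 ≤ M → (fun _ => c : α → ℝ) - M • (Pi.single e 1 : α → ℝ) ∈ T := by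
        intro M hM e'
        by_cases he : e' = e <;> simp [he, hM]
      have h1 := hfv _ (hmem ((|f (fun _ => c)| + |v| + 1) / f (Pi.single e 1)) (by positivity))
      rw [map_sub, map_smul, smul_eq_mul, div_mul_cancel₀ _ hpos.ne'] at h1
      have h2 := le_abs_self (f (fun _ => c))
      have h3 := neg_abs_le v
      linarith
    obtain ⟨B, hBS, hB⟩ := h (fun e => - f (Pi.single e 1)) (fun e => by
      have := hneg e; linarith)
    have h1 := hfu (I B) (subset_convexHull ℝ _ (by
      exact_mod_cast Finset.mem_image_of_mem I hBS))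
    have h2 := hfv (fun _ => c) (fun e => le_refl c)
    rw [hfx] at h1 h2
    have h3 : ∑ e, I B e * f (Pi.single e 1) = ∑ e ∈ B, f (Pi.single e 1) := by
      simp only [hI, ind, ite_mul, one_mul, zero_mul]
      rw [← Finset.sum_filter]
      simp
    rw [h3] at h1
    rw [← Finset.mul_sum] at h2
    simp only [Finset.sum_neg_distrib, mul_neg] at hB
    linarith

end

end Pool.Agent.H185C
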