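import Pool.Agent.H185C.Exchange

/-!
T19: merging two bases.
-/

set_option autoImplicit false
set_option linter.unusedSimpArgs false

namespace Pool.Agent.H185C

universe u v

section linear

theorem prod_shift {α : Type v} [DecidableEq α] (x : α → ℝ) (hx : ∀ e, 0 ≤ x e) (i j : α)
    (hij : i ≠ j) (S : Finset α) :
    ∃ a b c : ℝ, 0 ≤ c ∧ ∀ r : ℝ,
      ∏ e ∈ S, (x e + r * (if e = i then 1 else if e = j then -1 else 0)) =
        a + b * r - c * r ^ 2 := by
  have key : ∀ T : Finset α, i ∉ T → j ∉ T → ∀ r : ℝ,
      ∏ e ∈ T, (x e + r * (if e = i then 1 else if e = j then -1 else 0)) = ∏ e ∈ T, x e := by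
    intro T hiT hjT r
    apply Finset.prod_congr rfl
    intro e he
    have h1 : e ≠ i := fun h => hiT (h ▸ he)
    have h2 : e ≠ j := fun h => hjT (h ▸ he)
    simp [h1, h2]
  by_cases hi : i ∈ S
  · by_cases hj : j ∈ S
    · set T := (S.erase i).erase j with hT
      have hiT : i ∉ T := by simp [hT]
      have hjT : j ∉ T := by simp [hT]
      have hjS : j ∈ S.erase i := Finset.mem_erase.2 ⟨hij.symm, hj⟩
      refine ⟨x i * x j * ∏ e ∈ T, x e, (x j - x i) * ∏ e ∈ T, x e, ∏ e ∈ T, x e,
        Finset.prod_nonneg fun e _ => hx e, ?_⟩
      intro r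
      rw [← Finset.mul_prod_erase S _ hi, ← Finset.mul_prod_erase (S.erase i) _ hjS, ← hT,
        key T hiT hjT r]
      simp only [if_true, hij.symm, if_false]
      ring
    · set T := S.erase i with hT
      have hiT : i ∉ T := by simp [hT]
      have hjT : j ∉ T := by simp [hT, hj]
      refine ⟨x i * ∏ e ∈ T, x e, ∏ e ∈ T, x e, 0, le_rfl, ?_⟩
      intro r
      rw [← Finset.mul_prod_erase S _ hi, ← hT, key T hiT hjT r]
      simp only [if_true]
      ring
  · by_cases hj : j ∈ S
    · set T := S.erase j with hT
      have hiT : i ∉ T := by simp [hT, hi]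
      have hjT : j ∉ T := by simp [hT]
      refine ⟨x j * ∏ e ∈ T, x e, - ∏ e ∈ T, x e, 0, le_rfl, ?_⟩
      intro r
      rw [← Finset.mul_prod_erase S _ hj, ← hT, key T hiT hjT r]
      simp only [if_true, hij.symm, if_false]
      ring
    · refine ⟨∏ e ∈ S, x e, 0, 0, le_rfl, ?_⟩
      intro r
      rw [key S hi hj r]
      ring

theorem poly_shift {α : Type v} [DecidableEq α] (J : Finset (Finset α)) (x : α → ℝ)
    (hx : ∀ e, 0 ≤ x e) (i j : α) (hij : i ≠ j) :
    ∃ a b c : ℝ, 0 ≤ c ∧ ∀ r : ℝ,
      poly J (fun e => x e + r * (if e = i then 1 else if e = j then -1 else 0)) =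
        a + b * r - c * r ^ 2 := by
  choose a b c hc h using fun S => prod_shift x hx i j hij S
  refine ⟨∑ S ∈ J, a S, ∑ S ∈ J, b S, ∑ S ∈ J, c S, Finset.sum_nonneg fun S _ => hc S, ?_⟩
  intro r
  unfold poly
  rw [Finset.sum_congr rfl fun S _ => h S r, Finset.sum_sub_distrib, Finset.sum_add_distrib,
    Finset.sum_mul, Finset.sum_mul]

theorem base_eq_of_subset {W : Type u} {α : Type v} [AddCommGroup W] [Module (ZMod 2) W]
    [DecidableEq α] (v : α → W) (B C : Finset α) (hB : IsBase v B) (hC : IsBase v C)
    (h : B ⊆ C) : B = C := by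
  apply Finset.Subset.antisymm h
  intro c hc
  by_contra hcB
  obtain ⟨j, hj, hjC, -⟩ := base_exchange v C B hC hB c hc hcB
  exact hjC (h hj)

theorem merge_bases {W : Type u} {α : Type v} [AddCommGroup W] [Module (ZMod 2) W]
    [DecidableEq α] (v : α → W) (J : Finset (Finset α)) (B C : Finset α) (hB : IsBase v B)
    (hC : IsBase v C) (y : α → ℝ) (hy : ∀ e, 0 ≤ y e) (s t : ℝ) (hs : 0 ≤ s) (ht : 0 ≤ t) :
    ∃ D : Finset α, IsBase v D ∧
      poly J (fun e => y e + (s + t) * ind D e) ≤
        poly J (fun e => y e + s * ind B e + t * ind C e) := by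
  obtain ⟨n, hn⟩ : ∃ n, n = (B \ C).card := ⟨_, rfl⟩
  induction n using Nat.strong_induction_on generalizing B C with
  | _ n ih =>
    by_cases hBC : B ⊆ C
    · have hEq := base_eq_of_subset v B C hB hC hBC
      subst hEq
      refine ⟨B, hB, le_of_eq ?_⟩
      congr 1
      funext e
      ring
    · obtain ⟨i, hiB, hiC⟩ := Finset.not_subset.1 hBC
      obtain ⟨j, hjC, hjB, h1, h2⟩ := base_exchange v B C hB hC i hiB hiC
      have hij : i ≠ j := fun h => hjB (h ▸ hiB)
      have hlt : ((B \ C).erase i).card < n := by
        rw [hn]
        apply Finset.card_erase_lt_of_mem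
        exact Finset.mem_sdiff.2 ⟨hiB, hiC⟩
      have e1 : (insert j (B.erase i)) \ C = (B \ C).erase i := by
        ext a
        simp only [Finset.mem_sdiff, Finset.mem_insert, Finset.mem_erase]
        constructor
        · rintro ⟨rfl | ⟨h, h'⟩, h''⟩
          · exact absurd hjC h''
          · exact ⟨h, h', h''⟩
        · rintro ⟨h, h', h''⟩
          exact ⟨Or.inr ⟨h, h'⟩, h''⟩
      have e2 : B \ (insert i (C.erase j)) = (B \ C).erase i := by
        ext a
        simp only [Finset.mem_sdiff, Finset.mem_insert, Finset.mem_erase, not_or, not_and]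
        constructor
        · rintro ⟨h, h', h''⟩
          refine ⟨h', h, ?_⟩
          intro hc
          exact h'' (fun haj => hjB (haj ▸ h)) hc
        · rintro ⟨h, h', h''⟩
          exact ⟨h', h, fun _ => h''⟩
      obtain ⟨D1, hD1, hD1'⟩ := ih _ hlt (insert j (B.erase i)) C h1 hC (by rw [e1])
      obtain ⟨D2, hD2, hD2'⟩ := ih _ hlt B (insert i (C.erase j)) hB h2 (by rw [e2])
      set x : α → ℝ := fun e => y e + s * ind B e + t * ind C e with hxdef
      have hind : ∀ (A : Finset α) (e : α), 0 ≤ ind A e := by
        intro A e
        unfold ind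
        split_ifs <;> norm_num
      have hx : ∀ e, 0 ≤ x e := by
        intro e
        have := mul_nonneg hs (hind B e)
        have := mul_nonneg ht (hind C e)
        have := hy e
        simp only [hxdef]
        linarith
      obtain ⟨a, b, c, hc, habc⟩ := poly_shift J x hx i j hij
      have f0 : poly J x = a := by
        have := habc 0
        simpa using this
      have f1 : poly J (fun e => y e + s * ind (insert j (B.erase i)) e + t * ind C e) =
          a + b * (-s) - c * (-s) ^ 2 := by
        rw [← habc (-s)]
        congr 1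
        funext e
        simp only [hxdef]
        by_cases hei : e = i
        · simp only [ind, hei, Finset.mem_insert, Finset.mem_erase, hiB, hiC, hij, ne_eq,
            not_true_eq_false, false_and, or_self, if_true, if_false]
          ring
        · by_cases hej : e = j
          · simp only [ind, hej, Finset.mem_insert, Finset.mem_erase, hjB, hjC, hij.symm, ne_eq,
              not_true_eq_false, false_and, or_self, if_true, if_false, true_or, true_and]
            ring
          · simp [ind, hei, hej]
      have f2 : poly J (fun e => y e + s * ind B e + t * ind (insert i (C.erase j)) e) =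
          a + b * t - c * t ^ 2 := by
        rw [← habc t]
        congr 1
        funext e
        simp only [hxdef]
        by_cases hei : e = i
        · simp only [ind, hei, Finset.mem_insert, Finset.mem_erase, hiB, hiC, hij, ne_eq,
            not_true_eq_false, false_and, or_self, if_true, if_false, true_or, true_and]
          ring
        · by_cases hej : e = j
          · simp only [ind, hej, Finset.mem_insert, Finset.mem_erase, hjB, hjC, hij.symm, ne_eq,
              not_true_eq_false, false_and, or_self, if_true, if_false, true_or, true_and]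
            ring
          · simp [ind, hei, hej]
      rcases eq_or_lt_of_le (add_nonneg hs ht) with h0 | h0
      · have hs0 : s = 0 := by linarith
        have ht0 : t = 0 := by linarith
        refine ⟨B, hB, le_of_eq ?_⟩
        simp only [hxdef]
        congr 1
        funext e
        rw [hs0, ht0]
        ring
      · by_cases hle : a + b * (-s) - c * (-s) ^ 2 ≤ a
        · refine ⟨D1, hD1, hD1'.trans ?_⟩
          rw [f1, f0]
          exact hle
        · refine ⟨D2, hD2, hD2'.trans ?_⟩
          rw [f2, f0]
          push Not at hle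
          by_contra hgt
          push Not at hgt
          have g1 : 0 ≤ c * s * t := by positivity
          have g2 : 0 ≤ c * (s * t) * (s + t) := by positivity
          have g3 : s * a ≤ s * (a + b * t - c * t ^ 2) :=
            mul_le_mul_of_nonneg_left hgt.le hs
          have g4 : t * a ≤ t * (a + b * (-s) - c * (-s) ^ 2) :=
            mul_le_mul_of_nonneg_left hle.le ht
          have g5 : s * (a + b * t - c * t ^ 2) + t * (a + b * (-s) - c * (-s) ^ 2) =
            (s + t) * a - c * (s * t) * (s + t) := by ring
          rcases eq_or_lt_of_le hs with hs0 | hs0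
          · rw [← hs0] at hle
            simp at hle
          · have g6 : s * a < s * (a + b * t - c * t ^ 2) :=
              mul_lt_mul_of_pos_left hgt hs0
            nlinarith

end linear

end Pool.Agent.H185C
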