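import Pool.Agent.H185C.Defs
import Pool.Agent.H185C.MergeBases

set_option autoImplicit false

namespace Pool.Agent.H185C

universe u v

open Finset

theorem rounding_aux {W : Type u} {α : Type v} [AddCommGroup W] [Module (ZMod 2) W]
    [DecidableEq α] (v : α → W) (J : Finset (Finset α)) (l : Finset α → ℝ) (hl : ∀ B, 0 ≤ l B)
    (S : Finset (Finset α)) (hne : S.Nonempty) (hS : ∀ B ∈ S, IsBase v B) :
    ∀ y : α → ℝ, (∀ e, 0 ≤ y e) →
    ∃ D : Finset α, IsBase v D ∧ poly J (fun e => y e + (∑ B ∈ S, l B) * ind D e) ≤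
      poly J (fun e => y e + ∑ B ∈ S, l B * ind B e) := by
  classical
  induction S using Finset.induction_on with
  | empty => exact absurd hne (by simp)
  | insert B0 S hB0 ih =>
    intro y hy
    rcases S.eq_empty_or_nonempty with hS0 | hS0
    · subst hS0
      refine ⟨B0, hS B0 (by simp), ?_⟩
      simp
    · have hind : ∀ e, 0 ≤ ind B0 e := by
        intro e; unfold ind; split_ifs <;> norm_num
      obtain ⟨C, hC, hCle⟩ := ih hS0 (fun B hB => hS B (mem_insert_of_mem hB))
        (fun e => y e + l B0 * ind B0 e)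
        (fun e => add_nonneg (hy e) (mul_nonneg (hl B0) (hind e)))
      obtain ⟨D, hD, hDle⟩ := merge_bases v J B0 C (hS B0 (mem_insert_self _ _)) hC y hy
        (l B0) (∑ B ∈ S, l B) (hl B0) (sum_nonneg fun B _ => hl B)
      refine ⟨D, hD, ?_⟩
      rw [sum_insert hB0]
      refine hDle.trans (hCle.trans (le_of_eq ?_))
      congr 1
      funext e
      rw [sum_insert hB0, add_assoc]

theorem rounding {W : Type u} {α : Type v} [AddCommGroup W] [Module (ZMod 2) W] [Fintype α]
    [DecidableEq α] (v : α → W) (J : Finset (Finset α)) (S : Finset (Finset α))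
    (hS : ∀ B ∈ S, IsBase v B) (l : Finset α → ℝ) (hl : ∀ B, 0 ≤ l B) (h1 : ∑ B ∈ S, l B = 1) :
    ∃ D : Finset α, IsBase v D ∧ poly J (ind D) ≤ poly J (fun e => ∑ B ∈ S, l B * ind B e) := by
  have hne : S.Nonempty := by
    rw [nonempty_iff_ne_empty]
    rintro rfl
    simp at h1
  obtain ⟨D, hD, hle⟩ := rounding_aux v J l hl S hne hS (fun _ => 0) (fun _ => le_rfl)
  refine ⟨D, hD, ?_⟩
  rw [h1] at hle
  simpa using hle

end Pool.Agent.H185C
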