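import Pool.Agent.H185C.LightBase
import Pool.Agent.H185C.Fractional
import Pool.Agent.H185C.Rounding

/-!
T22b: a base of a `k`-edge-connected multigraph that contains no set of a light list `J`.
-/

set_option autoImplicit false

namespace Pool.Agent.H185C
open Finset

universe v w

theorem rand_tree {ι : Type w} {α : Type v} [Fintype ι] [Fintype α] [DecidableEq ι]
    [DecidableEq α] [Nonempty ι] (a b : α → ι) (k : ℕ) (hk : 1 ≤ k)
    (hcut : ∀ Y : Finset ι, Y.Nonempty → Yᶜ.Nonempty →
      k ≤ (univ.filter (fun e => ¬ (a e ∈ Y ↔ b e ∈ Y))).card)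
    (J : Finset (Finset α)) (hJ : ∑ S ∈ J, (2 / k : ℝ) ^ S.card < 1) :
    ∃ B : Finset α, IsBase (vec a b) B ∧ ∀ S ∈ J, ¬ S ⊆ B := by
  classical
  obtain ⟨l, hl, h1, hle⟩ := fractional
    (univ.filter (fun B : Finset α => IsBase (vec a b) B)) (2 / k : ℝ) (by positivity)
    (fun w hw => by
      obtain ⟨B, hB, hBw⟩ := light_base a b k hk hcut w hw
      exact ⟨B, by simp [hB], hBw⟩)
  obtain ⟨D, hD, hDp⟩ := rounding (vec a b) J
    (univ.filter (fun B : Finset α => IsBase (vec a b) B)) (by simp) l hl h1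
  refine ⟨D, hD, fun S hS hSD => ?_⟩
  have hind0 : ∀ (B : Finset α) (e : α), 0 ≤ ind B e := by
    intro B e
    unfold ind
    split_ifs <;> norm_num
  have h2 : poly J (fun e => ∑ B ∈ univ.filter (fun B : Finset α => IsBase (vec a b) B),
      l B * ind B e) ≤ ∑ S ∈ J, (2 / k : ℝ) ^ S.card := by
    unfold poly
    refine Finset.sum_le_sum (fun T _ => ?_)
    rw [← Finset.prod_const]
    refine Finset.prod_le_prod (fun e _ => ?_) (fun e _ => hle e)
    exact Finset.sum_nonneg (fun B _ => mul_nonneg (hl B) (hind0 B e))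
  have h3 : (1 : ℝ) ≤ poly J (ind D) := by
    unfold poly
    have h4 : ∏ e ∈ S, ind D e = 1 := by
      refine Finset.prod_eq_one (fun e he => ?_)
      unfold ind
      rw [if_pos (hSD he)]
    calc (1 : ℝ) = ∏ e ∈ S, ind D e := h4.symm
      _ ≤ ∑ T ∈ J, ∏ e ∈ T, ind D e :=
        Finset.single_le_sum (f := fun T => ∏ e ∈ T, ind D e)
          (fun T _ => Finset.prod_nonneg (fun e _ => hind0 D e)) hS
  linarith

end Pool.Agent.H185C
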