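import Pool.Agent.H185C.NearLem
import Pool.Agent.H931R2.Haxell

set_option autoImplicit false

namespace Pool.Agent.H185C
open Finset Pool.Agent.H160R2.HF Pool.Agent.H160R2.HF.OrGraph Pool.Agent.H884R2.HFP

universe u v w

section graph
variable {V : Type u} {E : Type v} [Fintype V] [Fintype E] [DecidableEq V] [DecidableEq E]

omit [Fintype V] [DecidableEq V] in
/-- the position `i` in the block with first vertex `b` determines both `b` and `i` -/
lemma select_inj (π : Equiv.Perm V) (blk : V → V) (hb : IsBlocks π LL blk)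
    (hcyc : ∀ v, ∀ j, 1 ≤ j → j < LL → (π ^ j) v ≠ v) :
    Function.Injective
      (fun z : {b : V // blk b = b} × Fin (LL - 1) => (π ^ (z.2 : ℕ)) (z.1 : V)) := by
  have key : ∀ (b : V) (i j : ℕ), i < LL → j < LL → i < j → (π ^ i) b ≠ (π ^ j) b := by
    intro b i j _ hj hij h
    have h1 : (π ^ j) b = (π ^ i) ((π ^ (j - i)) b) := by
      rw [← Equiv.Perm.mul_apply, ← pow_add]
      congr 2
      omega
    rw [h1] at h
    have h2 : b = (π ^ (j - i)) b := (π ^ i).injective h
    exact hcyc b (j - i) (by omega) (by omega) h2.symm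
  rintro ⟨⟨b, hbb⟩, i⟩ ⟨⟨b', hbb'⟩, i'⟩ h
  simp only at h
  have hi : (i : ℕ) < LL := by have := i.2; omega
  have hi' : (i' : ℕ) < LL := by have := i'.2; omega
  have h1 : b = b' := by
    have e1 := hb.2.2 b hbb i hi
    have e2 := hb.2.2 b' hbb' i' hi'
    rw [h] at e1
    exact e1.symm.trans e2
  subst h1
  have h2 : (i : ℕ) = i' := by
    rcases lt_trichotomy (i : ℕ) i' with hlt | heq | hgt
    · exact absurd h (key b i i' hi hi' hlt)
    · exact heq
    · exact absurd h.symm (key b i' i hi' hi hgt)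
  have h3 : i = i' := Fin.ext h2
  subst h3
  rfl

theorem exists_select (G : OrGraph V E) (hc : G.Cubic) (F : Finset E) (π : Equiv.Perm V)
    (ε : V → E) (hπ : IsPerm G F π ε) (blk : V → V) (hb : IsBlocks π LL blk)
    (hcyc : ∀ v, ∀ j, 1 ≤ j → j < LL → (π ^ j) v ≠ v) :
    ∃ s : V → V, (∀ b, blk b = b → ∃ i, i + 1 < LL ∧ s b = (π ^ i) b) ∧
      ∀ b b', blk b = b → blk b' = b' → b ≠ b' → ¬ Near G 10 (s b) (s b') := by
  classical
  set φ : {b : V // blk b = b} × Fin (LL - 1) → V := fun z => (π ^ (z.2 : ℕ)) (z.1 : V) with hφ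
  have hinj : Function.Injective φ := select_inj π blk hb hcyc
  set adj : {b : V // blk b = b} × Fin (LL - 1) → {b : V // blk b = b} × Fin (LL - 1) → Prop :=
    fun z z' => z.1 ≠ z'.1 ∧ Near G 10 (φ z) (φ z') with hadj
  have hLL : LL = 4194304 := by norm_num [LL]
  have : Nonempty (Fin (LL - 1)) := ⟨⟨0, by rw [hLL]; norm_num⟩⟩
  have hsymm : ∀ a b, adj a b → adj b a := fun a b h =>
    ⟨fun e => h.1 e.symm, near_symm G 10 _ _ h.2⟩
  have hdom : ∀ z, (univ.filter (fun y => adj y z)).card ≤ 4 ^ 10 := by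
    intro z
    rw [← Finset.card_image_of_injective _ hinj]
    refine near_card G hc 10 (φ z) _ ?_
    intro v hv
    obtain ⟨y, hy, rfl⟩ := Finset.mem_image.1 hv
    exact near_symm G 10 _ _ (Finset.mem_filter.1 hy).2.2
  obtain ⟨f, hf⟩ := Pool.Agent.H931R2.Haxell.finite (adj := adj) hsymm (by
    intro K hK Z hZ
    by_contra hcon
    push Not at hcon
    have hsub : K ×ˢ (univ : Finset (Fin (LL - 1))) ⊆
        Z.biUnion (fun z => univ.filter (fun y => adj y z)) := by
      intro y hy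
      obtain ⟨z, hz, hyz⟩ := hcon y.1 (Finset.mem_product.1 hy).1 y.2
      exact Finset.mem_biUnion.2 ⟨z, hz, Finset.mem_filter.2 ⟨Finset.mem_univ _, hyz⟩⟩
    have h1 := Finset.card_le_card hsub
    rw [Finset.card_product, Finset.card_univ, Fintype.card_fin] at h1
    have h2 : (Z.biUnion (fun z => univ.filter (fun y => adj y z))).card ≤ Z.card * 4 ^ 10 :=
      Finset.card_biUnion_le_card_mul _ _ _ fun z _ => hdom z
    have h3 := hK.card_pos
    have h4 := h1.trans h2
    have h5 : LL - 1 = 4194303 := by rw [hLL]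
    have h6 : #K * (LL - 1) = #K * 4194303 := congrArg (fun m => #K * m) h5
    have h7 : #K * 4194303 ≤ #Z * 4 ^ 10 := le_of_eq_of_le h6.symm h4
    norm_num at h7
    omega) (univ : Finset {b : V // blk b = b})
  refine ⟨fun b => if h : blk b = b then φ (⟨b, h⟩, f ⟨b, h⟩) else b, ?_, ?_⟩
  · intro b hbb
    refine ⟨(f ⟨b, hbb⟩ : ℕ), ?_, ?_⟩
    · have := (f ⟨b, hbb⟩).2
      omega
    · simp only [dif_pos hbb, hφ]
  · intro b b' hbb hbb' hne hnear
    simp only [dif_pos hbb, dif_pos hbb'] at hnear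
    have hne' : (⟨b, hbb⟩ : {b : V // blk b = b}) ≠ ⟨b', hbb'⟩ := fun e =>
      hne (congrArg Subtype.val e)
    exact hf ⟨b, hbb⟩ (Finset.mem_univ _) ⟨b', hbb'⟩ (Finset.mem_univ _) hne' ⟨hne', hnear⟩

end graph

end Pool.Agent.H185C
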