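import Pool.Agent.H185C.Defs

/-!
T10: Hoffman's condition has to be checked for connected sets with connected complement only.
-/

set_option autoImplicit false

namespace Pool.Agent.H185C
open Finset Pool.Agent.H160R2.HF Pool.Agent.H160R2.HF.OrGraph Pool.Agent.H884R2.HFP

universe u v

section T10
variable {V : Type u} {E : Type v} [Fintype V] [Fintype E] [DecidableEq V] [DecidableEq E]

theorem t10_mem_cut_iff (G : OrGraph V E) (X : Finset V) (e : E) :
    e ∈ G.cut X ↔ ¬ (G.t e ∈ X ↔ G.h e ∈ X) := by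
  simp [OrGraph.cut]

theorem t10_not_conn (G : OrGraph V E) (X : Finset V) (h : ¬ Conn G X) :
    ∃ Y ⊆ X, Y.Nonempty ∧ (X \ Y).Nonempty ∧
      ∀ e, G.t e ∈ X → G.h e ∈ X → (G.t e ∈ Y ↔ G.h e ∈ Y) := by
  unfold Conn at h
  push Not at h
  obtain ⟨Y, h1, h2, h3, h4⟩ := h
  refine ⟨Y, h1, h2, h3, fun e ht hh => ?_⟩
  by_contra hcon
  exact h4 e ((t10_mem_cut_iff G Y e).2 hcon) ht hh

theorem t10_ff_split (G : OrGraph V E) (lo hi : E → ℤ) (X Y : Finset V) (hY : Y ⊆ X)
    (hno : ∀ e, G.t e ∈ X → G.h e ∈ X → (G.t e ∈ Y ↔ G.h e ∈ Y)) :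
    ff G.t G.h lo hi (fun _ => 0) X =
      ff G.t G.h lo hi (fun _ => 0) Y + ff G.t G.h lo hi (fun _ => 0) (X \ Y) := by
  unfold ff
  simp only [Finset.sum_const_zero, zero_add]
  rw [← Finset.sum_add_distrib]
  refine Finset.sum_congr rfl fun e _ => ?_
  have h1 := hno e
  have h2 := @hY (G.t e)
  have h3 := @hY (G.h e)
  unfold ce
  by_cases a : G.t e ∈ X <;> by_cases b : G.h e ∈ X <;> by_cases c : G.t e ∈ Y <;>
    by_cases d : G.h e ∈ Y <;> simp_all

theorem t10_ff_split_compl (G : OrGraph V E) (lo hi : E → ℤ) (X Y : Finset V) (hY : Y ⊆ Xᶜ)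
    (hno : ∀ e, G.t e ∈ Xᶜ → G.h e ∈ Xᶜ → (G.t e ∈ Y ↔ G.h e ∈ Y)) :
    ff G.t G.h lo hi (fun _ => 0) X =
      ff G.t G.h lo hi (fun _ => 0) Yᶜ + ff G.t G.h lo hi (fun _ => 0) (Xᶜ \ Y)ᶜ := by
  unfold ff
  simp only [Finset.sum_const_zero, zero_add]
  rw [← Finset.sum_add_distrib]
  refine Finset.sum_congr rfl fun e _ => ?_
  have h1 := hno e
  have h2 := @hY (G.t e)
  have h3 := @hY (G.h e)
  unfold ce
  simp only [Finset.mem_compl, Finset.mem_sdiff] at h1 h2 h3 ⊢
  by_cases a : G.t e ∈ X <;> by_cases b : G.h e ∈ X <;> by_cases c : G.t e ∈ Y <;>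
    by_cases d : G.h e ∈ Y <;> simp_all

theorem t10_compl_conn (G : OrGraph V E)
    (hG : ∀ X : Finset V, X.Nonempty → Xᶜ.Nonempty → (G.cut X).Nonempty)
    (X Y : Finset V) (hX : Conn G Xᶜ) (hY : Y ⊆ X) (hYne : Y.Nonempty)
    (hno : ∀ e, G.t e ∈ X → G.h e ∈ X → (G.t e ∈ Y ↔ G.h e ∈ Y)) : Conn G Yᶜ := by
  intro W hW hWne hWne'
  by_contra hcon
  push Not at hcon
  have hcon' : ∀ e, G.t e ∈ Yᶜ → G.h e ∈ Yᶜ → (G.t e ∈ W ↔ G.h e ∈ W) := by
    intro e h1 h2
    by_contra h3
    exact hcon e ((t10_mem_cut_iff G W e).2 h3) h1 h2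
  -- a subset of `X \ Y` which is closed inside `Yᶜ` gives a contradiction
  have key : ∀ Z : Finset V, Z ⊆ X \ Y → Z.Nonempty →
      (∀ e, G.t e ∈ Yᶜ → G.h e ∈ Yᶜ → (G.t e ∈ Z ↔ G.h e ∈ Z)) → False := by
    intro Z hZ hZne hZc
    obtain ⟨y, hy⟩ := hYne
    have hyZ : y ∈ Zᶜ := by
      rw [Finset.mem_compl]
      intro h
      exact (Finset.mem_sdiff.1 (hZ h)).2 hy
    obtain ⟨e, he⟩ := hG Z hZne ⟨y, hyZ⟩
    rw [t10_mem_cut_iff] at he
    have h1 := hZc e
    have h2 := hno e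
    have h3 : G.t e ∈ Z → G.t e ∈ X ∧ G.t e ∉ Y := fun h => Finset.mem_sdiff.1 (hZ h)
    have h4 : G.h e ∈ Z → G.h e ∈ X ∧ G.h e ∉ Y := fun h => Finset.mem_sdiff.1 (hZ h)
    have h5 := @hY (G.t e)
    have h6 := @hY (G.h e)
    simp only [Finset.mem_compl] at h1
    by_cases a : G.t e ∈ Z <;> by_cases b : G.h e ∈ Z
    · exact he (by simp [a, b])
    · obtain ⟨h7, h8⟩ := h3 a
      by_cases c : G.h e ∈ Y
      · exact h8 ((h2 h7 (h6 c)).2 c)
      · exact b ((h1 h8 c).1 a)
    · obtain ⟨h7, h8⟩ := h4 b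
      by_cases c : G.t e ∈ Y
      · exact h8 ((h2 (h5 c) h7).1 c)
      · exact a ((h1 c h8).2 b)
    · exact he (by simp [a, b])
  have hdich : W ∩ Xᶜ = ∅ ∨ Xᶜ \ W = ∅ := by
    by_contra hne
    push Not at hne
    obtain ⟨h1, h2⟩ := hne
    obtain ⟨e, he, h3, h4⟩ := hX (W ∩ Xᶜ) Finset.inter_subset_right
      (Finset.nonempty_iff_ne_empty.2 (by
        intro h; rw [h] at h1; simp at h1))
      (by
        rw [Finset.nonempty_iff_ne_empty]
        intro h
        have : Xᶜ \ W = ∅ := by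
          rw [← h]
          ext x
          simp only [Finset.mem_sdiff, Finset.mem_inter]
          tauto
        rw [this] at h2; simp at h2)
    rw [t10_mem_cut_iff] at he
    have h5 : G.t e ∈ Yᶜ := by
      rw [Finset.mem_compl] at h3 ⊢
      exact fun h => h3 (hY h)
    have h6 : G.h e ∈ Yᶜ := by
      rw [Finset.mem_compl] at h4 ⊢
      exact fun h => h4 (hY h)
    have h7 := hcon' e h5 h6
    apply he
    simp only [Finset.mem_inter]
    tauto
  rcases hdich with hd | hd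
  · refine key W (fun x hx => ?_) hWne hcon'
    rw [Finset.mem_sdiff]
    refine ⟨?_, Finset.mem_compl.1 (hW hx)⟩
    by_contra hxX
    have : x ∈ W ∩ Xᶜ := Finset.mem_inter.2 ⟨hx, Finset.mem_compl.2 hxX⟩
    rw [hd] at this
    simp at this
  · refine key (Yᶜ \ W) (fun x hx => ?_) hWne' (fun e h1 h2 => ?_)
    · rw [Finset.mem_sdiff, Finset.mem_compl] at hx
      rw [Finset.mem_sdiff]
      refine ⟨?_, hx.1⟩
      by_contra hxX
      have : x ∈ Xᶜ \ W := Finset.mem_sdiff.2 ⟨Finset.mem_compl.2 hxX, hx.2⟩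
      rw [hd] at this
      simp at this
    · have := hcon' e h1 h2
      simp only [Finset.mem_sdiff]
      tauto

theorem t10_step1 (G : OrGraph V E) (lo hi : E → ℤ)
    (hG : ∀ X : Finset V, X.Nonempty → Xᶜ.Nonempty → (G.cut X).Nonempty)
    (h : ∀ X : Finset V, X.Nonempty → Xᶜ.Nonempty → Conn G X → Conn G Xᶜ →
      0 ≤ ff G.t G.h lo hi (fun _ => 0) X) (n : ℕ) :
    ∀ X : Finset V, X.card = n → X.Nonempty → Xᶜ.Nonempty → Conn G Xᶜ →
      0 ≤ ff G.t G.h lo hi (fun _ => 0) X := by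
  induction n using Nat.strong_induction_on with
  | _ n ih =>
    intro X hXn hXne hXcne hXc
    by_cases hX : Conn G X
    · exact h X hXne hXcne hX hXc
    · obtain ⟨Y, hY, hYne, hYne', hno⟩ := t10_not_conn G X hX
      rw [t10_ff_split G lo hi X Y hY hno]
      have hno' : ∀ e, G.t e ∈ X → G.h e ∈ X → (G.t e ∈ X \ Y ↔ G.h e ∈ X \ Y) := by
        intro e h1 h2
        have := hno e h1 h2
        simp only [Finset.mem_sdiff]
        tauto
      have hc1 : Y.card < n := by
        rw [← hXn]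
        apply Finset.card_lt_card
        refine ⟨hY, fun hsub => ?_⟩
        obtain ⟨x, hx⟩ := hYne'
        rw [Finset.mem_sdiff] at hx
        exact hx.2 (hsub hx.1)
      have hc2 : (X \ Y).card < n := by
        rw [← hXn]
        apply Finset.card_lt_card
        refine ⟨Finset.sdiff_subset, fun hsub => ?_⟩
        obtain ⟨x, hx⟩ := hYne
        exact (Finset.mem_sdiff.1 (hsub (hY hx))).2 hx
      have hn1 : (Yᶜ).Nonempty := hXcne.mono (Finset.compl_subset_compl.2 hY)
      have hn2 : ((X \ Y)ᶜ).Nonempty :=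
        hXcne.mono (Finset.compl_subset_compl.2 Finset.sdiff_subset)
      have h1 := ih _ hc1 Y rfl hYne hn1 (t10_compl_conn G hG X Y hXc hY hYne hno)
      have h2 := ih _ hc2 (X \ Y) rfl hYne' hn2
        (t10_compl_conn G hG X (X \ Y) hXc Finset.sdiff_subset hYne' hno')
      linarith

theorem t10_step2 (G : OrGraph V E) (lo hi : E → ℤ)
    (hG : ∀ X : Finset V, X.Nonempty → Xᶜ.Nonempty → (G.cut X).Nonempty)
    (h : ∀ X : Finset V, X.Nonempty → Xᶜ.Nonempty → Conn G X → Conn G Xᶜ →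
      0 ≤ ff G.t G.h lo hi (fun _ => 0) X) (n : ℕ) :
    ∀ X : Finset V, Xᶜ.card = n → X.Nonempty → Xᶜ.Nonempty →
      0 ≤ ff G.t G.h lo hi (fun _ => 0) X := by
  induction n using Nat.strong_induction_on with
  | _ n ih =>
    intro X hXn hXne hXcne
    by_cases hXc : Conn G Xᶜ
    · exact t10_step1 G lo hi hG h X.card X rfl hXne hXcne hXc
    · obtain ⟨Y, hY, hYne, hYne', hno⟩ := t10_not_conn G Xᶜ hXc
      rw [t10_ff_split_compl G lo hi X Y hY hno]
      have hc1 : ((Yᶜ)ᶜ).card < n := by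
        rw [← hXn, compl_compl]
        apply Finset.card_lt_card
        refine ⟨hY, fun hsub => ?_⟩
        obtain ⟨x, hx⟩ := hYne'
        rw [Finset.mem_sdiff] at hx
        exact hx.2 (hsub hx.1)
      have hc2 : (((Xᶜ \ Y)ᶜ)ᶜ).card < n := by
        rw [← hXn, compl_compl]
        apply Finset.card_lt_card
        refine ⟨Finset.sdiff_subset, fun hsub => ?_⟩
        obtain ⟨x, hx⟩ := hYne
        exact (Finset.mem_sdiff.1 (hsub (hY hx))).2 hx
      have hs1 : X ⊆ Yᶜ := by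
        intro x hx
        rw [Finset.mem_compl]
        intro hxY
        exact Finset.mem_compl.1 (hY hxY) hx
      have hs2 : X ⊆ (Xᶜ \ Y)ᶜ := by
        intro x hx
        rw [Finset.mem_compl]
        intro hxY
        exact Finset.mem_compl.1 (Finset.mem_sdiff.1 hxY).1 hx
      have h1 := ih _ hc1 Yᶜ rfl (hXne.mono hs1) (by rw [compl_compl]; exact hYne)
      have h2 := ih _ hc2 (Xᶜ \ Y)ᶜ rfl (hXne.mono hs2) (by rw [compl_compl]; exact hYne')
      linarith

theorem ff_of_conn (G : OrGraph V E) (lo hi : E → ℤ)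
    (hG : ∀ X : Finset V, X.Nonempty → Xᶜ.Nonempty → (G.cut X).Nonempty)
    (h : ∀ X : Finset V, X.Nonempty → Xᶜ.Nonempty → Conn G X → Conn G Xᶜ →
      0 ≤ ff G.t G.h lo hi (fun _ => 0) X) (X : Finset V) :
    0 ≤ ff G.t G.h lo hi (fun _ => 0) X := by
  by_cases hX : X.Nonempty
  · by_cases hXc : Xᶜ.Nonempty
    · exact t10_step2 G lo hi hG h Xᶜ.card X rfl hX hXc
    · rw [Finset.not_nonempty_iff_eq_empty, Finset.compl_eq_empty_iff] at hXc
      subst hXc
      unfold ff ce
      simp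
  · rw [Finset.not_nonempty_iff_eq_empty] at hX
    subst hX
    unfold ff ce
    simp

theorem pair_of_conn (G : OrGraph V E) (hc : G.Cubic) (F : Finset E) (hF : G.IsTwoFactor F)
    (hG : ∀ X : Finset V, X.Nonempty → Xᶜ.Nonempty → (G.cut X).Nonempty)
    (U : Finset V) (B : Finset E) (hBF : B ⊆ F) (hB : ∀ v, G.deg B v = if v ∈ U then 0 else 1)
    (τ : V → V) (hτ : ∀ u ∈ U, τ u ∈ U ∧ τ (τ u) = u ∧ τ u ≠ u)
    (hq : ∀ X : Finset V, X.Nonempty → Xᶜ.Nonempty → Conn G X → Conn G Xᶜ →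
      (G.cut X ∩ F).card < 2 * sep U τ X → 5 * sep U τ X ≤ (G.cut X).card + 1) :
    ∃ φ₂ φ₄ : E → ℤ, G.IsHalfFlowPair φ₂ φ₄ ∧ ∀ e, φ₂ e ≠ 0 ↔ e ∈ F := by
  classical
  have hdegM : ∀ v, G.deg Fᶜ v = 1 := deg_compl G hc F hF
  obtain ⟨ψ, hψ1, hψ2⟩ := exists_orientation_pairing G Fᶜ B
    (Finset.disjoint_of_subset_right hBF disjoint_compl_left) hdegM U hB τ hτ
  obtain ⟨φ₂, h21, h22⟩ := eulerian G.t G.h F (fun v => by
    have := hF v
    unfold deg at this
    rw [this]; decide)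
  obtain ⟨φ₄, h41, h42⟩ := hoffman G.t G.h
    (fun e => if e ∈ F then -3 else if ψ e = 1 then 2 else -3)
    (fun e => if e ∈ F then 3 else if ψ e = 1 then 3 else -2)
    (fun _ => 0) (fun e => by split_ifs <;> simp) (by simp) (by
      refine ff_of_conn G _ _ hG (fun X hXne hXcne hXc hXcc => ?_)
      -- twice the Hoffman function
      have hff : 2 * ff G.t G.h (fun e => if e ∈ F then -3 else if ψ e = 1 then 2 else -3)
          (fun e => if e ∈ F then 3 else if ψ e = 1 then 3 else -2) (fun _ => 0) X =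
          6 * (G.cut X ∩ F).card + (G.cut X ∩ Fᶜ).card -
            5 * ∑ v ∈ X, net G.t G.h ψ v := by
        unfold ff
        rw [net_sum]
        have e1 : ((G.cut X ∩ F).card : ℤ) = ∑ e, if e ∈ G.cut X ∩ F then 1 else 0 := by
          simp only [Finset.sum_boole]
          congr 2
          ext e; simp
        have e2 : ((G.cut X ∩ Fᶜ).card : ℤ) = ∑ e, if e ∈ G.cut X ∩ Fᶜ then 1 else 0 := by
          simp only [Finset.sum_boole]
          congr 2
          ext e; simp
        rw [e1, e2, Finset.mul_sum, Finset.mul_sum, ← Finset.sum_add_distrib,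
          ← Finset.sum_sub_distrib]
        rw [Finset.sum_const_zero, zero_add, Finset.mul_sum]
        refine Finset.sum_congr rfl fun e _ => ?_
        unfold ce
        by_cases he : e ∈ F
        · have h0 : ψ e = 0 := (hψ1 e).2 (by simpa using he)
          by_cases a : G.t e ∈ X <;> by_cases b : G.h e ∈ X <;> simp [a, b, he, cut, h0]
        · rcases (hψ1 e).1 (by simpa using he) with h | h <;>
          by_cases a : G.t e ∈ X <;> by_cases b : G.h e ∈ X <;> simp [a, b, he, cut, h]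
      have hm := G.abs_net_le ψ Fᶜ (fun e he => by
        rcases (hψ1 e).1 he with h | h <;> rw [h] <;> simp) (fun e he => (hψ1 e).2 he) X
      have hpar := net_parity G ψ Fᶜ (fun e he => (hψ1 e).1 he) (fun e he => (hψ1 e).2 he) X
      have hb' := hψ2 X
      have hbf : (G.cut X ∩ B).card ≤ (G.cut X ∩ F).card :=
        Finset.card_le_card (Finset.inter_subset_inter_left hBF)
      have hhs := G.handshake F X
      rw [Finset.sum_congr rfl (fun v _ => hF v)] at hhs
      simp only [Finset.sum_const, smul_eq_mul] at hhs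
      have hcard := cut_card G F X
      have hqX := hq X hXne hXcne hXc hXcc
      rw [abs_le] at hm hb'
      by_cases hcase : (G.cut X ∩ F).card < 2 * sep U τ X
      · have := hqX hcase
        omega
      · omega)
  refine ⟨φ₂, φ₄, ⟨⟨fun e => ?_, G.isFlow_of_net h22⟩, ⟨fun e => ?_, G.isFlow_of_net h42⟩,
    fun e he => ?_⟩, fun e => ?_⟩
  · by_cases he : e ∈ F
    · rcases (h21 e).1 he with h | h <;> rw [h] <;> simp
    · rw [(h21 e).2 he]; simp
  · have h1 := h41 e
    rw [abs_le]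
    push_cast
    split_ifs at h1 <;> constructor <;> omega
  · have he' : e ∉ F := by
      intro heF
      rcases (h21 e).1 heF with h | h <;> rw [h] at he <;> simp at he
    have h1 := h41 e
    rw [if_neg he', if_neg he'] at h1
    rw [le_abs]
    split_ifs at h1
    · left; exact h1.1
    · right; omega
  · constructor
    · intro h
      by_contra he
      exact h ((h21 e).2 he)
    · intro he
      rcases (h21 e).1 he with h | h <;> rw [h] <;> simp

end T10

end Pool.Agent.H185C
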