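import Pool.Agent.H185C.Defs

/-!
T11 (helper501): nowhere-zero 5-flow from a `1/2`-flow-pair.
-/

set_option autoImplicit false

namespace Pool.Agent.H185C
open Finset Pool.Agent.H160R2.HF Pool.Agent.H160R2.HF.OrGraph Pool.Agent.H884R2.HFP

variable {V E : Type*} [Fintype V] [Fintype E] [DecidableEq V] [DecidableEq E]

theorem five_flow (G : OrGraph V E) (φ₂ φ₄ : E → ℤ) (h : G.IsHalfFlowPair φ₂ φ₄) :
    ∃ φ : E → ℤ, G.IsFlow φ ∧ ∀ e, 1 ≤ |φ e| ∧ |φ e| ≤ 4 := by
  obtain ⟨⟨h2, f2⟩, ⟨h4, f4⟩, hz⟩ := h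
  -- the flow with values between 2 and 8
  obtain ⟨φ, hφ⟩ : ∃ φ : E → ℤ, ∀ e, φ e = 5 * φ₂ e + φ₄ e := ⟨_, fun e => rfl⟩
  have hφf : G.IsFlow φ := by
    intro v
    have a2 := f2 v
    have a4 := f4 v
    simp only [hφ, Finset.sum_add_distrib, ← Finset.mul_sum]
    rw [a2, a4]
  have hφb : ∀ e, 2 ≤ |φ e| ∧ |φ e| ≤ 8 := by
    intro e
    have b2 := h2 e
    have b4 := h4 e
    have bz := hz e
    rw [hφ]
    push_cast at b2 b4
    rw [abs_le] at b2 b4
    by_cases h0 : φ₂ e = 0
    · have := bz h0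
      rw [le_abs] at this
      rw [le_abs, abs_le]
      omega
    · rw [le_abs, abs_le]
      omega
  have hnet : ∀ X : Finset V, ∑ v ∈ X, net G.t G.h φ v = 0 := by
    intro X
    apply Finset.sum_eq_zero
    intro v _
    unfold net
    rw [sub_eq_zero]
    exact hφf v
  obtain ⟨g, hg1, hg2⟩ := hoffman G.t G.h (fun e => if 0 < φ e then 1 else -4)
    (fun e => if 0 < φ e then 4 else -1) (fun _ => 0)
    (fun e => by show (if 0 < φ e then (1:ℤ) else -4) ≤ (if 0 < φ e then (4:ℤ) else -1)
                 split_ifs <;> norm_num)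
    (by simp) (by
      intro X
      unfold ff
      rw [Finset.sum_const_zero, zero_add]
      have h1 := hnet X
      rw [net_sum] at h1
      have h3 : -(∑ e, ((if G.t e ∈ X then φ e else 0) - (if G.h e ∈ X then φ e else 0))) ≤
          2 * ∑ e, ce G.t G.h (fun e => if 0 < φ e then 1 else -4)
          (fun e => if 0 < φ e then 4 else -1) X e := by
        rw [← Finset.sum_neg_distrib, Finset.mul_sum]
        apply Finset.sum_le_sum
        intro e _
        have hb := hφb e
        rw [le_abs, abs_le] at hb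
        unfold ce
        by_cases a : G.t e ∈ X <;> by_cases b : G.h e ∈ X <;> by_cases c : 0 < φ e <;>
          simp [a, b, c] <;> omega
      linarith)
  refine ⟨g, ?_, ?_⟩
  · intro v
    have := hg2 v
    unfold net at this
    rw [sub_eq_zero] at this
    exact this
  · intro e
    have h1 := (hg1 e).1
    have h2 := (hg1 e).2
    have hb := hφb e
    rw [le_abs, abs_le]
    by_cases c : 0 < φ e
    · simp only [if_pos c] at h1 h2
      omega
    · simp only [if_neg c] at h1 h2
      omega

end Pool.Agent.H185C
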