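import Pool.Agent.H185C.Defs

set_option autoImplicit false
set_option linter.unusedSectionVars false

/-!
Task T17: the cut counting theorem (helper215).
-/

namespace Pool.Agent.H185C
open Finset Pool.Agent.H160R2.HF Pool.Agent.H160R2.HF.OrGraph Pool.Agent.H884R2.HFP

universe u v w

namespace T17

variable {V : Type u} {E : Type v} [Fintype V] [Fintype E] [DecidableEq V] [DecidableEq E]

theorem cut_compl (G : OrGraph V E) (X : Finset V) : G.cut Xᶜ = G.cut X := by
  unfold OrGraph.cut
  ext e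
  simp only [Finset.mem_filter, Finset.mem_univ, true_and, Finset.mem_compl]
  tauto

theorem self_mem_blob (p : V → V) (v : V) : v ∈ blob p v := by
  unfold blob
  simp

/-- merging the ends of an edge reduces the number of classes -/
theorem merge_card_lt (G : OrGraph V E) (p : V → V) (e : E) (he : p (G.t e) ≠ p (G.h e)) :
    (univ.image (merge G p e)).card < (univ.image p).card := by
  apply Finset.card_lt_card
  rw [Finset.ssubset_iff_of_subset]
  · refine ⟨p (G.t e), Finset.mem_image_of_mem _ (Finset.mem_univ _), ?_⟩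
    intro h
    obtain ⟨x, -, hx⟩ := Finset.mem_image.1 h
    unfold merge at hx
    split_ifs at hx with h1
    · exact he hx.symm
    · exact h1 hx
  · intro y hy
    obtain ⟨x, -, hx⟩ := Finset.mem_image.1 hy
    unfold merge at hx
    split_ifs at hx with h1
    · exact hx ▸ Finset.mem_image_of_mem _ (Finset.mem_univ _)
    · exact hx ▸ Finset.mem_image_of_mem _ (Finset.mem_univ _)

theorem wt_le_one (G : OrGraph V E) (g : ℕ → ℝ) (hg : GoodWeight g) (p : V → V) (X : Finset V) :
    wt G g p X ≤ 1 := by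
  unfold wt
  apply Finset.prod_le_one
  · intro e _
    exact mul_nonneg (hg.1 _).1.le (hg.1 _).1.le
  · intro e _
    exact mul_le_one₀ (hg.1 _).2 (hg.1 _).1.le (hg.1 _).2

/-- the hypotheses of the other tasks, for one graph -/
structure Hyp (G : OrGraph V E) (k d : ℕ) (g : ℕ → ℝ) (A : Finset (Finset V)) : Prop where
  cyc : CycConn G k
  acyclic : ∀ X : Finset V, X.Nonempty → ¬ G.HasCycleIn X → X.card + 2 ≤ (G.cut X).card
  mrg : ∀ (p : V → V), (∀ v, Conn G (blob p v)) → ∀ e : E, p (G.t e) ≠ p (G.h e) →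
    ∀ v, Conn G (blob (merge G p e) v)
  phase : ∀ (p : V → V), (∀ v, Conn G (blob p v)) → ∀ z : V,
    (∀ v, (blob p z).card ≤ (blob p v).card) → (blob p z).card + 2 < k →
    ∃ e ∈ G.cut (blob p z), p (G.t e) ≠ p (G.h e) ∧
      (∑ X ∈ A.filter (fun X => ∀ u v, p u = p v → (u ∈ X ↔ v ∈ X)), wt G g p X) ≤
      ∑ X ∈ A.filter (fun X => ∀ u v, merge G p e u = merge G p e v → (u ∈ X ↔ v ∈ X)),
        wt G g (merge G p e) X
  karger : ∀ (lam a : ℕ), 1 ≤ lam → 2 * d ≤ a * lam → 1 ≤ a → ∀ (p : V → V),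
    (∀ X : Finset V, Closed p X → X.Nonempty → Xᶜ.Nonempty → lam ≤ (G.cut X).card) →
    ∀ (B : Finset (Finset V)), (∀ X ∈ B, Closed p X ∧ (G.cut X).card = d) →
    B.card ≤ 2 ^ a * Fintype.card V ^ a

theorem main_sum (G : OrGraph V E) (k : ℕ) (hk : 3 ≤ k) (hn : 2 * k ≤ Fintype.card V) (d : ℕ)
    (g : ℕ → ℝ) (hg : GoodWeight g) (A : Finset (Finset V)) (H : Hyp G k d g A)
    (hA : ∀ X ∈ A, (G.cut X).card = d) (N : ℕ) :
    ∀ p : V → V, (univ.image p).card = N → (∀ v, Conn G (blob p v)) →
      (∑ X ∈ A.filter (fun X => ∀ u v, p u = p v → (u ∈ X ↔ v ∈ X)), wt G g p X) ≤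
        ((2 ^ (2 * d / k + 1) * Fintype.card V ^ (2 * d / k + 1) : ℕ) : ℝ) := by
  induction N using Nat.strong_induction_on with
  | _ N ih =>
    intro p hN hp
    have hV : 0 < Fintype.card V := by omega
    have : Nonempty V := Fintype.card_pos_iff.1 hV
    obtain ⟨z, -, hz⟩ := Finset.exists_min_image (univ : Finset V) (fun v => (blob p v).card)
      Finset.univ_nonempty
    have hmin : ∀ v, (blob p z).card ≤ (blob p v).card := fun v => hz v (Finset.mem_univ v)
    by_cases hs : (blob p z).card + 2 < k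
    · obtain ⟨e, -, hne, hle⟩ := H.phase p hp z hmin hs
      refine le_trans hle ?_
      exact ih _ (hN ▸ merge_card_lt G p e hne) (merge G p e) rfl (H.mrg p hp e hne)
    · have hbig : ∀ v, k ≤ (blob p v).card + 2 := fun v => by
        have := hmin v
        omega
      have hcut : ∀ X : Finset V, Closed p X → X.Nonempty → Xᶜ.Nonempty →
          k ≤ (G.cut X).card := by
        intro X hX h1 h2
        have hsub : ∀ Y : Finset V, Closed p Y → Y.Nonempty → k ≤ Y.card + 2 := by
          intro Y hY hne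
          obtain ⟨y, hy⟩ := hne
          have : blob p y ⊆ Y := by
            intro u hu
            unfold blob at hu
            rw [Finset.mem_filter] at hu
            exact (hY u y hu.2).2 hy
          have h3 := Finset.card_le_card this
          have h4 := hbig y
          omega
        have hXc : Closed p Xᶜ := by
          intro u v huv
          rw [Finset.mem_compl, Finset.mem_compl, hX u v huv]
        by_cases c1 : G.HasCycleIn X
        · by_cases c2 : G.HasCycleIn Xᶜ
          · exact H.cyc X c1 c2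
          · have h3 := H.acyclic Xᶜ h2 c2
            rw [cut_compl] at h3
            exact (hsub Xᶜ hXc h2).trans h3
        · exact (hsub X hX h1).trans (H.acyclic X h1 c1)
      have hB := H.karger k (2 * d / k + 1) (by omega) (by
          have := Nat.lt_div_mul_add (a := 2 * d) (b := k) (by omega)
          nlinarith) (Nat.le_add_left 1 _) p hcut
        (A.filter (fun X => ∀ u v, p u = p v → (u ∈ X ↔ v ∈ X))) (by
          intro X hX
          rw [Finset.mem_filter] at hX
          exact ⟨hX.2, hA X hX.1⟩)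
      refine le_trans (Finset.sum_le_sum fun X _ => wt_le_one G g hg p X) ?_
      rw [Finset.sum_const, nsmul_eq_mul, mul_one]
      exact_mod_cast hB

theorem blob_id (v : V) : blob (fun x : V => x) v = {v} := by
  unfold blob
  ext u
  simp

theorem final (G : OrGraph V E) (k : ℕ) (hk : 3 ≤ k) (hn : 2 * k ≤ Fintype.card V) (d : ℕ)
    (g : ℕ → ℝ) (hg : GoodWeight g) (hg1 : (1 / 1000 : ℝ) ≤ g 1) (A : Finset (Finset V))
    (H : Hyp G k d g A) (hA : ∀ X ∈ A, (G.cut X).card = d) :
    A.card ≤ 1000000 ^ d * (2 * Fintype.card V) ^ (2 * d / k + 1) := by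
  have h := main_sum G k hk hn d g hg A H hA _ (fun x => x) rfl (by
    intro v
    rw [blob_id]
    intro Y hY h1 h2
    exfalso
    obtain ⟨y, hy⟩ := h1
    obtain ⟨z, hz⟩ := h2
    rw [Finset.mem_sdiff, Finset.mem_singleton] at hz
    have h3 := hY hy
    rw [Finset.mem_singleton] at h3
    exact hz.2 (by rw [hz.1, ← h3]; exact hy))
  have h1 : A.filter (fun X => ∀ u v : V, (fun x : V => x) u = (fun x : V => x) v →
      (u ∈ X ↔ v ∈ X)) = A := by
    apply Finset.filter_true_of_mem
    intro X _ u v huv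
    have : u = v := huv
    rw [this]
  rw [h1] at h
  have h2 : ∀ X ∈ A, (1 / 1000000 : ℝ) ^ d ≤ wt G g (fun x => x) X := by
    intro X hX
    unfold wt
    rw [← hA X hX]
    simp only [blob_id, Finset.card_singleton, Finset.prod_const]
    apply pow_le_pow_left₀ (by norm_num)
    nlinarith
  have h3 : (A.card : ℝ) * (1 / 1000000 : ℝ) ^ d ≤
      ((2 ^ (2 * d / k + 1) * Fintype.card V ^ (2 * d / k + 1) : ℕ) : ℝ) := by
    refine le_trans ?_ h
    rw [← nsmul_eq_mul, ← Finset.sum_const]
    exact Finset.sum_le_sum h2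
  have h4 : (A.card : ℝ) ≤ (1000000 : ℝ) ^ d *
      ((2 ^ (2 * d / k + 1) * Fintype.card V ^ (2 * d / k + 1) : ℕ) : ℝ) := by
    have h5 : (A.card : ℝ) = (1000000 : ℝ) ^ d * ((A.card : ℝ) * (1 / 1000000 : ℝ) ^ d) := by
      rw [one_div, inv_pow]
      field_simp
    rw [h5]
    exact mul_le_mul_of_nonneg_left h3 (by positivity)
  have h6 : (2 * Fintype.card V) ^ (2 * d / k + 1) =
      2 ^ (2 * d / k + 1) * Fintype.card V ^ (2 * d / k + 1) := mul_pow _ _ _
  rw [h6]
  exact_mod_cast h4

end T17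

section
variable {V : Type u} {E : Type v} [Fintype V] [Fintype E] [DecidableEq V] [DecidableEq E]

/-- the cut counting theorem; the last five hypotheses are the statements of `acyclic_le`,
`exists_weight`, `merge_conn`, `phase_step` and `karger` for the graph `G` -/
theorem cut_count_of (G : OrGraph V E) (k : ℕ) (hk : 3 ≤ k) (hG : CycConn G k)
    (hn : 2 * k ≤ Fintype.card V) (d : ℕ) (A : Finset (Finset V))
    (hA : ∀ X ∈ A, Thick G X ∧ (G.cut X).card = d)
    (h1a : ∀ X : Finset V, X.Nonempty → ¬ G.HasCycleIn X → X.card + 2 ≤ (G.cut X).card)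
    (h13 : ∃ g : ℕ → ℝ, GoodWeight g ∧ (1 / 1000 : ℝ) ≤ g 1)
    (h14 : ∀ (p : V → V), (∀ v, Conn G (blob p v)) → ∀ e : E, p (G.t e) ≠ p (G.h e) →
      ∀ v, Conn G (blob (merge G p e) v))
    (h15 : ∀ (g : ℕ → ℝ), GoodWeight g → ∀ (p : V → V), (∀ v, Conn G (blob p v)) → ∀ z : V,
      (∀ v, (blob p z).card ≤ (blob p v).card) → (blob p z).card + 2 < k →
      ∀ A : Finset (Finset V), (∀ X ∈ A, Thick G X) →
      ∃ e ∈ G.cut (blob p z), p (G.t e) ≠ p (G.h e) ∧
        (∑ X ∈ A.filter (fun X => ∀ u v, p u = p v → (u ∈ X ↔ v ∈ X)), wt G g p X) ≤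
        ∑ X ∈ A.filter (fun X => ∀ u v, merge G p e u = merge G p e v → (u ∈ X ↔ v ∈ X)),
          wt G g (merge G p e) X)
    (h16 : ∀ (lam a d : ℕ), 1 ≤ lam → 2 * d ≤ a * lam → 1 ≤ a → ∀ (p : V → V),
      (∀ X : Finset V, Closed p X → X.Nonempty → Xᶜ.Nonempty → lam ≤ (G.cut X).card) →
      ∀ (B : Finset (Finset V)), (∀ X ∈ B, Closed p X ∧ (G.cut X).card = d) →
      0 < Fintype.card V → B.card ≤ 2 ^ a * Fintype.card V ^ a) :
    A.card ≤ 1000000 ^ d * (2 * Fintype.card V) ^ (2 * d / k + 1) := by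
  obtain ⟨g, hg, hg1⟩ := h13
  exact T17.final G k hk hn d g hg hg1 A
    { cyc := hG
      acyclic := h1a
      mrg := h14
      phase := fun p hp z hmin hz => h15 g hg p hp z hmin hz A (fun X hX => (hA X hX).1)
      karger := fun lam a hl hd ha p h B hB => h16 lam a d hl hd ha p h B hB (by omega) }
    (fun X hX => (hA X hX).2)

end

end Pool.Agent.H185C
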