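import Pool.Agent.H185C.Defs

/-!
T24: the numerical estimate.
-/

set_option autoImplicit false

namespace Pool.Agent.H185C
open Finset

theorem t24_choose (d t : ℕ) (ht : 1 ≤ t) (hdt : d ≤ 5 * t) :
    ((2 * LL * d).choose t : ℝ) ≤ ((2:ℝ) ^ 27) ^ t := by
  have h1 : ((2 * LL * d).choose t : ℝ) ≤ ((2 * LL * d : ℕ) : ℝ) ^ t / (t.factorial : ℝ) :=
    Nat.choose_le_pow_div t (2 * LL * d)
  have htpos : (0:ℝ) < t := by exact_mod_cast ht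
  have hf : (0:ℝ) < (t.factorial : ℝ) := by exact_mod_cast t.factorial_pos
  have h2 : (t:ℝ) ^ t / (t.factorial : ℝ) ≤ Real.exp t :=
    Real.pow_div_factorial_le_exp (t:ℝ) htpos.le t
  have h3 : Real.exp t ≤ 3 ^ t := by
    have : Real.exp (t:ℝ) = (Real.exp 1) ^ t := by
      rw [← Real.exp_nat_mul]; simp
    rw [this]
    exact pow_le_pow_left₀ (Real.exp_pos 1).le Real.exp_one_lt_three.le t
  have h4 : ((2 * LL * d : ℕ) : ℝ) ^ t / (t.factorial : ℝ) =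
      (((2 * LL * d : ℕ) : ℝ) / t) ^ t * ((t:ℝ) ^ t / (t.factorial : ℝ)) := by
    rw [div_pow]
    field_simp
  have h5 : ((2 * LL * d : ℕ) : ℝ) / t ≤ 10 * LL := by
    rw [div_le_iff₀ htpos]
    have : 2 * LL * d ≤ 10 * LL * t := by
      calc 2 * LL * d ≤ 2 * LL * (5 * t) := Nat.mul_le_mul_left _ hdt
        _ = 10 * LL * t := by ring
    exact_mod_cast this
  have h6 : (0:ℝ) ≤ ((2 * LL * d : ℕ) : ℝ) / t := by positivity
  calc ((2 * LL * d).choose t : ℝ) ≤ ((2 * LL * d : ℕ) : ℝ) ^ t / (t.factorial : ℝ) := h1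
    _ = (((2 * LL * d : ℕ) : ℝ) / t) ^ t * ((t:ℝ) ^ t / (t.factorial : ℝ)) := h4
    _ ≤ (10 * LL : ℝ) ^ t * 3 ^ t := by
        apply mul_le_mul (pow_le_pow_left₀ h6 h5 t) (h2.trans h3) (by positivity)
        positivity
    _ = (30 * LL : ℝ) ^ t := by rw [← mul_pow]; ring
    _ ≤ ((2:ℝ) ^ 27) ^ t := by
        apply pow_le_pow_left₀ (by positivity)
        have : (LL : ℝ) = 2 ^ 22 := by unfold LL; norm_num
        rw [this]; norm_num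

theorem t24_term (k n d : ℕ) (hk : 2 ^ 80 * (2 ^ 1680 * 2 ^ 448) ≤ k) (hkd : k ≤ d) (hn : n ^ 16 ≤ k ^ k) :
    ((1000000 : ℝ) ^ d * (2 * n) ^ (2 * d / k + 1) *
      ((2 * LL * d).choose (d / 5 + 1) : ℝ) * (2 / k) ^ (d / 5 + 1)) ≤ (1 / 2) ^ d := by
  have hk3 : 3 ≤ k := by
    have h21 : 0 < 2 ^ 1680 * 2 ^ 448 := by positivity
    have h22 : (2:ℕ) ^ 80 * 1 ≤ k := (Nat.mul_le_mul_left _ h21).trans hk
    norm_num at h22
    omega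
  have hkpos : (0:ℝ) < k := by
    have : 0 < k := by omega
    exact_mod_cast this
  have hkR : (2:ℝ) ^ 80 * (2 ^ 1680 * 2 ^ 448) ≤ k := by exact_mod_cast hk
  have hkR28 : (2:ℝ) ^ 28 ≤ k := by
    refine le_trans ?_ hkR
    have a1 : (1:ℝ) ≤ 2 ^ 1680 := one_le_pow₀ (by norm_num)
    have a2 : (1:ℝ) ≤ 2 ^ 448 := one_le_pow₀ (by norm_num)
    have a3 : (1:ℝ) ≤ 2 ^ 1680 * 2 ^ 448 := one_le_mul_of_one_le_of_one_le a1 a2
    calc (2:ℝ) ^ 28 ≤ 2 ^ 80 * 1 := by norm_num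
      _ ≤ 2 ^ 80 * (2 ^ 1680 * 2 ^ 448) := mul_le_mul_of_nonneg_left a3 (by norm_num)
  set q := 2 * d / k + 1 with hq
  set t := d / 5 + 1 with ht
  have hkq : k * q ≤ 3 * d := by
    have h1 : k * (2 * d / k) ≤ 2 * d := Nat.mul_div_le _ _
    calc k * q = k * (2 * d / k) + k := by rw [hq]; ring
      _ ≤ 2 * d + d := by omega
      _ = 3 * d := by ring
  have hqd : q ≤ d := by
    have h1 : 3 * q ≤ k * q := Nat.mul_le_mul_right _ hk3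
    omega
  have hdt : d ≤ 5 * t := by omega
  have hchoose := t24_choose d t (by omega) hdt
  -- n ^ q
  have hN : ((n:ℝ) ^ q) ^ 16 ≤ (k:ℝ) ^ (3 * d) := by
    have h1 : (n ^ q) ^ 16 ≤ k ^ (3 * d) := by
      calc (n ^ q) ^ 16 = (n ^ 16) ^ q := by rw [← pow_mul, ← pow_mul, mul_comm]
        _ ≤ (k ^ k) ^ q := Nat.pow_le_pow_left hn q
        _ = k ^ (k * q) := by rw [← pow_mul]
        _ ≤ k ^ (3 * d) := Nat.pow_le_pow_right (by omega) hkq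
    exact_mod_cast h1
  -- reduce to the product bound
  have hA : ((1000000 : ℝ) ^ d * (2 * n) ^ q * ((2 * LL * d).choose t : ℝ) * (2 / k) ^ t) ≤
      (2000000 : ℝ) ^ d * (n:ℝ) ^ q * ((2:ℝ) ^ 28 / k) ^ t := by
    have e1 : (2 * (n:ℝ)) ^ q ≤ 2 ^ d * (n:ℝ) ^ q := by
      rw [mul_pow]
      apply mul_le_mul_of_nonneg_right _ (by positivity)
      exact pow_le_pow_right₀ (by norm_num) hqd
    have e2 : ((2:ℝ) ^ 28 / k) ^ t = ((2:ℝ) ^ 27) ^ t * (2 / k) ^ t := by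
      rw [← mul_pow]; congr 1; ring
    have e3 : (2000000 : ℝ) ^ d = 1000000 ^ d * 2 ^ d := by
      rw [← mul_pow]; norm_num
    rw [e2, e3]
    calc ((1000000 : ℝ) ^ d * (2 * n) ^ q * ((2 * LL * d).choose t : ℝ) * (2 / k) ^ t)
        ≤ (1000000 : ℝ) ^ d * (2 ^ d * (n:ℝ) ^ q) * ((2:ℝ) ^ 27) ^ t * (2 / k) ^ t := by
          gcongr
      _ = 1000000 ^ d * 2 ^ d * (n:ℝ) ^ q * (((2:ℝ) ^ 27) ^ t * (2 / k) ^ t) := by ring
  refine hA.trans ?_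
  -- take 80th powers
  have hB : ((2000000 : ℝ) ^ d * (n:ℝ) ^ q * ((2:ℝ) ^ 28 / k) ^ t) ^ 80 ≤ ((1 / 2 : ℝ) ^ d) ^ 80 := by
    have f1 : ((2:ℝ) ^ 28 / k) ≤ 1 := by
      rw [div_le_one hkpos]
      exact hkR28
    have f0 : (0:ℝ) ≤ (2:ℝ) ^ 28 / k := by positivity
    have f2 : (((2:ℝ) ^ 28 / k) ^ t) ^ 80 ≤ ((2:ℝ) ^ 28 / k) ^ (16 * d) := by
      rw [← pow_mul]
      exact pow_le_pow_of_le_one f0 f1 (by omega)
    have f3 : (((n:ℝ) ^ q) ^ 80) ≤ (k:ℝ) ^ (15 * d) := by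
      calc (((n:ℝ) ^ q) ^ 80) = (((n:ℝ) ^ q) ^ 16) ^ 5 := by rw [← pow_mul _ 16 5]
        _ ≤ ((k:ℝ) ^ (3 * d)) ^ 5 := pow_le_pow_left₀ (by positivity) hN 5
        _ = (k:ℝ) ^ (15 * d) := by rw [← pow_mul]; congr 1; ring
    have f4 : ((2000000 : ℝ) ^ d) ^ 80 ≤ ((2:ℝ) ^ 1680) ^ d := by
      rw [← pow_mul, mul_comm d 80, pow_mul]
      apply pow_le_pow_left₀ (by positivity)
      calc (2000000 : ℝ) ^ 80 ≤ ((2:ℝ) ^ 21) ^ 80 := pow_le_pow_left₀ (by norm_num) (by norm_num) 80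
        _ = (2:ℝ) ^ 1680 := by rw [← pow_mul]
    have f5 : (k:ℝ) ^ (15 * d) * ((2:ℝ) ^ 28 / k) ^ (16 * d) = ((2:ℝ) ^ 448 / k) ^ d := by
      rw [pow_mul, pow_mul, ← mul_pow]
      congr 1
      rw [div_pow, ← pow_mul]
      field_simp
    calc ((2000000 : ℝ) ^ d * (n:ℝ) ^ q * ((2:ℝ) ^ 28 / k) ^ t) ^ 80
        = ((2000000 : ℝ) ^ d) ^ 80 * ((n:ℝ) ^ q) ^ 80 * (((2:ℝ) ^ 28 / k) ^ t) ^ 80 := by
          rw [mul_pow, mul_pow]
      _ ≤ ((2:ℝ) ^ 1680) ^ d * (k:ℝ) ^ (15 * d) * ((2:ℝ) ^ 28 / k) ^ (16 * d) := by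
          gcongr
      _ = ((2:ℝ) ^ 1680) ^ d * ((2:ℝ) ^ 448 / k) ^ d := by rw [mul_assoc, f5]
      _ = ((2:ℝ) ^ 1680 * 2 ^ 448 / k) ^ d := by
          rw [← mul_pow, mul_div_assoc]
      _ ≤ ((1 / 2 : ℝ) ^ 80) ^ d := by
          have hK0 : (0:ℝ) ≤ (2:ℝ) ^ 1680 * 2 ^ 448 := by positivity
          generalize (2:ℝ) ^ 1680 * 2 ^ 448 = K at hkR hK0 ⊢
          have hKk : K / k ≤ (1 / 2 : ℝ) ^ 80 := by
            rw [div_le_iff₀ hkpos]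
            have g3 := mul_le_mul_of_nonneg_left hkR (by positivity : (0:ℝ) ≤ (1 / 2 : ℝ) ^ 80)
            have g1 : (1 / 2 : ℝ) ^ 80 * 2 ^ 80 = 1 := by rw [← mul_pow]; norm_num
            rw [← mul_assoc, g1, one_mul] at g3
            exact g3
          exact pow_le_pow_left₀ (div_nonneg hK0 hkpos.le) hKk d
      _ = ((1 / 2 : ℝ) ^ d) ^ 80 := by rw [← pow_mul, ← pow_mul, mul_comm]
  exact le_of_pow_le_pow_left₀ (by norm_num) (by positivity) hB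

theorem numeric : ∃ k₀ : ℕ, ∀ k n M : ℕ, k₀ ≤ k → 1 ≤ n → n ^ 16 ≤ k ^ k →
    ∑ d ∈ Finset.Icc k M, ((1000000 : ℝ) ^ d * (2 * n) ^ (2 * d / k + 1) *
      ((2 * LL * d).choose (d / 5 + 1) : ℝ) * (2 / k) ^ (d / 5 + 1)) < 1 := by
  refine ⟨2 ^ 80 * (2 ^ 1680 * 2 ^ 448), fun k n M hk _ hn => ?_⟩
  have hk1 : 1 ≤ k := by
    have h0 : 0 < 2 ^ 80 * (2 ^ 1680 * 2 ^ 448) := by positivity
    exact lt_of_lt_of_le h0 hk
  have h1 : ∑ d ∈ Finset.Icc k M, ((1000000 : ℝ) ^ d * (2 * n) ^ (2 * d / k + 1) *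
      ((2 * LL * d).choose (d / 5 + 1) : ℝ) * (2 / k) ^ (d / 5 + 1)) ≤
      ∑ d ∈ Finset.Icc k M, (1 / 2 : ℝ) ^ d :=
    Finset.sum_le_sum fun d hd => t24_term k n d hk (Finset.mem_Icc.1 hd).1 hn
  have h2 : ∑ d ∈ Finset.Icc k M, (1 / 2 : ℝ) ^ d ≤ ∑ d ∈ Finset.Icc 1 M, (1 / 2 : ℝ) ^ d := by
    apply Finset.sum_le_sum_of_subset_of_nonneg
    · exact Finset.Icc_subset_Icc_left hk1
    · intros; positivity
  have h3 : ∀ m : ℕ, ∑ d ∈ Finset.Icc 1 m, (1 / 2 : ℝ) ^ d = 1 - (1 / 2) ^ m := by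
    intro m
    induction m with
    | zero => simp
    | succ m ih =>
      rw [Finset.sum_Icc_succ_top (by omega), ih, pow_succ]
      ring
  have h4 : (0:ℝ) < (1 / 2) ^ M := by positivity
  rw [h3] at h2
  linarith

end Pool.Agent.H185C
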