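import Pool.Agent.H185C.Defs

/-! T9: the breaks and the matching inside the 2-factor -/

set_option autoImplicit false

namespace Pool.Agent.H185C
open Finset Pool.Agent.H160R2.HF Pool.Agent.H160R2.HF.OrGraph Pool.Agent.H884R2.HFP

namespace T9

/-- a function on the vertices whose sum over each cycle vanishes is a coboundary -/
theorem exists_pot {V : Type*} [Fintype V] [DecidableEq V] (π : Equiv.Perm V) (c : V → ZMod 2)
    (hc : ∀ v, ∑ w ∈ univ.filter (fun w => π.SameCycle v w), c w = 0) :
    ∃ p : V → ZMod 2, ∀ v, p (π v) = p v + c v := by
  let S := Equiv.Perm.SameCycle.setoid π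
  let rep : V → V := fun v => (Quotient.mk S v).out
  have hrep : ∀ v, π.SameCycle (rep v) v := fun v => Quotient.mk_out (s := S) v
  have hrep_eq : ∀ u v, π.SameCycle u v → rep u = rep v := by
    intro u v h
    have : Quotient.mk S u = Quotient.mk S v := Quotient.sound h
    simp only [rep, this]
  have hex : ∀ v, ∃ n : ℕ, (π ^ n) (rep v) = v := by
    intro v
    obtain ⟨i, _, h⟩ := (hrep v).exists_pow_eq'
    exact ⟨i, h⟩
  let idx : V → ℕ := fun v => Nat.find (hex v)
  have hidx : ∀ v, (π ^ (idx v)) (rep v) = v := fun v => Nat.find_spec (hex v)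
  have hmin : ∀ v n, (π ^ n) (rep v) = v → idx v ≤ n := fun v n h => Nat.find_min' (hex v) h
  refine ⟨fun v => ∑ j ∈ range (idx v), c ((π ^ j) (rep v)), fun v => ?_⟩
  have hr : rep (π v) = rep v :=
    (hrep_eq _ _ (Equiv.Perm.SameCycle.refl π v |>.apply_right (f := π))).symm
  have hs : ∑ j ∈ range (idx v), c ((π ^ j) (rep v)) + c v =
      ∑ j ∈ range (idx v + 1), c ((π ^ j) (rep v)) := by
    rw [Finset.sum_range_succ, hidx]
  show ∑ j ∈ range (idx (π v)), c ((π ^ j) (rep (π v))) =
    ∑ j ∈ range (idx v), c ((π ^ j) (rep v)) + c v
  rw [hs, hr]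
  by_cases h0 : idx (π v) = 0
  · rw [h0, Finset.sum_range_zero]
    have hv : π v = rep v := by
      have := hidx (π v)
      rw [h0, hr] at this
      simpa using this.symm
    have hper : (π ^ (idx v + 1)) (rep v) = rep v := by
      rw [pow_succ', Equiv.Perm.mul_apply, hidx, hv]
    have himg : univ.filter (fun w => π.SameCycle v w) =
        (range (idx v + 1)).image (fun j => (π ^ j) (rep v)) := by
      ext w
      simp only [mem_filter, mem_univ, true_and, mem_image, mem_range]
      constructor
      · intro hw
        have h1 : π.SameCycle (rep v) w := (hrep v).trans hw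
        obtain ⟨i, _, hi⟩ := h1.exists_pow_eq'
        refine ⟨i % (idx v + 1), Nat.mod_lt _ (Nat.succ_pos _), ?_⟩
        rw [← hi]
        conv_rhs => rw [← Nat.mod_add_div i (idx v + 1)]
        rw [pow_add, Equiv.Perm.mul_apply, pow_mul]
        congr 1
        have : ∀ m : ℕ, (((π ^ (idx v + 1)) ^ m) (rep v)) = rep v := by
          intro m
          induction m with
          | zero => simp
          | succ m ih => rw [pow_succ', Equiv.Perm.mul_apply, ih, hper]
        exact (this _).symm
      · rintro ⟨j, _, rfl⟩
        exact (hrep v).symm.trans ((Equiv.Perm.SameCycle.refl π (rep v)).pow_right)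
    have h1 := hc v
    rw [himg, Finset.sum_image] at h1
    · exact h1.symm
    · -- injectivity
      have key : ∀ j k : ℕ, j < k → k < idx v + 1 → (π ^ j) (rep v) = (π ^ k) (rep v) → False := by
        intro j k hjk hk h
        have h2 : (π ^ (k - j)) (rep v) = rep v := by
          have : k = j + (k - j) := by omega
          rw [this, pow_add, Equiv.Perm.mul_apply] at h
          exact ((π ^ j).injective h).symm
        have h3 := hmin v (idx v - (k - j)) (by
          have e : idx v = (idx v - (k - j)) + (k - j) := by omega
          have h4 := hidx v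
          rw [e, pow_add, Equiv.Perm.mul_apply, h2] at h4
          exact h4)
        omega
      intro j hj k hk h
      simp only [coe_range, Set.mem_Iio] at hj hk
      rcases lt_trichotomy j k with h2 | h2 | h2
      · exact (key j k h2 hk h).elim
      · exact h2
      · exact (key k j h2 hj h.symm).elim
  · have hstep : idx (π v) = idx v + 1 := by
      have h1 : idx (π v) ≤ idx v + 1 := by
        apply hmin
        rw [hr, pow_succ', Equiv.Perm.mul_apply, hidx]
      obtain ⟨m, hm⟩ := Nat.exists_eq_succ_of_ne_zero h0
      have h3 := hidx (π v)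
      rw [hm, hr, Nat.succ_eq_add_one, pow_succ', Equiv.Perm.mul_apply] at h3
      have h4 := π.injective h3
      have h5 := hmin v m h4
      omega
    rw [hstep]

theorem z2 : ∀ x : ZMod 2, x = 0 ∨ x = 1 := by decide

end T9

variable {V E : Type*} [Fintype V] [Fintype E] [DecidableEq V] [DecidableEq E]

theorem exists_breaks (G : OrGraph V E) (F : Finset E) (π : Equiv.Perm V) (ε : V → E)
    (hπ : IsPerm G F π ε) (P : Finset V) (hP : ∀ v ∈ P, π v ∉ P)
    (hev : ∀ v, Even ((univ.filter (fun w => π.SameCycle v w)).card +
      (P.filter (fun w => π.SameCycle v w)).card)) :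
    ∃ (B : Finset E) (br : V → V), B ⊆ F ∧ (∀ s ∈ P, br s = s ∨ br s = π s) ∧
      ∀ v, G.deg B v = if v ∈ P.image br then 0 else 1 := by
  obtain ⟨hinj, hεF, -, hends⟩ := hπ
  obtain ⟨p, hp⟩ := T9.exists_pot π (fun v => 1 + if v ∈ P then 1 else 0) (by
    intro v
    rw [Finset.sum_add_distrib, Finset.sum_const, nsmul_eq_mul, mul_one, ← Finset.sum_filter,
      Finset.sum_const, nsmul_eq_mul, mul_one]
    have e : ((univ.filter (fun w => π.SameCycle v w)).filter (fun w => w ∈ P)) =
        P.filter (fun w => π.SameCycle v w) := by
      ext w
      simp only [mem_filter, mem_univ, true_and]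
      tauto
    rw [e, ← Nat.cast_add]
    exact (ZMod.natCast_eq_zero_iff_even).2 (hev v))
  let S : Finset V := univ.filter (fun v => p v = 1 ∧ v ∉ P)
  let B : Finset E := S.image ε
  have hdeg : ∀ v, G.deg B v = (if v ∈ S then 1 else 0) + (if π.symm v ∈ S then 1 else 0) := by
    intro v
    have h1 : G.deg B v = ∑ u ∈ S, ((if G.t (ε u) = v then 1 else 0) +
        (if G.h (ε u) = v then 1 else 0)) := by
      unfold deg
      simp_rw [Finset.card_filter]
      rw [← Finset.sum_add_distrib, Finset.sum_image (fun a _ b _ h => hinj h)]
    have h2 : ∀ u, ((if G.t (ε u) = v then 1 else 0) + (if G.h (ε u) = v then 1 else 0) : ℕ) =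
        (if u = v then 1 else 0) + (if u = π.symm v then 1 else 0) := by
      intro u
      have e : (u = π.symm v) ↔ (π u = v) := (Equiv.eq_symm_apply π)
      rcases hends u with ⟨h, h'⟩ | ⟨h, h'⟩
      · rw [h, h']
        simp only [e]
      · rw [h, h', add_comm]
        simp only [e]
    rw [h1, Finset.sum_congr rfl fun u _ => h2 u, Finset.sum_add_distrib,
      Finset.sum_ite_eq', Finset.sum_ite_eq']
  have hS : ∀ v, v ∈ S ↔ p v = 1 ∧ v ∉ P := by
    intro v
    simp [S]
  refine ⟨B, fun s => if p (π.symm s) = 0 then s else π s, ?_, ?_, ?_⟩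
  · intro e he
    obtain ⟨u, _, rfl⟩ := Finset.mem_image.1 he
    exact hεF u
  · intro s _
    by_cases h : p (π.symm s) = 0
    · left; simp [h]
    · right; simp [h]
  · intro v
    have hpv : p v = p (π.symm v) + (1 + if π.symm v ∈ P then 1 else 0) := by
      have := hp (π.symm v)
      rwa [Equiv.apply_symm_apply] at this
    rw [hdeg v]
    simp only [hS, Finset.mem_image]
    by_cases hv : v ∈ P
    · have h1 : π.symm v ∉ P := by
        intro h
        have := hP _ h
        rw [Equiv.apply_symm_apply] at this
        exact this hv
      have h2 : (∃ a ∈ P, (if p (π.symm a) = 0 then a else π a) = v) ↔ p (π.symm v) = 0 := by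
        constructor
        · rintro ⟨a, ha, hav⟩
          by_cases h3 : p (π.symm a) = 0
          · rw [if_pos h3] at hav
            rw [← hav]; exact h3
          · rw [if_neg h3] at hav
            exact absurd hv (hav ▸ hP a ha)
        · intro h3
          exact ⟨v, hv, if_pos h3⟩
      simp only [h2, hv, h1, not_true_eq_false, and_false, if_false, not_false_eq_true, and_true,
        zero_add]
      rcases T9.z2 (p (π.symm v)) with h | h
      · simp [h]
      · simp [h]
    · by_cases hs : π.symm v ∈ P
      · have h2 : (∃ a ∈ P, (if p (π.symm a) = 0 then a else π a) = v) ↔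
            p (π.symm (π.symm v)) ≠ 0 := by
          constructor
          · rintro ⟨a, ha, hav⟩
            by_cases h3 : p (π.symm a) = 0
            · rw [if_pos h3] at hav
              exact absurd (hav ▸ ha) hv
            · rw [if_neg h3] at hav
              rw [← hav, Equiv.symm_apply_apply]; exact h3
          · intro h3
            refine ⟨π.symm v, hs, ?_⟩
            rw [if_neg h3, Equiv.apply_symm_apply]
        have h4 : π.symm (π.symm v) ∉ P := by
          intro h
          have := hP _ h
          rw [Equiv.apply_symm_apply] at this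
          exact this hs
        have hps : p (π.symm v) = p (π.symm (π.symm v)) + 1 := by
          have := hp (π.symm (π.symm v))
          rw [Equiv.apply_symm_apply, if_neg h4, add_zero] at this
          exact this
        rw [if_pos hs, hps] at hpv
        simp only [h2, hv, hs, not_true_eq_false, and_false, if_false, not_false_eq_true,
          and_true, add_zero]
        rcases T9.z2 (p (π.symm (π.symm v))) with h | h
        · rw [h] at hpv
          have : p v = 1 := by rw [hpv]; decide
          simp [this, h]
        · rw [h] at hpv
          have : p v = 0 := by rw [hpv]; decide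
          simp [this, h]
      · have h2 : ¬ ∃ a ∈ P, (if p (π.symm a) = 0 then a else π a) = v := by
          rintro ⟨a, ha, hav⟩
          by_cases h3 : p (π.symm a) = 0
          · rw [if_pos h3] at hav
            exact hv (hav ▸ ha)
          · rw [if_neg h3] at hav
            apply hs
            rw [← hav, Equiv.symm_apply_apply]; exact ha
        rw [if_neg h2]
        rw [if_neg hs, add_zero] at hpv
        simp only [hv, hs, not_false_eq_true, and_true]
        rcases T9.z2 (p (π.symm v)) with h | h
        · rw [h, zero_add] at hpv
          simp [hpv, h]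
        · rw [h] at hpv
          have : p v = 0 := by rw [hpv]; decide
          simp [this, h]

end Pool.Agent.H185C
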