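import Pool.Agent.H185C.Defs

/-!
# The weight function (task T13, helper89)
-/

set_option autoImplicit false

namespace Pool.Agent.H185C

private lemma log_bound (s : ℝ) (hs : 1 ≤ s) :
    Real.log (s + 2) / (s + 1) ≤ 6 / Real.sqrt s - 6 / Real.sqrt (2 * s) := by
  have hs0 : 0 < s := by linarith
  have hr : 0 < Real.sqrt s := Real.sqrt_pos.2 hs0
  have h2 : Real.sqrt (2 * s) = Real.sqrt 2 * Real.sqrt s := Real.sqrt_mul (by norm_num) s
  have hs2 : 0 < Real.sqrt 2 := Real.sqrt_pos.2 (by norm_num)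
  have hs2sq : Real.sqrt 2 * Real.sqrt 2 = 2 := Real.mul_self_sqrt (by norm_num)
  have h3 : 6 / Real.sqrt s - 6 / Real.sqrt (2 * s) = (6 - 3 * Real.sqrt 2) / Real.sqrt s := by
    rw [h2]
    field_simp
    nlinarith [hs2sq]
  have h4 : (7 / 4 : ℝ) ≤ 6 - 3 * Real.sqrt 2 := by
    have : Real.sqrt 2 ≤ 17 / 12 := by
      rw [Real.sqrt_le_left (by norm_num)]
      norm_num
    linarith
  rw [h3]
  set u : ℝ := Real.sqrt (Real.sqrt (s + 2)) with hu
  have hq : 0 < Real.sqrt (s + 2) := Real.sqrt_pos.2 (by linarith)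
  have hu0 : 0 < u := Real.sqrt_pos.2 hq
  have hu2 : u ^ 2 = Real.sqrt (s + 2) := Real.sq_sqrt hq.le
  have hu4 : u ^ 4 = s + 2 := by
    have : u ^ 4 = (u ^ 2) ^ 2 := by ring
    rw [this, hu2, Real.sq_sqrt (by linarith)]
  have hu1 : 1 < u := by
    by_contra h
    push Not at h
    have : u ^ 4 ≤ 1 := pow_le_one₀ hu0.le h
    linarith
  have hlog : Real.log (s + 2) ≤ 4 * (u - 1) := by
    rw [← hu4, Real.log_pow]
    have := Real.log_le_sub_one_of_pos hu0
    push_cast
    linarith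
  have hsr : Real.sqrt s ≤ u ^ 2 := by
    rw [hu2]
    exact Real.sqrt_le_sqrt (by linarith)
  calc Real.log (s + 2) / (s + 1) ≤ 4 * (u - 1) / (s + 1) := by
        apply div_le_div_of_nonneg_right hlog (by linarith)
    _ ≤ (7 / 4) / u ^ 2 := by
        rw [div_le_div_iff₀ (by linarith) (by positivity)]
        have : s + 1 = u ^ 4 - 1 := by linarith
        rw [this]
        have h5 : 0 ≤ (u - 1) * (7 / 4 * (u ^ 3 + u ^ 2 + u + 1) - 4 * u ^ 2) := by
          apply mul_nonneg (by linarith)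
          nlinarith [mul_pos hu0 hu0, mul_nonneg hu0.le (sq_nonneg (u - 1)), hu0]
        nlinarith [h5]
    _ ≤ (6 - 3 * Real.sqrt 2) / u ^ 2 := by
        apply div_le_div_of_nonneg_right h4 (by positivity)
    _ ≤ (6 - 3 * Real.sqrt 2) / Real.sqrt s := by
        apply div_le_div_of_nonneg_left (by linarith) hr hsr

theorem exists_weight : ∃ g : ℕ → ℝ, GoodWeight g ∧ (1 / 1000 : ℝ) ≤ g 1 := by
  refine ⟨fun s => Real.exp (-(6 / Real.sqrt (max (s : ℝ) 1))), ⟨?_, ?_, ?_⟩, ?_⟩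
  · intro s
    refine ⟨Real.exp_pos _, ?_⟩
    rw [Real.exp_le_one_iff]
    have : 0 ≤ 6 / Real.sqrt (max (s : ℝ) 1) := by positivity
    linarith
  · intro s t hst
    apply Real.exp_le_exp.2
    apply neg_le_neg
    apply div_le_div_of_nonneg_left (by norm_num)
    · apply Real.sqrt_pos.2
      exact lt_of_lt_of_le one_pos (le_max_right _ _)
    · apply Real.sqrt_le_sqrt
      apply max_le_max _ le_rfl
      exact_mod_cast hst
  · intro s hs y hy
    have hs' : (1 : ℝ) ≤ s := by exact_mod_cast hs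
    have hy' : (y : ℝ) ≤ s + 1 := by exact_mod_cast hy
    have hy0 : (0 : ℝ) ≤ y := Nat.cast_nonneg y
    have h1 : max (s : ℝ) 1 = s := max_eq_left hs'
    have h2 : max ((2 * s : ℕ) : ℝ) 1 = 2 * s := by
      push_cast
      exact max_eq_left (by linarith)
    simp only [h1, h2]
    rw [← Real.exp_sub, ← Real.exp_nat_mul]
    have hD := log_bound s hs'
    set D : ℝ := 6 / Real.sqrt s - 6 / Real.sqrt (2 * s) with hDdef
    have h3 : -(6 / Real.sqrt (2 * (s : ℝ))) - -(6 / Real.sqrt (s : ℝ)) = D := by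
      rw [hDdef]
      ring
    rw [h3]
    have hθ : (y : ℝ) / (s + 1) ≤ 1 := by
      rw [div_le_one (by linarith)]
      exact hy'
    have hθ0 : (0 : ℝ) ≤ (y : ℝ) / (s + 1) := by positivity
    have hx1 : (s : ℝ) + 2 ∈ Set.Ioi (0 : ℝ) := by
      simp only [Set.mem_Ioi]
      linarith
    have hx2 : (1 : ℝ) ∈ Set.Ioi (0 : ℝ) := by simp
    have hx3 : 0 ≤ 1 - (y : ℝ) / ((s : ℝ) + 1) := by linarith
    have hx4 : 1 - (y : ℝ) / ((s : ℝ) + 1) + (y : ℝ) / ((s : ℝ) + 1) = 1 := by ring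
    have hconc := strictConcaveOn_log_Ioi.concaveOn.2 hx1 hx2 hx3 hθ0 hx4
    simp only [smul_eq_mul, Real.log_one, mul_zero, add_zero, mul_one] at hconc
    have h4 : (1 - (y : ℝ) / (s + 1)) * (s + 2) + (y : ℝ) / (s + 1) = s + 2 - y := by
      have : (s : ℝ) + 1 ≠ 0 := by linarith
      field_simp
      ring
    rw [h4] at hconc
    have hpos : 0 < (s : ℝ) + 2 - y := by linarith
    have h5 : Real.log ((s : ℝ) + 2) ≤ Real.log ((s : ℝ) + 2 - y) + y * D := by
      have h6 : (y : ℝ) / (s + 1) * Real.log (s + 2) ≤ y * D := by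
        calc (y : ℝ) / (s + 1) * Real.log (s + 2) = y * (Real.log (s + 2) / (s + 1)) := by ring
          _ ≤ y * D := mul_le_mul_of_nonneg_left hD hy0
      linarith
    calc (s : ℝ) + 2 = Real.exp (Real.log ((s : ℝ) + 2)) := by
          rw [Real.exp_log (by linarith)]
      _ ≤ Real.exp (Real.log ((s : ℝ) + 2 - y) + y * D) := Real.exp_le_exp.2 h5
      _ = ((s : ℝ) + 2 - y) * Real.exp (y * D) := by
          rw [Real.exp_add, Real.exp_log hpos]
  · have h1 : max ((1 : ℕ) : ℝ) 1 = 1 := by simp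
    simp only [h1, Real.sqrt_one, div_one]
    rw [Real.exp_neg, one_div]
    apply inv_anti₀ (Real.exp_pos _)
    have h2 : Real.exp 6 = Real.exp 1 ^ 6 := by
      rw [← Real.exp_nat_mul]
      norm_num
    rw [h2]
    have h3 : Real.exp 1 ≤ 3 := by
      have := Real.exp_one_lt_d9
      linarith
    calc Real.exp 1 ^ 6 ≤ 3 ^ 6 := pow_le_pow_left₀ (Real.exp_pos _).le h3 6
      _ ≤ 1000 := by norm_num

end Pool.Agent.H185C
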