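import Pool.Agent.H185C.Acyclic
import Pool.Agent.H185C.Blocks
import Pool.Agent.H185C.ConnLe
import Pool.Agent.H185C.CutBlocks
import Pool.Agent.H185C.FarCard
import Pool.Agent.H185C.Join
import Pool.Agent.H185C.Karger
import Pool.Agent.H185C.MergeConn
import Pool.Agent.H185C.NearLem
import Pool.Agent.H185C.PairingEdges
import Pool.Agent.H185C.Perm
import Pool.Agent.H185C.Petersen
import Pool.Agent.H185C.RandTree
import Pool.Agent.H185C.Select
import Pool.Agent.H185C.T10
import Pool.Agent.H185C.T11
import Pool.Agent.H185C.T15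
import Pool.Agent.H185C.T17
import Pool.Agent.H185C.T24
import Pool.Agent.H185C.T9
import Pool.Agent.H185C.Weight

set_option autoImplicit false

namespace Pool.Agent.H185C
open Finset Pool.Agent.H160R2.HF Pool.Agent.H160R2.HF.OrGraph Pool.Agent.H884R2.HFP

universe u v

variable {V : Type u} {E : Type v} [Fintype V] [Fintype E] [DecidableEq V] [DecidableEq E]

/-- the cut counting theorem -/
theorem cut_count (G : OrGraph V E) (hc : G.Cubic) (k : ℕ) (hk : 3 ≤ k) (hG : CycConn G k)
    (hn : 2 * k ≤ Fintype.card V) (d : ℕ) (A : Finset (Finset V))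
    (hA : ∀ X ∈ A, Thick G X ∧ (G.cut X).card = d) :
    A.card ≤ 1000000 ^ d * (2 * Fintype.card V) ^ (2 * d / k + 1) :=
  cut_count_of G k hk hG hn d A hA (fun X hX h => acyclic_le G hc X hX h) exists_weight
    (fun p hp e he v => merge_conn G p hp e he v)
    (fun g hg p hp z hmin hz A hA => phase_step G hc k hG hn g hg p hp z hmin hz A hA)
    (fun lam a d hl hd ha p h B hB hV => karger G lam a d hl hd ha p h B hB hV)

end Pool.Agent.H185C
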