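import Pool.Agent.H884R2.HFP.Main

/-!
Definitions for the theorem: cyclically `k`-edge-connected cubic graphs with `n ^ 16 ≤ k ^ k`
have `1/2`-flow-pairs (and nowhere-zero 5-flows).  MP_e59a69_co.
-/

set_option autoImplicit false

namespace Pool.Agent.H185C
open Finset Pool.Agent.H160R2.HF Pool.Agent.H160R2.HF.OrGraph Pool.Agent.H884R2.HFP

section graph
variable {V E : Type*} [Fintype V] [Fintype E] [DecidableEq V] [DecidableEq E]

/-- cyclically `k`-edge-connected: every edge cut with a cycle on both sides has at least `k`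
edges -/
def CycConn (G : OrGraph V E) (k : ℕ) : Prop :=
  ∀ X : Finset V, G.HasCycleIn X → G.HasCycleIn Xᶜ → k ≤ (G.cut X).card

/-- `X` induces a connected subgraph (the empty set counts as connected): every nonempty proper
part `Y` of `X` is joined to `X \ Y` by an edge. -/
def Conn (G : OrGraph V E) (X : Finset V) : Prop :=
  ∀ Y ⊆ X, Y.Nonempty → (X \ Y).Nonempty → ∃ e ∈ G.cut Y, G.t e ∈ X ∧ G.h e ∈ X

/-- there is a walk of length at most `r` from `u` to `v` -/
def Near (G : OrGraph V E) : ℕ → V → V → Prop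
  | 0, u, v => u = v
  | r + 1, u, v => Near G r u v ∨
      ∃ e, (Near G r u (G.t e) ∧ G.h e = v) ∨ (Near G r u (G.h e) ∧ G.t e = v)

/-- the sets counted by the cut lemma: connected with a cycle, on both sides -/
def Thick (G : OrGraph V E) (X : Finset V) : Prop :=
  Conn G X ∧ Conn G Xᶜ ∧ G.HasCycleIn X ∧ G.HasCycleIn Xᶜ

/-- `X` is a union of classes of the labelling `p` -/
def Closed (p : V → V) (X : Finset V) : Prop := ∀ u v, p u = p v → (u ∈ X ↔ v ∈ X)

/-- the class of `v` -/
def blob (p : V → V) (v : V) : Finset V := univ.filter (fun u => p u = p v)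

/-- merge the classes of the two ends of the edge `e` -/
def merge (G : OrGraph V E) (p : V → V) (e : E) : V → V :=
  fun x => if p x = p (G.t e) then p (G.h e) else p x

/-- the weight of a cut -/
noncomputable def wt (G : OrGraph V E) (g : ℕ → ℝ) (p : V → V) (X : Finset V) : ℝ :=
  ∏ e ∈ G.cut X, (g (blob p (G.t e)).card * g (blob p (G.h e)).card)

/-- the conditions on the weight function: `g` is positive, at most one, nondecreasing, and
the factor gained by doubling pays for the edges lost -/
def GoodWeight (g : ℕ → ℝ) : Prop :=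
  (∀ s, 0 < g s ∧ g s ≤ 1) ∧ Monotone g ∧
    ∀ s : ℕ, 1 ≤ s → ∀ y : ℕ, y ≤ s + 1 →
      ((s : ℝ) + 2) ≤ ((s : ℝ) + 2 - y) * (g (2 * s) / g s) ^ y

/-- data of a 2-factor `F` as a permutation: `ε v` is the edge of `F` from `v` to `π v` -/
def IsPerm (G : OrGraph V E) (F : Finset E) (π : Equiv.Perm V) (ε : V → E) : Prop :=
  Function.Injective ε ∧ (∀ v, ε v ∈ F) ∧ (∀ e ∈ F, ∃ v, ε v = e) ∧
    ∀ v, (G.t (ε v) = v ∧ G.h (ε v) = π v) ∨ (G.t (ε v) = π v ∧ G.h (ε v) = v)

/-- blocks: `blk v` is the first vertex of the block of `v`; a block is an arc of a cycle of `π`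
with at least `L` and fewer than `2 L` vertices -/
def IsBlocks (π : Equiv.Perm V) (L : ℕ) (blk : V → V) : Prop :=
  (∀ v, blk (blk v) = blk v) ∧
  (∀ v, ∃ j < 2 * L, (π ^ j) (blk v) = v ∧ ∀ i ≤ j, blk ((π ^ i) (blk v)) = blk v) ∧
  (∀ b, blk b = b → ∀ j < L, blk ((π ^ j) b) = b)

/-- the block with first vertex `b` is cut by `X` -/
def CutBlock (blk : V → V) (X : Finset V) (b : V) : Prop :=
  (∃ v, blk v = b ∧ v ∈ X) ∧ ∃ v, blk v = b ∧ v ∉ X

/-- the edges outside `F` that are cut by `X` or have an end in a block cut by `X` -/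
noncomputable def Zset (G : OrGraph V E) (F : Finset E) (blk : V → V) (X : Finset V) : Finset E :=
  letI := Classical.decPred (CutBlock blk X)
  Fᶜ.filter (fun e => e ∈ G.cut X ∨ CutBlock blk X (blk (G.t e)) ∨ CutBlock blk X (blk (G.h e)))

/-- the length of the blocks -/
def LL : ℕ := 2 ^ 22

end graph

section linear

/-- `B` indexes a basis of the span of the family `v` -/
def IsBase {W α : Type*} [AddCommGroup W] [Module (ZMod 2) W] (v : α → W) (B : Finset α) : Prop :=
  LinearIndepOn (ZMod 2) v (B : Set α) ∧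
    ∀ a, v a ∈ Submodule.span (ZMod 2) (v '' (B : Set α))

/-- the vector of an edge with ends `a e`, `b e` -/
def vec {ι α : Type*} [DecidableEq ι] (a b : α → ι) (e : α) : ι → ZMod 2 :=
  Pi.single (a e) 1 + Pi.single (b e) 1

/-- the polynomial `∑_{S ∈ J} ∏_{e ∈ S} x e` -/
def poly {α : Type*} (J : Finset (Finset α)) (x : α → ℝ) : ℝ := ∑ S ∈ J, ∏ e ∈ S, x e

/-- the indicator of a finite set, times a real number -/
def ind {α : Type*} [DecidableEq α] (B : Finset α) (e : α) : ℝ := if e ∈ B then 1 else 0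

end linear

end Pool.Agent.H185C
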