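import Pool.Agent.H185C.Defs

/-!
T18: symmetric exchange for bases over `ZMod 2`.
-/

set_option autoImplicit false

namespace Pool.Agent.H185C

universe u v

section linear

theorem span_insert_erase {W : Type u} {α : Type v} [AddCommGroup W] [Module (ZMod 2) W]
    [DecidableEq α] (v : α → W) (B : Finset α)
    (hB : IsBase v B) (i j : α) (hi : i ∈ B)
    (hj : v j ∉ Submodule.span (ZMod 2) (v '' ((B.erase i : Finset α) : Set α))) :
    IsBase v (insert j (B.erase i)) := by
  have hind : LinearIndepOn (ZMod 2) v ((B.erase i : Finset α) : Set α) := by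
    apply hB.1.mono
    intro x hx
    simp only [Finset.coe_erase, Set.mem_sdiff, Finset.mem_coe] at hx ⊢
    exact hx.1
  refine ⟨?_, ?_⟩
  · rw [Finset.coe_insert]
    exact hind.insert hj
  · have hBi : (B : Set α) = insert i ((B.erase i : Finset α) : Set α) := by
      rw [← Finset.coe_insert, Finset.insert_erase hi]
    have hvi : v i ∈ Submodule.span (ZMod 2)
        (v '' ((insert j (B.erase i) : Finset α) : Set α)) := by
      rw [Finset.coe_insert, Set.image_insert_eq]
      apply mem_span_insert_exchange _ hj
      rw [← Set.image_insert_eq, ← hBi]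
      exact hB.2 j
    have hle : Submodule.span (ZMod 2) (v '' (B : Set α)) ≤
        Submodule.span (ZMod 2) (v '' ((insert j (B.erase i) : Finset α) : Set α)) := by
      rw [Submodule.span_le]
      rintro _ ⟨b, hb, rfl⟩
      by_cases hbi : b = i
      · rw [hbi]; exact hvi
      · apply Submodule.subset_span
        refine ⟨b, ?_, rfl⟩
        simp only [Finset.coe_insert, Finset.coe_erase, Set.mem_insert_iff, Set.mem_sdiff,
          Finset.mem_coe, Set.mem_singleton_iff]
        exact Or.inr ⟨hb, hbi⟩
    intro a
    exact hle (hB.2 a)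

theorem base_exchange {W : Type u} {α : Type v} [AddCommGroup W] [Module (ZMod 2) W]
    [DecidableEq α] (v : α → W) (B C : Finset α) (hB : IsBase v B) (hC : IsBase v C) (i : α)
    (hi : i ∈ B) (hi' : i ∉ C) :
    ∃ j ∈ C, j ∉ B ∧ IsBase v (insert j (B.erase i)) ∧ IsBase v (insert i (C.erase j)) := by
  classical
  have hvi : v i ∉ Submodule.span (ZMod 2) (v '' ((B.erase i : Finset α) : Set α)) := by
    have h1 : LinearIndepOn (ZMod 2) v (insert i ((B.erase i : Finset α) : Set α)) := by
      rw [← Finset.coe_insert, Finset.insert_erase hi]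
      exact hB.1
    have h2 := (linearIndepOn_insert (K := ZMod 2) (f := v) (a := i)
      (s := ((B.erase i : Finset α) : Set α)) (by simp)).1 h1
    exact h2.2
  obtain ⟨l, hl, hli⟩ := (Finsupp.mem_span_image_iff_linearCombination (ZMod 2)).1 (hC.2 i)
  have hex : ∃ j ∈ l.support,
      v j ∉ Submodule.span (ZMod 2) (v '' ((B.erase i : Finset α) : Set α)) := by
    by_contra hno
    push Not at hno
    apply hvi
    rw [← hli, Finsupp.linearCombination_apply]
    exact Submodule.sum_mem _ fun j hj => Submodule.smul_mem _ _ (hno j hj)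
  obtain ⟨j, hj, hjB⟩ := hex
  have hjC : j ∈ C := by
    have := (Finsupp.mem_supported (ZMod 2) l).1 hl
    exact this hj
  have hjnB : j ∉ B := by
    intro hjB'
    by_cases hji : j = i
    · exact hi' (hji ▸ hjC)
    · apply hjB
      apply Submodule.subset_span
      refine ⟨j, ?_, rfl⟩
      simp [hjB', hji]
  refine ⟨j, hjC, hjnB, span_insert_erase v B hB i j hi hjB, ?_⟩
  apply span_insert_erase v C hC j i hjC
  intro hcon
  have hvj : v j ∈ Submodule.span (ZMod 2) (v '' ((C.erase j : Finset α) : Set α)) := by
    have hsum : l j • v j + ∑ x ∈ l.support.erase j, l x • v x = v i := by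
      rw [← hli, Finsupp.linearCombination_apply, Finsupp.sum,
        Finset.add_sum_erase l.support (fun x => l x • v x) hj]
    have hlj : l j • v j ∈ Submodule.span (ZMod 2) (v '' ((C.erase j : Finset α) : Set α)) := by
      have : l j • v j = v i - ∑ x ∈ l.support.erase j, l x • v x := by
        rw [← hsum]; abel
      rw [this]
      apply Submodule.sub_mem _ hcon
      apply Submodule.sum_mem
      intro x hx
      apply Submodule.smul_mem
      apply Submodule.subset_span
      refine ⟨x, ?_, rfl⟩
      have hx' := Finset.mem_erase.1 hx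
      have hxC : x ∈ C := (Finsupp.mem_supported (ZMod 2) l).1 hl hx'.2
      simp [hxC, hx'.1]
    have hne : l j ≠ 0 := Finsupp.mem_support_iff.1 hj
    have := Submodule.smul_mem _ (l j)⁻¹ hlj
    rwa [smul_smul, inv_mul_cancel₀ hne, one_smul] at this
  have h1 : LinearIndepOn (ZMod 2) v (insert j ((C.erase j : Finset α) : Set α)) := by
    rw [← Finset.coe_insert, Finset.insert_erase hjC]
    exact hC.1
  have h2 := (linearIndepOn_insert (K := ZMod 2) (f := v) (a := j)
    (s := ((C.erase j : Finset α) : Set α)) (by simp)).1 h1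
  exact h2.2 hvj

end linear

end Pool.Agent.H185C
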