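import Pool.Agent.H185C.Asm4

set_option autoImplicit false

namespace Pool.Agent.H185C
open Finset Pool.Agent.H160R2.HF Pool.Agent.H160R2.HF.OrGraph Pool.Agent.H884R2.HFP

universe u v

variable {V : Type u} {E : Type v} [Fintype V] [Fintype E] [DecidableEq V] [DecidableEq E]

/-- the theorem for a 2-factor with one circuit -/
theorem main_one (G : OrGraph V E) (hc : G.Cubic) (F : Finset E) (hF : G.IsTwoFactor F)
    (π : Equiv.Perm V) (ε : V → E) (hπ : IsPerm G F π ε) (k : ℕ) (hk : 3 ≤ k)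
    (hG : CycConn G k) (h2 : ¬ ∃ v w, cls π v ≠ cls π w) :
    ∃ φ₂ φ₄ : E → ℤ, G.IsHalfFlowPair φ₂ φ₄ ∧ ∀ e, φ₂ e ≠ 0 ↔ e ∈ F := by
  push Not at h2
  obtain ⟨B, br, hBF, _, hdeg⟩ := exists_breaks G F π ε hπ ∅ (by simp) (by
    intro v
    have h3 : (univ.filter (fun w => π.SameCycle v w)) = univ := by
      ext w
      simp only [Finset.mem_filter, Finset.mem_univ, true_and, iff_true]
      rw [← cls_eq]
      exact h2 v w
    rw [h3]
    simpa using even_card G hc)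
  refine trivial_case G hc F hF ?_ B hBF (by simpa using hdeg)
  intro X h3 h4
  rw [← Finset.card_pos]
  have := three_le_cut G hc k hk hG X h3 h4
  omega

/-- the main theorem -/
theorem main : ∃ k₀ : ℕ, ∀ k : ℕ, k₀ ≤ k → ∀ (V : Type u) (E : Type v) [Fintype V] [Fintype E]
    [DecidableEq V] [DecidableEq E] (G : OrGraph V E), G.Cubic → CycConn G k →
    Fintype.card V ^ 16 ≤ k ^ k →
    (∃ F : Finset E, G.IsTwoFactor F) ∧
    (∀ F : Finset E, G.IsTwoFactor F →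
      ∃ φ₂ φ₄ : E → ℤ, G.IsHalfFlowPair φ₂ φ₄ ∧ ∀ e, φ₂ e ≠ 0 ↔ e ∈ F) ∧
    ∃ φ : E → ℤ, G.IsFlow φ ∧ ∀ e, 1 ≤ |φ e| ∧ |φ e| ≤ 4 := by
  obtain ⟨k₀, hk₀⟩ := numeric
  refine ⟨max k₀ LL, ?_⟩
  intro k hk V E _ _ _ _ G hc hG hn
  have hLL : 3 ≤ LL := by unfold LL; norm_num
  have hk1 : k₀ ≤ k := (le_max_left _ _).trans hk
  have hk2 : LL ≤ k := (le_max_right _ _).trans hk
  have hex : ∃ F : Finset E, G.IsTwoFactor F := by
    apply petersen G hc
    intro X h3 h4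
    have := three_le_cut G hc k (by omega) hG X h3 h4
    omega
  have hall : ∀ F : Finset E, G.IsTwoFactor F →
      ∃ φ₂ φ₄ : E → ℤ, G.IsHalfFlowPair φ₂ φ₄ ∧ ∀ e, φ₂ e ≠ 0 ↔ e ∈ F := by
    intro F hF
    obtain ⟨π, ε, hπ⟩ := exists_perm G F hF
    by_cases h2 : ∃ v w, cls π v ≠ cls π w
    · have hpos : 1 ≤ Fintype.card V := by
        obtain ⟨v, _⟩ := h2
        exact Fintype.card_pos_iff.2 ⟨v⟩
      exact main_multi G hc F hF π ε hπ k hk2 hG h2 (by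
        exact_mod_cast hk₀ k (Fintype.card V) (Fintype.card E) hk1 hpos hn)
    · exact main_one G hc F hF π ε hπ k (by omega) hG h2
  refine ⟨hex, hall, ?_⟩
  obtain ⟨F, hF⟩ := hex
  obtain ⟨φ₂, φ₄, h, _⟩ := hall F hF
  exact five_flow G φ₂ φ₄ h

end Pool.Agent.H185C
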