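import Pool.Agent.H185C.Defs

set_option autoImplicit false

namespace Pool.Agent.H185C
open Finset

universe u v

section

namespace LB

/-- pushforward of coordinates -/
noncomputable def push {ι κ : Type u} [Fintype ι] [DecidableEq κ] (p : ι → κ) :
    (ι → ZMod 2) →ₗ[ZMod 2] (κ → ZMod 2) where
  toFun x := fun j => ∑ i, if p i = j then x i else 0
  map_add' x y := by
    funext j
    simp only [Pi.add_apply]
    rw [← Finset.sum_add_distrib]
    exact Finset.sum_congr rfl (fun i _ => by split_ifs <;> simp)
  map_smul' c x := by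
    funext j
    simp only [Pi.smul_apply, smul_eq_mul, RingHom.id_apply]
    rw [Finset.mul_sum]
    exact Finset.sum_congr rfl (fun i _ => by split_ifs <;> simp)

lemma push_apply {ι κ : Type u} [Fintype ι] [DecidableEq κ] (p : ι → κ) (x : ι → ZMod 2) (j : κ) :
    push p x j = ∑ i, if p i = j then x i else 0 := rfl

lemma push_single {ι κ : Type u} [Fintype ι] [DecidableEq ι] [DecidableEq κ] (p : ι → κ) (i : ι) :
    push p (Pi.single i 1) = Pi.single (p i) 1 := by
  funext j
  rw [push_apply, Finset.sum_eq_single i]
  · by_cases h : p i = j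
    · subst h; simp
    · rw [if_neg h, Pi.single_eq_of_ne (Ne.symm h)]
  · intro b _ hb
    rw [Pi.single_eq_of_ne hb]; simp
  · intro h; exact absurd (Finset.mem_univ _) h

lemma push_vec {ι κ : Type u} {α : Type v} [Fintype ι] [DecidableEq ι] [DecidableEq κ]
    (p : ι → κ) (a b : α → ι) (e : α) :
    push p (vec a b e) = vec (fun e => p (a e)) (fun e => p (b e)) e := by
  simp only [vec, map_add, push_single]

lemma vec_loop {ι : Type u} {α : Type v} [DecidableEq ι] (a b : α → ι) (e : α) (h : a e = b e) :
    vec a b e = 0 := by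
  funext i
  rw [vec, h, Pi.add_apply, CharTwo.add_self_eq_zero]
  rfl

/-- the contraction map -/
def con {ι : Type u} [DecidableEq ι] (a0 b0 : ι) (hab : a0 ≠ b0) : ι → {i : ι // i ≠ b0} :=
  fun i => if h : i = b0 then ⟨a0, hab⟩ else ⟨i, h⟩

lemma ker_push {ι : Type u} [Fintype ι] [DecidableEq ι] (a0 b0 : ι) (hab : a0 ≠ b0)
    (x : ι → ZMod 2) (hx : push (con a0 b0 hab) x = 0) :
    x = x a0 • (Pi.single a0 1 + Pi.single b0 1 : ι → ZMod 2) := by
  have h1 : x a0 + x b0 = 0 := by
    have := congrFun hx ⟨a0, hab⟩
    rw [push_apply, Finset.sum_eq_add a0 b0 hab] at this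
    · simpa [con, hab] using this
    · rintro c _ ⟨hca, hcb⟩
      rw [if_neg]
      simp [con, hcb, hca]
    · intro h; exact absurd (Finset.mem_univ _) h
    · intro h; exact absurd (Finset.mem_univ _) h
  have h2 : ∀ i, i ≠ a0 → i ≠ b0 → x i = 0 := by
    intro i hia hib
    have := congrFun hx ⟨i, hib⟩
    rw [push_apply, Finset.sum_eq_single i] at this
    · simpa [con, hib] using this
    · intro c _ hci
      rw [if_neg]
      unfold con
      by_cases hc : c = b0
      · simp [hc, Ne.symm hia]
      · simp [hc, hci]
    · intro h; exact absurd (Finset.mem_univ _) h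
  have h3 : x b0 = x a0 := by
    have := CharTwo.add_eq_zero.mp h1
    exact this.symm
  funext i
  by_cases hia : i = a0
  · subst hia; simp [hab]
  · by_cases hib : i = b0
    · subst hib; simp [h3, hia]
    · simp [h2 i hia hib, hia, hib]

lemma isBase_insert {ι : Type u} {α : Type v} [Fintype ι] [DecidableEq ι] [DecidableEq α]
    (a b : α → ι) (e0 : α) (hab : a e0 ≠ b e0) (B : Finset α)
    (hB : IsBase (vec (fun e => con (a e0) (b e0) hab (a e)) (fun e => con (a e0) (b e0) hab (b e))) B) :
    IsBase (vec a b) (insert e0 B) := by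
  set P := push (con (a e0) (b e0) hab) with hP
  set v' := vec (fun e => con (a e0) (b e0) hab (a e)) (fun e => con (a e0) (b e0) hab (b e)) with hv'
  have hPv : ∀ e, P (vec a b e) = v' e := fun e => push_vec _ a b e
  have hcomp : (⇑P ∘ vec a b) = v' := by funext e; exact hPv e
  have hP0 : v' e0 = 0 := by
    rw [hv']
    apply vec_loop
    simp [con, hab]
  obtain ⟨hI, hS⟩ := hB
  constructor
  · rw [Finset.coe_insert]
    apply LinearIndepOn.insert
    · apply LinearIndepOn.of_comp P
      rw [hcomp]; exact hI
    · intro hmem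
      rw [Finsupp.mem_span_image_iff_linearCombination] at hmem
      obtain ⟨l, hl, hlx⟩ := hmem
      have h1 : P (vec a b e0) = 0 := by rw [hPv, hP0]
      rw [← hlx, LinearMap.map_finsupp_linearCombination, hcomp] at h1
      have h2 := (linearIndepOn_iff.mp hI) l hl h1
      rw [h2, map_zero] at hlx
      have h3 := congrFun hlx (a e0)
      simp [vec, hab] at h3
  · intro e
    rw [Finset.coe_insert, Set.image_insert_eq, Submodule.mem_span_insert]
    have h1 := hS e
    have h2 : v' '' (B : Set α) = P '' (vec a b '' (B : Set α)) := by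
      rw [← hcomp, Set.image_comp]
    rw [h2, ← Submodule.map_span, Submodule.mem_map] at h1
    obtain ⟨y, hy, hyP⟩ := h1
    have h3 : P (vec a b e - y) = 0 := by rw [map_sub, hPv, hyP, sub_self]
    have h4 := ker_push _ _ hab _ h3
    refine ⟨(vec a b e - y) (a e0), y, hy, ?_⟩
    have h5 : vec a b e = (vec a b e - y) + y := by abel
    rw [h5]
    congr 1
    · rw [show vec a b e - y + y - y = vec a b e - y by abel]
      exact h4

end LB

open LB in
theorem light_base_aux {α : Type v} [Fintype α] [DecidableEq α] (k : ℕ) (hk : 1 ≤ k) :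
    ∀ (n : ℕ) (ι : Type u) [Fintype ι] [DecidableEq ι] [Nonempty ι], Fintype.card ι = n →
    ∀ (a b : α → ι)
    (_ : ∀ Y : Finset ι, Y.Nonempty → Yᶜ.Nonempty →
      k ≤ (univ.filter (fun e => ¬ (a e ∈ Y ↔ b e ∈ Y))).card)
    (w : α → ℝ) (_ : ∀ e, 0 ≤ w e),
    ∃ B : Finset α, IsBase (vec a b) B ∧ ∑ e ∈ B, w e ≤ 2 / k * ∑ e, w e := by
  intro n
  induction n with
  | zero =>
    intro ι _ _ _ hn
    exact absurd hn Fintype.card_ne_zero
  | succ n ih =>
    intro ι _ _ _ hn a b hcut w hw
    have hk0 : (0 : ℝ) < k := by exact_mod_cast hk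
    by_cases hn0 : n = 0
    · subst hn0
      have hsub : Subsingleton ι := Fintype.card_le_one_iff_subsingleton.mp (by omega)
      refine ⟨∅, ⟨?_, ?_⟩, ?_⟩
      · simp
      · intro e
        rw [vec_loop a b e (Subsingleton.elim _ _)]
        exact Submodule.zero_mem _
      · simp only [Finset.sum_empty]
        have := Finset.sum_nonneg (fun e (_ : e ∈ (univ : Finset α)) => hw e)
        positivity
    · have hn2 : 1 < Fintype.card ι := by omega
      -- the non-loops
      set NL : Finset α := univ.filter (fun e => a e ≠ b e) with hNL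
      have hsing : ∀ i : ι, k ≤ (univ.filter (fun e => ¬ (a e ∈ ({i} : Finset ι) ↔
          b e ∈ ({i} : Finset ι)))).card := by
        intro i
        apply hcut {i} (Finset.singleton_nonempty i)
        obtain ⟨j, hj⟩ := Fintype.exists_ne_of_one_lt_card hn2 i
        exact ⟨j, by simp [hj]⟩
      have hdeg : k * Fintype.card ι ≤ 2 * NL.card := by
        have h1 : k * Fintype.card ι ≤ ∑ i : ι, (univ.filter (fun e => ¬ (a e ∈ ({i} : Finset ι) ↔
          b e ∈ ({i} : Finset ι)))).card := by
          calc k * Fintype.card ι = ∑ _i : ι, k := by simp [mul_comm]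
            _ ≤ _ := Finset.sum_le_sum (fun i _ => hsing i)
        have h2 : ∑ i : ι, (univ.filter (fun e => ¬ (a e ∈ ({i} : Finset ι) ↔
          b e ∈ ({i} : Finset ι)))).card = ∑ e : α, (univ.filter (fun i => ¬ (a e ∈ ({i} : Finset ι) ↔
          b e ∈ ({i} : Finset ι)))).card := by
          simp only [Finset.card_filter]
          exact Finset.sum_comm
        have h3 : ∑ e : α, (univ.filter (fun i => ¬ (a e ∈ ({i} : Finset ι) ↔
          b e ∈ ({i} : Finset ι)))).card ≤ ∑ e : α, if a e ≠ b e then 2 else 0 := by
          apply Finset.sum_le_sum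
          intro e _
          split_ifs with h
          · have : univ.filter (fun i => ¬ (a e ∈ ({i} : Finset ι) ↔
              b e ∈ ({i} : Finset ι))) ⊆ {a e, b e} := by
              intro i hi
              simp only [Finset.mem_filter, Finset.mem_univ, true_and, Finset.mem_singleton] at hi
              simp only [Finset.mem_insert, Finset.mem_singleton]
              by_contra hcon
              push Not at hcon
              apply hi
              constructor
              · intro h'; exact absurd h'.symm hcon.1
              · intro h'; exact absurd h'.symm hcon.2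
            exact (Finset.card_le_card this).trans Finset.card_le_two
          · push Not at h
            simp [h]
        have h4 : ∑ e : α, (if a e ≠ b e then 2 else 0) = 2 * NL.card := by
          rw [← Finset.sum_filter, Finset.sum_const, smul_eq_mul, mul_comm]
        omega
      have hNLne : NL.Nonempty := by
        rw [← Finset.card_pos]
        have : 0 < k * Fintype.card ι := by positivity
        omega
      obtain ⟨e0, he0, hmin⟩ := Finset.exists_min_image NL w hNLne
      have hab : a e0 ≠ b e0 := by simpa [hNL] using he0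
      set m := w e0 with hm
      have hm0 : 0 ≤ m := hw e0
      set p := con (a e0) (b e0) hab with hp
      set w' : α → ℝ := fun e => if a e = b e then w e else w e - m with hw'
      have hw'0 : ∀ e, 0 ≤ w' e := by
        intro e
        simp only [hw']
        split_ifs with h
        · exact hw e
        · have := hmin e (by simp [hNL, h])
          linarith
      have hcardκ : Fintype.card {i : ι // i ≠ b e0} = n := by
        have h1 : Fintype.card {i : ι // i ≠ b e0} = Fintype.card ι - Fintype.card {i : ι // i = b e0} :=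
          Fintype.card_subtype_compl _
        rw [h1, hn]
        simp
      have : Nonempty {i : ι // i ≠ b e0} := ⟨⟨a e0, hab⟩⟩
      have hpsurj : ∀ j : {i : ι // i ≠ b e0}, p j.1 = j := by
        intro j
        simp [hp, con, j.2]
      obtain ⟨B', hB', hwB'⟩ := ih {i : ι // i ≠ b e0} hcardκ (fun e => p (a e)) (fun e => p (b e))
        (by
          intro Y hY hYc
          have h1 := hcut (univ.filter (fun i => p i ∈ Y)) (by
            obtain ⟨j, hj⟩ := hY
            exact ⟨j.1, by simp [hpsurj, hj]⟩) (by
            obtain ⟨j, hj⟩ := hYc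
            refine ⟨j.1, ?_⟩
            simpa [hpsurj] using hj)
          simpa using h1) w' hw'0
      refine ⟨insert e0 B', isBase_insert a b e0 hab B' hB', ?_⟩
      have hnl' : ∀ e ∈ B', p (a e) ≠ p (b e) := by
        intro e he hcon
        exact (hB'.1.ne_zero (by exact_mod_cast he)) (vec_loop _ _ e hcon)
      have hnl : ∀ e ∈ B', a e ≠ b e := by
        intro e he hcon
        exact hnl' e he (by rw [hcon])
      have he0B : e0 ∉ B' := by
        intro h
        apply hnl' e0 h
        simp [hp, con, hab]
      have hcardB : B'.card ≤ n := by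
        have h1 := (hB'.1.linearIndependent).fintype_card_le_finrank
        rw [Module.finrank_fintype_fun_eq_card, hcardκ] at h1
        simpa using h1
      rw [Finset.sum_insert he0B]
      have hs1 : ∑ e ∈ B', w e = ∑ e ∈ B', w' e + m * B'.card := by
        rw [mul_comm, ← nsmul_eq_mul, ← Finset.sum_const, ← Finset.sum_add_distrib]
        refine Finset.sum_congr rfl (fun e he => ?_)
        simp [hw', hnl e he]
      have hs2 : ∑ e, w e = ∑ e, w' e + m * NL.card := by
        have : (m * NL.card : ℝ) = ∑ e : α, if a e ≠ b e then m else 0 := by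
          rw [← Finset.sum_filter, Finset.sum_const, nsmul_eq_mul, mul_comm]
        rw [this, ← Finset.sum_add_distrib]
        refine Finset.sum_congr rfl (fun e he => ?_)
        simp only [hw']
        by_cases h : a e = b e <;> simp [h]
      rw [hs1, hs2, mul_add]
      have hc1 : (B'.card : ℝ) ≤ n := by exact_mod_cast hcardB
      have hc2 : (k : ℝ) * (n + 1) ≤ 2 * NL.card := by
        have := hdeg
        rw [hn] at this
        exact_mod_cast this
      have hc3 : (n + 1 : ℝ) ≤ 2 / k * NL.card := by
        rw [div_mul_eq_mul_div, le_div_iff₀ hk0]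
        linarith
      have hc4 : m * (n + 1) ≤ m * (2 / k * NL.card) := mul_le_mul_of_nonneg_left hc3 hm0
      have hc5 : m * B'.card ≤ m * n := mul_le_mul_of_nonneg_left hc1 hm0
      nlinarith

theorem light_base {ι : Type u} {α : Type v} [Fintype ι] [Fintype α] [DecidableEq ι]
    [DecidableEq α] [Nonempty ι] (a b : α → ι) (k : ℕ) (hk : 1 ≤ k)
    (hcut : ∀ Y : Finset ι, Y.Nonempty → Yᶜ.Nonempty →
      k ≤ (univ.filter (fun e => ¬ (a e ∈ Y ↔ b e ∈ Y))).card)
    (w : α → ℝ) (hw : ∀ e, 0 ≤ w e) :
    ∃ B : Finset α, IsBase (vec a b) B ∧ ∑ e ∈ B, w e ≤ 2 / k * ∑ e, w e :=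
  light_base_aux k hk (Fintype.card ι) ι rfl a b hcut w hw

end

end Pool.Agent.H185C
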