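import Pool.Agent.H185C.Defs
import Pool.Agent.H931R2.Haxell

set_option autoImplicit false

namespace Pool.Agent.H185C.Stubs
open Finset Pool.Agent.H160R2.HF Pool.Agent.H160R2.HF.OrGraph Pool.Agent.H884R2.HFP Pool.Agent.H185C

universe u v w

section graph
variable {V : Type u} {E : Type v} [Fintype V] [Fintype E] [DecidableEq V] [DecidableEq E]

/-! ### T1: edge counts of acyclic and of connected sets -/

theorem acyclic_le (G : OrGraph V E) (hc : G.Cubic) (X : Finset V) (hX : X.Nonempty)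
    (h : ¬ G.HasCycleIn X) : X.card + 2 ≤ (G.cut X).card := by
  sorry

theorem conn_le (G : OrGraph V E) (hc : G.Cubic) (X : Finset V) (hX : X.Nonempty)
    (h : Conn G X) : (G.cut X).card ≤ X.card + 2 := by
  sorry

/-! ### T2: Petersen's theorem -/

theorem petersen (G : OrGraph V E) (hc : G.Cubic)
    (h2 : ∀ X : Finset V, X.Nonempty → Xᶜ.Nonempty → 2 ≤ (G.cut X).card) :
    ∃ F : Finset E, G.IsTwoFactor F := by
  sorry

/-! ### T3: the permutation of a 2-factor -/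

theorem exists_perm (G : OrGraph V E) (F : Finset E) (hF : G.IsTwoFactor F) :
    ∃ (π : Equiv.Perm V) (ε : V → E), IsPerm G F π ε := by
  sorry

/-! ### T4: blocks -/

theorem exists_blocks (π : Equiv.Perm V) (L : ℕ) (hL : 1 ≤ L)
    (hcyc : ∀ v, ∀ j, 1 ≤ j → j < L → (π ^ j) v ≠ v) : ∃ blk : V → V, IsBlocks π L blk := by
  sorry

/-! ### T5: the number of cut blocks, and the size of `Zset` -/

theorem cutblocks_le (G : OrGraph V E) (F : Finset E) (π : Equiv.Perm V) (ε : V → E)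
    (hπ : IsPerm G F π ε) (L : ℕ) (blk : V → V) (hb : IsBlocks π L blk) (X : Finset V)
    (C : Finset V) (hC : ∀ b ∈ C, CutBlock blk X b) : C.card ≤ (G.cut X ∩ F).card := by
  sorry

theorem card_Zset (G : OrGraph V E) (hc : G.Cubic) (F : Finset E) (hF : G.IsTwoFactor F)
    (π : Equiv.Perm V) (ε : V → E) (hπ : IsPerm G F π ε) (L : ℕ) (hL : 1 ≤ L) (blk : V → V)
    (hb : IsBlocks π L blk) (X : Finset V) :
    (Zset G F blk X).card ≤ 2 * L * (G.cut X).card := by
  sorry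

/-! ### T6: the relation `Near` -/

theorem near_symm (G : OrGraph V E) (r : ℕ) (u v : V) (h : Near G r u v) : Near G r v u := by
  sorry

theorem near_trans (G : OrGraph V E) (r s : ℕ) (u v w : V) (h : Near G r u v)
    (h' : Near G s v w) : Near G (r + s) u w := by
  sorry

theorem near_mono (G : OrGraph V E) (r s : ℕ) (hrs : r ≤ s) (u v : V) (h : Near G r u v) :
    Near G s u v := by
  sorry

theorem near_card (G : OrGraph V E) (hc : G.Cubic) (r : ℕ) (u : V) (A : Finset V)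
    (hA : ∀ v ∈ A, Near G r u v) : A.card ≤ 4 ^ r := by
  sorry

/-! ### T7: a connected set containing `β ≥ 2` pairwise far vertices has at least `5 β`
vertices -/

theorem far_card (G : OrGraph V E) (X : Finset V) (hX : Conn G X) (U : Finset V) (hU : U ⊆ X)
    (hfar : ∀ u ∈ U, ∀ v ∈ U, u ≠ v → ¬ Near G 8 u v) (h2 : 2 ≤ U.card) :
    5 * U.card ≤ X.card := by
  sorry

/-! ### T8: choice of one position per block (Haxell) -/

theorem exists_select (G : OrGraph V E) (hc : G.Cubic) (F : Finset E) (π : Equiv.Perm V)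
    (ε : V → E) (hπ : IsPerm G F π ε) (blk : V → V) (hb : IsBlocks π LL blk)
    (hcyc : ∀ v, ∀ j, 1 ≤ j → j < LL → (π ^ j) v ≠ v) :
    ∃ s : V → V, (∀ b, blk b = b → ∃ i, i + 1 < LL ∧ s b = (π ^ i) b) ∧
      ∀ b b', blk b = b → blk b' = b' → b ≠ b' → ¬ Near G 10 (s b) (s b') := by
  sorry

/-! ### T9: the breaks and the matching inside the 2-factor -/

theorem exists_breaks (G : OrGraph V E) (F : Finset E) (π : Equiv.Perm V) (ε : V → E)
    (hπ : IsPerm G F π ε) (P : Finset V) (hP : ∀ v ∈ P, π v ∉ P)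
    (hev : ∀ v, Even ((univ.filter (fun w => π.SameCycle v w)).card +
      (P.filter (fun w => π.SameCycle v w)).card)) :
    ∃ (B : Finset E) (br : V → V), B ⊆ F ∧ (∀ s ∈ P, br s = s ∨ br s = π s) ∧
      ∀ v, G.deg B v = if v ∈ P.image br then 0 else 1 := by
  sorry

/-! ### T10: reduction of Hoffman's condition to connected sets -/

theorem ff_of_conn (G : OrGraph V E) (lo hi : E → ℤ)
    (hG : ∀ X : Finset V, X.Nonempty → Xᶜ.Nonempty → (G.cut X).Nonempty)
    (h : ∀ X : Finset V, X.Nonempty → Xᶜ.Nonempty → Conn G X → Conn G Xᶜ →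
      0 ≤ ff G.t G.h lo hi (fun _ => 0) X) (X : Finset V) :
    0 ≤ ff G.t G.h lo hi (fun _ => 0) X := by
  sorry

theorem pair_of_conn (G : OrGraph V E) (hc : G.Cubic) (F : Finset E) (hF : G.IsTwoFactor F)
    (hG : ∀ X : Finset V, X.Nonempty → Xᶜ.Nonempty → (G.cut X).Nonempty)
    (U : Finset V) (B : Finset E) (hBF : B ⊆ F) (hB : ∀ v, G.deg B v = if v ∈ U then 0 else 1)
    (τ : V → V) (hτ : ∀ u ∈ U, τ u ∈ U ∧ τ (τ u) = u ∧ τ u ≠ u)
    (hq : ∀ X : Finset V, X.Nonempty → Xᶜ.Nonempty → Conn G X → Conn G Xᶜ →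
      (G.cut X ∩ F).card < 2 * sep U τ X → 5 * sep U τ X ≤ (G.cut X).card + 1) :
    ∃ φ₂ φ₄ : E → ℤ, G.IsHalfFlowPair φ₂ φ₄ ∧ ∀ e, φ₂ e ≠ 0 ↔ e ∈ F := by
  sorry

/-! ### T11: nowhere-zero 5-flow from a `1/2`-flow-pair -/

theorem five_flow (G : OrGraph V E) (φ₂ φ₄ : E → ℤ) (h : G.IsHalfFlowPair φ₂ φ₄) :
    ∃ φ : E → ℤ, G.IsFlow φ ∧ ∀ e, 1 ≤ |φ e| ∧ |φ e| ≤ 4 := by
  sorry

/-! ### T12: the pairing of the odd vertices of a multigraph -/

theorem exists_pairing_of_edges {ι : Type u} {α : Type v} [Fintype ι] [DecidableEq ι]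
    [DecidableEq α] (R : Finset α) (a b : α → ι) :
    ∃ N : ι → ι, (∀ i, Odd ((R.filter (fun e => a e = i)).card +
        (R.filter (fun e => b e = i)).card) →
        Odd ((R.filter (fun e => a e = N i)).card + (R.filter (fun e => b e = N i)).card) ∧
          N (N i) = i ∧ N i ≠ i) ∧
      ∀ Y : Finset ι, ((univ.filter (fun i => Odd ((R.filter (fun e => a e = i)).card +
        (R.filter (fun e => b e = i)).card))).filter (fun i => i ∈ Y ∧ N i ∉ Y)).card ≤
        (R.filter (fun e => ¬ (a e ∈ Y ↔ b e ∈ Y))).card := by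
  sorry

/-! ### T13: the weight function -/

theorem exists_weight : ∃ g : ℕ → ℝ, GoodWeight g ∧ (1 / 1000 : ℝ) ≤ g 1 := by
  sorry

/-! ### T14: first phase of the cut counting, one step -/

theorem small_blob (G : OrGraph V E) (hc : G.Cubic) (k : ℕ) (hG : CycConn G k)
    (hn : 2 * k ≤ Fintype.card V) (Z : Finset V) (hZ : Z.Nonempty) (hconn : Conn G Z)
    (hk : Z.card + 2 < k) : ¬ G.HasCycleIn Z ∧ (G.cut Z).card = Z.card + 2 := by
  sorry

theorem merge_conn (G : OrGraph V E) (p : V → V) (hp : ∀ v, Conn G (blob p v)) (e : E)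
    (he : p (G.t e) ≠ p (G.h e)) (v : V) : Conn G (blob (merge G p e) v) := by
  sorry

theorem merge_weight (G : OrGraph V E) (g : ℕ → ℝ) (hg : GoodWeight g) (p : V → V) (z : V)
    (hmin : ∀ v, (blob p z).card ≤ (blob p v).card) (X : Finset V) (hX : Closed p X) (e : E)
    (he : e ∈ G.cut (blob p z)) (heX : e ∉ G.cut X) :
    Closed (merge G p e) X ∧
      wt G g p X * (g (2 * (blob p z).card) / g (blob p z).card) ^ (G.cut X ∩ G.cut (blob p z)).card
        ≤ wt G g (merge G p e) X := by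
  sorry

/-! ### T15: first phase, the inequality (uses T13, T14) -/

theorem phase_step (G : OrGraph V E) (hc : G.Cubic) (k : ℕ) (hG : CycConn G k)
    (hn : 2 * k ≤ Fintype.card V) (g : ℕ → ℝ) (hg : GoodWeight g) (p : V → V)
    (hp : ∀ v, Conn G (blob p v)) (z : V) (hmin : ∀ v, (blob p z).card ≤ (blob p v).card)
    (hz : (blob p z).card + 2 < k) (A : Finset (Finset V)) (hA : ∀ X ∈ A, Thick G X) :
    ∃ e ∈ G.cut (blob p z), p (G.t e) ≠ p (G.h e) ∧
      (∑ X ∈ A.filter (fun X => ∀ u v, p u = p v → (u ∈ X ↔ v ∈ X)), wt G g p X) ≤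
      ∑ X ∈ A.filter (fun X => ∀ u v, merge G p e u = merge G p e v → (u ∈ X ↔ v ∈ X)),
        wt G g (merge G p e) X := by
  sorry

/-! ### T16: second phase (Karger's contraction bound) -/

theorem karger (G : OrGraph V E) (lam a d : ℕ) (hl : 1 ≤ lam) (hd : 2 * d ≤ a * lam) (ha : 1 ≤ a)
    (p : V → V)
    (h : ∀ X : Finset V, Closed p X → X.Nonempty → Xᶜ.Nonempty → lam ≤ (G.cut X).card)
    (A : Finset (Finset V)) (hA : ∀ X ∈ A, Closed p X ∧ (G.cut X).card = d)
    (hV : 0 < Fintype.card V) : A.card ≤ 2 ^ a * Fintype.card V ^ a := by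
  sorry

/-! ### T17: the cut counting theorem (uses T13, T15, T16) -/

theorem cut_count (G : OrGraph V E) (hc : G.Cubic) (k : ℕ) (hk : 3 ≤ k) (hG : CycConn G k)
    (hn : 2 * k ≤ Fintype.card V) (d : ℕ) (A : Finset (Finset V))
    (hA : ∀ X ∈ A, Thick G X ∧ (G.cut X).card = d) :
    A.card ≤ 1000000 ^ d * (2 * Fintype.card V) ^ (2 * d / k + 1) := by
  sorry

end graph

section linear

/-! ### T18: symmetric exchange for bases (linear algebra over `ZMod 2`) -/

theorem base_exchange {W : Type u} {α : Type v} [AddCommGroup W] [Module (ZMod 2) W]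
    [DecidableEq α] (v : α → W) (B C : Finset α) (hB : IsBase v B) (hC : IsBase v C) (i : α)
    (hi : i ∈ B) (hi' : i ∉ C) :
    ∃ j ∈ C, j ∉ B ∧ IsBase v (insert j (B.erase i)) ∧ IsBase v (insert i (C.erase j)) := by
  sorry

/-! ### T19: merging two bases -/

theorem merge_bases {W : Type u} {α : Type v} [AddCommGroup W] [Module (ZMod 2) W]
    [DecidableEq α] (v : α → W) (J : Finset (Finset α)) (B C : Finset α) (hB : IsBase v B)
    (hC : IsBase v C) (y : α → ℝ) (hy : ∀ e, 0 ≤ y e) (s t : ℝ) (hs : 0 ≤ s) (ht : 0 ≤ t) :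
    ∃ D : Finset α, IsBase v D ∧
      poly J (fun e => y e + (s + t) * ind D e) ≤
        poly J (fun e => y e + s * ind B e + t * ind C e) := by
  sorry

/-! ### T20: light bases in a `k`-edge-connected multigraph -/

theorem light_base {ι : Type u} {α : Type v} [Fintype ι] [Fintype α] [DecidableEq ι]
    [DecidableEq α] [Nonempty ι] (a b : α → ι) (k : ℕ) (hk : 1 ≤ k)
    (hcut : ∀ Y : Finset ι, Y.Nonempty → Yᶜ.Nonempty →
      k ≤ (univ.filter (fun e => ¬ (a e ∈ Y ↔ b e ∈ Y))).card)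
    (w : α → ℝ) (hw : ∀ e, 0 ≤ w e) :
    ∃ B : Finset α, IsBase (vec a b) B ∧ ∑ e ∈ B, w e ≤ 2 / k * ∑ e, w e := by
  sorry

/-! ### T21: from light sets to a convex combination (Hahn--Banach / LP duality) -/

theorem fractional {α : Type v} [Fintype α] [DecidableEq α] (S : Finset (Finset α)) (c : ℝ)
    (hc : 0 ≤ c) (h : ∀ w : α → ℝ, (∀ e, 0 ≤ w e) → ∃ B ∈ S, ∑ e ∈ B, w e ≤ c * ∑ e, w e) :
    ∃ l : Finset α → ℝ, (∀ B, 0 ≤ l B) ∧ ∑ B ∈ S, l B = 1 ∧
      ∀ e, ∑ B ∈ S, l B * ind B e ≤ c := by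
  sorry

/-! ### T22: rounding (uses T19, T20, T21) -/

theorem rounding {W : Type u} {α : Type v} [AddCommGroup W] [Module (ZMod 2) W] [Fintype α]
    [DecidableEq α] (v : α → W) (J : Finset (Finset α)) (S : Finset (Finset α))
    (hS : ∀ B ∈ S, IsBase v B) (l : Finset α → ℝ) (hl : ∀ B, 0 ≤ l B) (h1 : ∑ B ∈ S, l B = 1) :
    ∃ D : Finset α, IsBase v D ∧ poly J (ind D) ≤ poly J (fun e => ∑ B ∈ S, l B * ind B e) := by
  sorry

theorem rand_tree {ι : Type u} {α : Type v} [Fintype ι] [Fintype α] [DecidableEq ι]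
    [DecidableEq α] [Nonempty ι] (a b : α → ι) (k : ℕ) (hk : 1 ≤ k)
    (hcut : ∀ Y : Finset ι, Y.Nonempty → Yᶜ.Nonempty →
      k ≤ (univ.filter (fun e => ¬ (a e ∈ Y ↔ b e ∈ Y))).card)
    (J : Finset (Finset α)) (hJ : ∑ S ∈ J, (2 / k : ℝ) ^ S.card < 1) :
    ∃ B : Finset α, IsBase (vec a b) B ∧ ∀ S ∈ J, ¬ S ⊆ B := by
  sorry

/-! ### T23: joins inside a base -/

theorem exists_join {ι : Type u} {α : Type v} [Fintype ι] [Fintype α] [DecidableEq ι]
    [DecidableEq α] (a b : α → ι)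
    (hcut : ∀ Y : Finset ι, Y.Nonempty → Yᶜ.Nonempty →
      (univ.filter (fun e => ¬ (a e ∈ Y ↔ b e ∈ Y))).Nonempty)
    (B : Finset α) (hB : IsBase (vec a b) B) (T : ι → ZMod 2) (hT : ∑ i, T i = 0) :
    ∃ R ⊆ B, ∀ i, (((R.filter (fun e => a e = i)).card + (R.filter (fun e => b e = i)).card : ℕ) :
      ZMod 2) = T i := by
  sorry

end linear

/-! ### T24: the numerical estimate -/

theorem numeric : ∃ k₀ : ℕ, ∀ k n M : ℕ, k₀ ≤ k → 1 ≤ n → n ^ 16 ≤ k ^ k →
    ∑ d ∈ Finset.Icc k M, ((1000000 : ℝ) ^ d * (2 * n) ^ (2 * d / k + 1) *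
      ((2 * LL * d).choose (d / 5 + 1) : ℝ) * (2 / k) ^ (d / 5 + 1)) < 1 := by
  sorry

end Pool.Agent.H185C.Stubs
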