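import Pool.Agent.H185C.Acyclic
import Pool.Agent.H185C.ConnLe

set_option autoImplicit false
set_option linter.unusedSectionVars false

namespace Pool.Agent.H185C
open Finset Pool.Agent.H160R2.HF Pool.Agent.H160R2.HF.OrGraph Pool.Agent.H884R2.HFP

universe u v

variable {V : Type u} {E : Type v} [Fintype V] [Fintype E] [DecidableEq V] [DecidableEq E]

theorem small_blob (G : OrGraph V E) (hc : G.Cubic) (k : ℕ) (hG : CycConn G k)
    (hn : 2 * k ≤ Fintype.card V) (Z : Finset V) (hZ : Z.Nonempty) (hconn : Conn G Z)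
    (hk : Z.card + 2 < k) : ¬ G.HasCycleIn Z ∧ (G.cut Z).card = Z.card + 2 := by
  have h1 := conn_le G hc Z hZ hconn
  have hcc : G.cut Zᶜ = G.cut Z := by
    ext e
    simp only [OrGraph.cut, mem_filter, mem_univ, true_and, mem_compl]
    tauto
  have h2 : ¬ G.HasCycleIn Z := by
    intro hZc
    have h3 : ¬ G.HasCycleIn Zᶜ := by
      intro h4
      have := hG Z hZc h4
      omega
    have hcard : Zᶜ.card + Z.card = Fintype.card V := by
      rw [Finset.card_compl]
      have := Finset.card_le_univ Z
      omega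
    have hne : Zᶜ.Nonempty := by
      rw [← Finset.card_pos]; omega
    have h5 := acyclic_le G hc Zᶜ hne h3
    rw [hcc] at h5
    omega
  exact ⟨h2, le_antisymm h1 (acyclic_le G hc Z hZ h2)⟩

end Pool.Agent.H185C
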