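import Pool.Agent.H185C.Defs

set_option autoImplicit false
set_option linter.unusedSectionVars false

namespace Pool.Agent.H185C
open Finset Pool.Agent.H160R2.HF Pool.Agent.H160R2.HF.OrGraph Pool.Agent.H884R2.HFP

universe u v

variable {V : Type u} {E : Type v} [Fintype V] [Fintype E] [DecidableEq V] [DecidableEq E]

theorem mem_blob_iff' (p : V → V) (u v : V) : u ∈ blob p v ↔ p u = p v := by
  simp [blob]

theorem blob_subset_merge (G : OrGraph V E) (p : V → V) (e : E) (v : V) :
    blob p v ⊆ blob (merge G p e) v := by
  intro u hu
  rw [mem_blob_iff'] at hu ⊢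
  simp only [merge, hu]

theorem blob_congr' (p : V → V) (u v : V) (h : p u = p v) : blob p u = blob p v := by
  simp [blob, h]

theorem two_mul_le_merge (G : OrGraph V E) (p : V → V) (z : V)
    (hmin : ∀ v, (blob p z).card ≤ (blob p v).card) (e : E)
    (he : e ∈ G.cut (blob p z)) (v : V) (hv : v ∈ blob p z) :
    2 * (blob p z).card ≤ (blob (merge G p e) v).card := by
  rw [mem_blob_iff'] at hv
  simp only [OrGraph.cut, mem_filter, mem_univ, true_and, mem_blob_iff'] at he
  have key : ∀ w : V, p w ≠ p z → merge G p e w = merge G p e v →
      2 * (blob p z).card ≤ (blob (merge G p e) v).card := by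
    intro w hw hm
    have hdisj : Disjoint (blob p z) (blob p w) := by
      rw [Finset.disjoint_left]
      intro a ha hb
      rw [mem_blob_iff'] at ha hb
      exact hw (hb.symm.trans ha)
    have hsub : blob p z ∪ blob p w ⊆ blob (merge G p e) v := by
      intro a ha
      rw [Finset.mem_union, mem_blob_iff', mem_blob_iff'] at ha
      rw [mem_blob_iff']
      rcases ha with ha | ha
      · simp only [merge, ha, hv]
      · rw [← hm]; simp only [merge, ha]
    calc 2 * (blob p z).card = (blob p z).card + (blob p z).card := by ring
      _ ≤ (blob p z).card + (blob p w).card := by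
          have := hmin w; omega
      _ = (blob p z ∪ blob p w).card := (Finset.card_union_of_disjoint hdisj).symm
      _ ≤ _ := Finset.card_le_card hsub
  by_cases ht : p (G.t e) = p z
  · have hh : p (G.h e) ≠ p z := fun h => he ⟨fun _ => h, fun _ => ht⟩
    refine key (G.h e) hh ?_
    have h1 : ¬ p (G.h e) = p (G.t e) := by rw [ht]; exact hh
    simp only [merge, hv, ht, if_true, ite_self]
  · have hh : p (G.h e) = p z := by
      by_contra h
      exact he ⟨fun h' => absurd h' ht, fun h' => absurd h' h⟩
    refine key (G.t e) ht ?_
    have h1 : ¬ p v = p (G.t e) := by rw [hv]; exact fun h => ht h.symm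
    simp only [merge, h1, if_false, if_true]
    rw [hh, hv]

theorem merge_weight (G : OrGraph V E) (g : ℕ → ℝ) (hg : GoodWeight g) (p : V → V) (z : V)
    (hmin : ∀ v, (blob p z).card ≤ (blob p v).card) (X : Finset V) (hX : Closed p X) (e : E)
    (he : e ∈ G.cut (blob p z)) (heX : e ∉ G.cut X) :
    Closed (merge G p e) X ∧
      wt G g p X * (g (2 * (blob p z).card) / g (blob p z).card) ^ (G.cut X ∩ G.cut (blob p z)).card
        ≤ wt G g (merge G p e) X := by
  obtain ⟨hpos, hmono, -⟩ := hg
  constructor
  · have hiff : G.t e ∈ X ↔ G.h e ∈ X := by
      simpa [OrGraph.cut] using heX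
    intro u v huv
    simp only [merge] at huv
    split_ifs at huv with h1 h2 h2
    · exact hX u v (h1.trans h2.symm)
    · rw [hX u _ h1, hiff, hX _ v huv]
    · rw [hX u _ huv, ← hiff, ← hX v _ h2]
    · exact hX u v huv
  · have hr : (g (2 * (blob p z).card) / g (blob p z).card) ^
        (G.cut X ∩ G.cut (blob p z)).card = ∏ e' ∈ G.cut X,
          (if e' ∈ G.cut (blob p z) then g (2 * (blob p z).card) / g (blob p z).card else 1) := by
      rw [Finset.prod_ite_mem, Finset.prod_const]
    rw [wt, wt, hr, ← Finset.prod_mul_distrib]
    apply Finset.prod_le_prod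
    · intro e' _
      have h1 := (hpos (blob p (G.t e')).card).1
      have h2 := (hpos (blob p (G.h e')).card).1
      have h3 := (hpos (2 * (blob p z).card)).1
      have h4 := (hpos (blob p z).card).1
      split_ifs <;> positivity
    · intro e' _
      have hT : g (blob p (G.t e')).card ≤ g (blob (merge G p e) (G.t e')).card :=
        hmono (Finset.card_le_card (blob_subset_merge G p e _))
      have hH : g (blob p (G.h e')).card ≤ g (blob (merge G p e) (G.h e')).card :=
        hmono (Finset.card_le_card (blob_subset_merge G p e _))
      have h1 := (hpos (blob p (G.t e')).card).1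
      have h2 := (hpos (blob p (G.h e')).card).1
      have h3 := (hpos (2 * (blob p z).card)).1
      have h4 := (hpos (blob p z).card).1
      have h5 := (hpos (blob (merge G p e) (G.t e')).card).1
      have h6 := (hpos (blob (merge G p e) (G.h e')).card).1
      by_cases hc : e' ∈ G.cut (blob p z)
      · rw [if_pos hc]
        simp only [OrGraph.cut, mem_filter, mem_univ, true_and, mem_blob_iff'] at hc
        by_cases ht : p (G.t e') = p z
        · have hb : blob p (G.t e') = blob p z := blob_congr' p _ _ ht
          have h7 : g (2 * (blob p z).card) ≤ g (blob (merge G p e) (G.t e')).card :=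
            hmono (two_mul_le_merge G p z hmin e he _ ((mem_blob_iff' p _ _).2 ht))
          calc g (blob p (G.t e')).card * g (blob p (G.h e')).card *
                (g (2 * (blob p z).card) / g (blob p z).card)
              = g (2 * (blob p z).card) * g (blob p (G.h e')).card := by
                rw [hb]; field_simp
            _ ≤ _ := mul_le_mul h7 hH h2.le h5.le
        · have hh : p (G.h e') = p z := by
            by_contra h
            exact hc ⟨fun h' => absurd h' ht, fun h' => absurd h' h⟩
          have hb : blob p (G.h e') = blob p z := blob_congr' p _ _ hh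
          have h7 : g (2 * (blob p z).card) ≤ g (blob (merge G p e) (G.h e')).card :=
            hmono (two_mul_le_merge G p z hmin e he _ ((mem_blob_iff' p _ _).2 hh))
          calc g (blob p (G.t e')).card * g (blob p (G.h e')).card *
                (g (2 * (blob p z).card) / g (blob p z).card)
              = g (blob p (G.t e')).card * g (2 * (blob p z).card) := by
                rw [hb]; field_simp
            _ ≤ _ := mul_le_mul hT h7 h3.le h5.le
      · rw [if_neg hc, mul_one]
        exact mul_le_mul hT hH h2.le h5.le

end Pool.Agent.H185C
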