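import Pool.Agent.H185C.T14c
import Pool.Agent.H185C.T14a

set_option autoImplicit false
set_option linter.unusedSectionVars false

namespace Pool.Agent.H185C
open Finset Pool.Agent.H160R2.HF Pool.Agent.H160R2.HF.OrGraph Pool.Agent.H884R2.HFP

universe u v

variable {V : Type u} {E : Type v} [Fintype V] [Fintype E] [DecidableEq V] [DecidableEq E]

theorem cut_blob_not_subset (G : OrGraph V E) (p : V → V) (z : V)
    (hcyc : ¬ G.HasCycleIn (blob p z)) (X : Finset V) (hT : Thick G X) (hX : Closed p X) :
    ¬ G.cut (blob p z) ⊆ G.cut X := by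
  intro hsub
  obtain ⟨hc1, hc2, hy1, hy2⟩ := hT
  have hz : z ∈ blob p z := by simp [blob]
  by_cases hzX : z ∈ X
  · have hZX : blob p z ⊆ X := by
      intro a ha
      rw [mem_blob_iff'] at ha
      exact (hX a z ha).2 hzX
    have hne : (X \ blob p z).Nonempty := by
      rw [Finset.nonempty_iff_ne_empty]
      intro h
      rw [Finset.sdiff_eq_empty_iff_subset] at h
      exact hcyc (Finset.Subset.antisymm hZX h ▸ hy1)
    obtain ⟨e, he, h1, h2⟩ := hc1 _ hZX ⟨z, hz⟩ hne
    have := hsub he
    simp only [OrGraph.cut, mem_filter, mem_univ, true_and] at this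
    exact this ⟨fun _ => h2, fun _ => h1⟩
  · have hZX : blob p z ⊆ Xᶜ := by
      intro a ha
      rw [mem_blob_iff'] at ha
      rw [Finset.mem_compl]
      exact fun h => hzX ((hX a z ha).1 h)
    have hne : (Xᶜ \ blob p z).Nonempty := by
      rw [Finset.nonempty_iff_ne_empty]
      intro h
      rw [Finset.sdiff_eq_empty_iff_subset] at h
      exact hcyc (Finset.Subset.antisymm hZX h ▸ hy2)
    obtain ⟨e, he, h1, h2⟩ := hc2 _ hZX ⟨z, hz⟩ hne
    have := hsub he
    rw [Finset.mem_compl] at h1 h2
    simp only [OrGraph.cut, mem_filter, mem_univ, true_and] at this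
    exact this ⟨fun h => absurd h h1, fun h => absurd h h2⟩

theorem wt_pos' (G : OrGraph V E) (g : ℕ → ℝ) (hg : GoodWeight g) (p : V → V) (X : Finset V) :
    0 < wt G g p X := by
  apply Finset.prod_pos
  intro e _
  exact mul_pos (hg.1 _).1 (hg.1 _).1

theorem phase_step (G : OrGraph V E) (hc : G.Cubic) (k : ℕ) (hG : CycConn G k)
    (hn : 2 * k ≤ Fintype.card V) (g : ℕ → ℝ) (hg : GoodWeight g) (p : V → V)
    (hp : ∀ v, Conn G (blob p v)) (z : V) (hmin : ∀ v, (blob p z).card ≤ (blob p v).card)
    (hz : (blob p z).card + 2 < k) (A : Finset (Finset V)) (hA : ∀ X ∈ A, Thick G X) :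
    ∃ e ∈ G.cut (blob p z), p (G.t e) ≠ p (G.h e) ∧
      (∑ X ∈ A.filter (fun X => ∀ u v, p u = p v → (u ∈ X ↔ v ∈ X)), wt G g p X) ≤
      ∑ X ∈ A.filter (fun X => ∀ u v, merge G p e u = merge G p e v → (u ∈ X ↔ v ∈ X)),
        wt G g (merge G p e) X := by
  have hzZ : z ∈ blob p z := by simp [blob]
  obtain ⟨hcyc, hD⟩ := small_blob G hc k hG hn (blob p z) ⟨z, hzZ⟩ (hp z) hz
  have hne : (G.cut (blob p z)).Nonempty := by
    rw [← Finset.card_pos, hD]; omega
  have hs1 : 1 ≤ (blob p z).card := Finset.card_pos.2 ⟨z, hzZ⟩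
  -- the key inequality
  have key : ∑ e ∈ G.cut (blob p z),
      (∑ X ∈ A.filter (fun X => ∀ u v, p u = p v → (u ∈ X ↔ v ∈ X)), wt G g p X) ≤
      ∑ e ∈ G.cut (blob p z),
      ∑ X ∈ A.filter (fun X => ∀ u v, merge G p e u = merge G p e v → (u ∈ X ↔ v ∈ X)),
        wt G g (merge G p e) X := by
    have h1 : ∀ e ∈ G.cut (blob p z),
        ∑ X ∈ A.filter (fun X => ∀ u v, p u = p v → (u ∈ X ↔ v ∈ X)),
          (if e ∈ G.cut X then 0 else wt G g (merge G p e) X) ≤
        ∑ X ∈ A.filter (fun X => ∀ u v, merge G p e u = merge G p e v → (u ∈ X ↔ v ∈ X)),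
          wt G g (merge G p e) X := by
      intro e he
      rw [← Finset.sum_filter_add_sum_filter_not _ (fun X => e ∈ G.cut X)]
      have h0 : ∑ X ∈ (A.filter (fun X => ∀ u v, p u = p v → (u ∈ X ↔ v ∈ X))).filter
          (fun X => e ∈ G.cut X), (if e ∈ G.cut X then 0 else wt G g (merge G p e) X) = 0 := by
        apply Finset.sum_eq_zero
        intro X hX
        rw [if_pos (Finset.mem_filter.1 hX).2]
      rw [h0, zero_add]
      have h2 : ∑ X ∈ (A.filter (fun X => ∀ u v, p u = p v → (u ∈ X ↔ v ∈ X))).filter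
          (fun X => e ∉ G.cut X), (if e ∈ G.cut X then 0 else wt G g (merge G p e) X) =
          ∑ X ∈ (A.filter (fun X => ∀ u v, p u = p v → (u ∈ X ↔ v ∈ X))).filter
          (fun X => e ∉ G.cut X), wt G g (merge G p e) X := by
        apply Finset.sum_congr rfl
        intro X hX
        rw [if_neg (Finset.mem_filter.1 hX).2]
      rw [h2]
      apply Finset.sum_le_sum_of_subset_of_nonneg
      · intro X hX
        rw [Finset.mem_filter, Finset.mem_filter] at hX
        obtain ⟨⟨hXA, hXc⟩, hXe⟩ := hX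
        rw [Finset.mem_filter]
        exact ⟨hXA, (merge_weight G g hg p z hmin X hXc e he hXe).1⟩
      · intro X _ _
        exact (wt_pos' G g hg _ X).le
    refine le_trans ?_ (Finset.sum_le_sum h1)
    rw [Finset.sum_comm]
    rw [Finset.sum_comm (s := G.cut (blob p z))]
    apply Finset.sum_le_sum
    intro X hX
    rw [Finset.mem_filter] at hX
    obtain ⟨hXA, hXc⟩ := hX
    rw [Finset.sum_const, nsmul_eq_mul, hD]
    rw [← Finset.sum_filter_add_sum_filter_not _ (fun e => e ∈ G.cut X)]
    have h0 : ∑ e ∈ (G.cut (blob p z)).filter (fun e => e ∈ G.cut X),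
        (if e ∈ G.cut X then 0 else wt G g (merge G p e) X) = 0 := by
      apply Finset.sum_eq_zero
      intro e he
      rw [if_pos (Finset.mem_filter.1 he).2]
    rw [h0, zero_add]
    set y := (G.cut X ∩ G.cut (blob p z)).card with hy
    have hcardf : ((G.cut (blob p z)).filter (fun e => e ∉ G.cut X)).card + y =
        (blob p z).card + 2 := by
      rw [← hD, ← Finset.card_filter_add_card_filter_not (s := G.cut (blob p z))
        (fun e => e ∈ G.cut X), add_comm, hy]
      congr 2
      ext e
      simp [and_comm]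
    have hylt : y ≤ (blob p z).card + 1 := by
      have hns := cut_blob_not_subset G p z hcyc X (hA X hXA) hXc
      by_contra hcon
      have h0' : ((G.cut (blob p z)).filter (fun e => e ∉ G.cut X)).card = 0 := by omega
      rw [Finset.card_eq_zero, Finset.filter_eq_empty_iff] at h0'
      apply hns
      intro e he
      by_contra h
      exact h0' he h
    have h3 : ∑ e ∈ (G.cut (blob p z)).filter (fun e => e ∉ G.cut X),
        (wt G g p X * (g (2 * (blob p z).card) / g (blob p z).card) ^ y) ≤
        ∑ e ∈ (G.cut (blob p z)).filter (fun e => e ∉ G.cut X),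
        (if e ∈ G.cut X then 0 else wt G g (merge G p e) X) := by
      apply Finset.sum_le_sum
      intro e he
      rw [Finset.mem_filter] at he
      rw [if_neg he.2]
      exact (merge_weight G g hg p z hmin X hXc e he.1 he.2).2
    refine le_trans ?_ h3
    rw [Finset.sum_const, nsmul_eq_mul]
    have h4 := hg.2.2 (blob p z).card hs1 y hylt
    have h5 : (((G.cut (blob p z)).filter (fun e => e ∉ G.cut X)).card : ℝ) =
        ((blob p z).card : ℝ) + 2 - y := by
      have : (((G.cut (blob p z)).filter (fun e => e ∉ G.cut X)).card : ℝ) + y =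
        ((blob p z).card : ℝ) + 2 := by exact_mod_cast hcardf
      linarith
    rw [h5]
    have hw := wt_pos' G g hg p X
    push_cast
    nlinarith [mul_le_mul_of_nonneg_right h4 hw.le]
  obtain ⟨e, he, hle⟩ := Finset.exists_le_of_sum_le hne key
  refine ⟨e, he, ?_, hle⟩
  intro h
  simp only [OrGraph.cut, mem_filter, mem_univ, true_and, mem_blob_iff'] at he
  rw [h] at he
  exact he Iff.rfl

end Pool.Agent.H185C
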